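import Pool.Agent.N467.BL.FaceData

/-! Faces, rotations, mirror images and positivity. -/

set_option autoImplicit false
set_option maxRecDepth 1000000

namespace Pool.Agent.N467.BL

open Finset
open Pool.Agent.TH389.BL

/-- vector of the face -/
def fcV (n : ℕ) : List (List ℤ) := (PQ n).map fun b => if b = List.range n then [1] else []

/-- permuted vector -/
def prm (n : ℕ) (σ : ℕ → ℕ) (g : List (List ℤ)) : List (List ℤ) :=
  (List.range (PQ n).length).map fun i => g.getD (σ i) []

def sR (n i : ℕ) : ℕ := idxPQ n (can (((PQ n).getD i []).rotate (n - 1)))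

def sM (n i : ℕ) : ℕ := idxPQ n (can ((PQ n).getD i []).reverse)

/-- the family is mapped to itself by a permutation of the coordinates -/
def okP (n : ℕ) (σ : ℕ → ℕ) (p : List ℕ) : Bool :=
  decide ((Gs n).map (prm n σ) = p.map fun j => (Gs n).getD j []) &&
    (p.all fun j => decide (j < (Gs n).length)) && ((p.take (wGs n)).all fun j => decide (j < wGs n))

/-- closing up: polynomial -/
def clP (n : ℕ) (g : List (List ℤ)) : List ℤ :=
  (List.range (PQ n).length).foldr (fun i acc =>
    Pool.Agent.TH389.BL.padd (pmul (clos n ((PQ n).getD i [])) (g.getD i [])) acc) []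

def okC (n : ℕ) : Bool :=
  decide ((Gs n).length = (pos n).length) &&
    ((Gs n).zip (pos n)).all fun e => peq (clP n e.1) (bern [-4, 1] [1] e.2) && e.2.any fun c => c != 0

def okF (n : ℕ) : Bool :=
  certOK [-4, 1] [1] (Gs n) (fcV n) (fcs n) && (fcs n).2.2.any fun e => decide (e.1 < wGs n)

theorem okF_all : ∀ n ∈ [2, 3, 4, 5, 6], okF n = true := by decide +kernel

theorem okC_all : ∀ n ∈ [2, 3, 4, 5, 6], okC n = true := by decide +kernel

theorem okR_all : ∀ n ∈ [2, 3, 4, 5, 6], okP n (sR n) (ros n) = true := by decide +kernel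

theorem okM_all : ∀ n ∈ [2, 3, 4, 5, 6], okP n (sM n) (mis n) = true := by decide +kernel

theorem mem5' {n : ℕ} (h2 : 2 ≤ n) (h6 : n ≤ 6) : n ∈ [2, 3, 4, 5, 6] := by
  interval_cases n <;> simp

theorem tt_pos {q : ℝ} (hq : 4 < q) : 0 < ev [-4, 1] q := by
  simp only [ev]; push_cast; linarith

theorem one_pos' {q : ℝ} : 0 < ev [1] q := by
  simp only [ev]; push_cast; linarith

theorem face_K {n : ℕ} (h2 : 2 ≤ n) (h6 : n ≤ 6) {q : ℝ} (hq : 4 < q) :
    K q (Gs n) (wGs n) true (fun i => if (PQ n).getD i [] = List.range n then 1 else 0) := by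
  have h := okF_all n (mem5' h2 h6)
  simp only [okF, Bool.and_eq_true] at h
  have h1 := K_cert (w := wGs n) (tt_pos hq) one_pos' (by linarith) (fcs n) h.1
  rw [h.2] at h1
  convert h1 using 1
  funext i
  unfold evv fcV
  by_cases hi : i < (PQ n).length
  · simp only [List.getD_eq_getElem?_getD, List.getElem?_map, List.getElem?_eq_getElem hi,
      Option.map_some, Option.getD_some]
    split_ifs <;> simp [ev]
  · have e1 : (PQ n).getD i [] = [] := List.getD_eq_default _ _ (by omega)
    have e2 : ((PQ n).map fun b => if b = List.range n then ([1] : List ℤ) else []).getD i [] = [] :=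
      List.getD_eq_default _ _ (by simp; omega)
    rw [e1, e2, if_neg, ev]
    intro h3
    have := congrArg List.length h3
    simp at this
    omega

theorem Gs_len {n : ℕ} (h : ((Gs n).all fun g => okVec (PQ n).length 4 150 g) = true) :
    ∀ g ∈ Gs n, g.length = (PQ n).length := by
  intro g hg
  have := List.all_eq_true.1 h g hg
  simp only [okVec, Bool.and_eq_true] at this
  exact Nat.eq_of_beq_eq_true this.1

theorem perm_K {n : ℕ} (hl : ∀ g ∈ Gs n, g.length = (PQ n).length) (σ : ℕ → ℕ) (p : List ℕ)
    (hσ : ∀ i, (PQ n).length ≤ i → (PQ n).length ≤ σ i) (h : okP n σ p = true) {q : ℝ} {b : Bool}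
    {x : ℕ → ℝ} (hx : K q (Gs n) (wGs n) b x) : K q (Gs n) (wGs n) b (fun i => x (σ i)) := by
  simp only [okP, Bool.and_eq_true, decide_eq_true_eq] at h
  obtain ⟨⟨h1, h2⟩, h3⟩ := h
  have hplen : p.length = (Gs n).length := by
    have := congrArg List.length h1
    simpa using this.symm
  have key : ∀ i (hi : i < (Gs n).length), (fun k => evv ((Gs n)[i]) q (σ k)) =
      evv ((Gs n).getD (p.getD i 0) []) q := by
    intro i hi
    have e : prm n σ ((Gs n)[i]) = (Gs n).getD (p.getD i 0) [] := by
      have h4 : ((Gs n).map (prm n σ))[i]? = (p.map fun j => (Gs n).getD j [])[i]? := by rw [h1]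
      rw [List.getElem?_map, List.getElem?_map, List.getElem?_eq_getElem hi,
        List.getElem?_eq_getElem (by omega)] at h4
      simp only [Option.map_some, Option.some.injEq] at h4
      rw [h4, List.getD_eq_getElem _ _ (by omega : i < p.length)]
    rw [← e]
    funext k
    unfold evv prm
    by_cases hk : k < (PQ n).length
    · have h5 : ((List.range (PQ n).length).map fun i_1 => (Gs n)[i].getD (σ i_1) []).getD k [] =
          (Gs n)[i].getD (σ k) [] := by
        simp only [List.getD_eq_getElem?_getD, List.getElem?_map, List.getElem?_range hk,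
          Option.map_some, Option.getD_some]
      rw [h5]
    · have h5 : ((List.range (PQ n).length).map fun i_1 => (Gs n)[i].getD (σ i_1) []).getD k [] =
          [] := by
        apply List.getD_eq_default
        rw [List.length_map, List.length_range]
        omega
      have h6 : (Gs n)[i].getD (σ k) [] = [] := by
        apply List.getD_eq_default
        rw [hl _ (List.getElem_mem hi)]
        exact hσ k (by omega)
      rw [h5, h6]
  have lin : Lin (fun (y : ℕ → ℝ) k => y (σ k)) := ⟨fun _ _ => rfl, fun _ _ => rfl⟩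
  refine K_map lin ?_ ?_ hx
  · intro g hg
    obtain ⟨i, hi, rfl⟩ := List.mem_take_iff_getElem.1 hg
    have hi' : i < (Gs n).length := by omega
    change K q (Gs n) (wGs n) true (fun k => evv ((Gs n)[i]) q (σ k))
    rw [key i hi']
    have h5 : p.getD i 0 ∈ p.take (wGs n) := by
      rw [List.getD_eq_getElem _ _ (by omega : i < p.length), List.mem_take_iff_getElem]
      exact ⟨i, by omega, rfl⟩
    have h6 := List.all_eq_true.1 h3 _ h5
    have h7 := List.all_eq_true.1 h2 _ (List.mem_of_mem_take h5)
    rw [decide_eq_true_eq] at h6 h7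
    have := K_gen (q := q) (G := Gs n) (w := wGs n) (p.getD i 0) h7
    rwa [decide_eq_true h6] at this
  · intro g hg
    obtain ⟨i, hi, rfl⟩ := List.mem_iff_getElem.1 hg
    change K q (Gs n) (wGs n) false (fun k => evv ((Gs n)[i]) q (σ k))
    rw [key i hi]
    have h5 : p.getD i 0 ∈ p := by
      rw [List.getD_eq_getElem _ _ (by omega : i < p.length)]
      exact List.getElem_mem _
    have h7 := List.all_eq_true.1 h2 _ h5
    rw [decide_eq_true_eq] at h7
    have h8 := K_gen (q := q) (G := Gs n) (w := wGs n) (p.getD i 0) h7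
    cases hd : decide (p.getD i 0 < wGs n) with
    | true => rw [hd] at h8; exact K.weak _ h8
    | false => rw [hd] at h8; exact h8

theorem K_lin_pos {φ : (ℕ → ℝ) → ℝ} {q : ℝ} {G : List (List (List ℤ))} {w : ℕ}
    (h0 : φ (fun _ => 0) = 0)
    (hadd : ∀ x y : ℕ → ℝ, φ (fun i => x i + y i) = φ x + φ y)
    (hsmul : ∀ (c : ℝ) (x : ℕ → ℝ), φ (fun i => c * x i) = c * φ x)
    (h : ∀ g ∈ G, 0 < φ (evv g q)) {b : Bool} {x : ℕ → ℝ} (hx : K q G w b x) :
    0 ≤ φ x ∧ (b = true → 0 < φ x) := by
  induction hx with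
  | zero => rw [h0]; simp
  | good g hg =>
    have := h g (List.mem_of_mem_take hg)
    exact ⟨this.le, fun _ => this⟩
  | bad g hg => exact ⟨(h g hg).le, fun h => by simp at h⟩
  | smul b c x hc _ ih =>
    rw [hsmul]
    exact ⟨mul_nonneg hc.le ih.1, fun h => mul_pos hc (ih.2 h)⟩
  | add b b' x y _ _ ih1 ih2 =>
    rw [hadd]
    refine ⟨add_nonneg ih1.1 ih2.1, fun h => ?_⟩
    simp only [Bool.or_eq_true] at h
    rcases h with h | h
    · exact add_pos_of_pos_of_nonneg (ih1.2 h) ih2.1
    · exact add_pos_of_nonneg_of_pos ih1.1 (ih2.2 h)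
  | weak x _ ih => exact ⟨ih.1, fun h => by simp at h⟩

theorem ev_clP (n : ℕ) (g : List (List ℤ)) (q : ℝ) :
    ev (clP n g) q = ∑ i ∈ range (PQ n).length, ev (clos n ((PQ n).getD i [])) q * evv g q i := by
  have key : ∀ (f : ℕ → List ℤ) (l : List ℕ),
      ev (l.foldr (fun i acc => Pool.Agent.TH389.BL.padd (f i) acc) []) q =
        (l.map fun i => ev (f i) q).sum := by
    intro f l
    induction l with
    | nil => rfl
    | cons a l ih => rw [List.foldr_cons, ev_padd, ih, List.map_cons, List.sum_cons]
  have key2 : ∀ (f : ℕ → ℝ) (N : ℕ), ((List.range N).map f).sum = ∑ i ∈ range N, f i := by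
    intro f N
    induction N with
    | zero => simp
    | succ N ih => rw [List.range_succ, List.map_append, List.sum_append, ih, sum_range_succ]; simp
  unfold clP
  rw [key, key2]
  simp only [ev_pmul, evv]

theorem close_pos {n : ℕ} (h2 : 2 ≤ n) (h6 : n ≤ 6) {q : ℝ} (hq : 4 < q) (x : ℕ → ℝ)
    (hx : K q (Gs n) (wGs n) true x) :
    0 < ∑ i ∈ range (PQ n).length, ev (clos n ((PQ n).getD i [])) q * x i := by
  have h := okC_all n (mem5' h2 h6)
  simp only [okC, Bool.and_eq_true, decide_eq_true_eq] at h
  obtain ⟨h3, h4⟩ := h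
  refine (K_lin_pos (φ := fun x => ∑ i ∈ range (PQ n).length,
    ev (clos n ((PQ n).getD i [])) q * x i) ?_ ?_ ?_ ?_ hx).2 rfl
  · simp
  · intro x y
    simp only [mul_add, sum_add_distrib]
  · intro c x
    rw [mul_sum]
    exact sum_congr rfl fun i _ => by ring
  · intro g hg
    obtain ⟨c, hc⟩ := exists_zip h3 hg
    have h5 := List.all_eq_true.1 h4 _ hc
    simp only [Bool.and_eq_true] at h5
    change 0 < ∑ i ∈ range (PQ n).length, ev (clos n ((PQ n).getD i [])) q * evv g q i
    rw [← ev_clP, ev_peq h5.1]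
    exact ev_bern_pos (tt_pos hq) one_pos' _ h5.2

end Pool.Agent.N467.BL
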