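import Pool.Agent.N467.BL.TabDefs

/-! Certificates for the closure of cones under gluing: computable definitions.  Vectors of integer
polynomials are packed into one integer modulo `M`: the variable is replaced by `B` and the position
by powers of `W`. -/

set_option autoImplicit false

namespace Pool.Agent.N467.BL

/-- value at `W` of the vector of the values at `B` of a list of polynomials -/
def pkv (B W : ℤ) (v : List (List ℤ)) : ℤ := evZ (v.map fun p => evZ p B) W

/-- residue modulo `M` -/
def res (M : ℕ) : ℤ → ℕ
  | Int.ofNat n => Nat.mod n M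
  | Int.negSucc n => Nat.sub M (Nat.mod (Nat.succ n) M)

/-- `a * x` modulo `M` for a residue `x ≤ M` and an integer `a` (not reduced) -/
def smul (M : ℕ) (a : ℤ) (x : ℕ) : ℕ :=
  match a with
  | Int.ofNat n => Nat.mul n x
  | Int.negSucc n => Nat.mul (Nat.succ n) (Nat.sub M x)

/-- scalar multiple plus vector modulo `M` -/
def axpy (M : ℕ) (a : ℤ) : List ℕ → List ℕ → List ℕ
  | [], y => y
  | x :: l, [] => Nat.mod (smul M a x) M :: axpy M a l []
  | x :: l, y :: m => Nat.mod (Nat.add (smul M a x) y) M :: axpy M a l m

/-- the packed value of the gluing at two partitions; `Wp` are the powers of `W` -/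
def packT (τ : Ty) (B : ℤ) (Wp : List ℤ) (b b' : List ℕ) : ℤ :=
  (tab τ b b').foldr (fun p acc =>
    let r := rst τ.C p.2
    if adjEq r then acc else evZ p.1 B * Wp.getD ((PQ τ.C.length).idxOf r) 0 + acc) 0

/-- the packed table of a type: rows for the partitions of the first ring -/
def tpk (M : ℕ) (τ : Ty) (B : ℤ) (Wp : List ℤ) : List (List ℕ) :=
  (PQ (τ.s + τ.m)).map fun b => (PQ (τ.s + τ.l)).map fun b' => res M (packT τ B Wp b b')

/-- the packed columns of the linear map given by gluing with the vector `g` -/
def cols (M : ℕ) : List (List ℕ) → List ℤ → List ℕ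
  | [], _ => []
  | _ :: _, [] => []
  | t :: ts, a :: gz => if a = 0 then cols M ts gz else axpy M a t (cols M ts gz)

/-- packed value of gluing with `h` -/
def dotM (M : ℕ) : List ℤ → List ℕ → ℕ
  | [], _ => 0
  | _ :: _, [] => 0
  | a :: h, x :: c => Nat.add (smul M a x) (dotM M h c)

/-- the first `n` digits of `x` in base `2 ^ 16` -/
def digs : ℕ → ℕ → List ℕ
  | 0, _ => []
  | n + 1, x => Nat.mod x 65536 :: digs n (Nat.div x 65536)

/-- value at `x` of the polynomial whose `n` coefficients are the next digits, and the rest -/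
def rdP (x : ℕ) : ℕ → List ℕ → ℕ × List ℕ
  | 0, s => (0, s)
  | _ + 1, [] => (0, [])
  | n + 1, a :: s => match rdP x n s with
    | (v, r) => (Nat.add a (Nat.mul x v), r)

/-- value of the next `n` terms: index, number of coefficients, coefficients -/
def rdT (x : ℕ) (Lp : List ℕ) : ℕ → List ℕ → ℕ × List ℕ
  | 0, s => (0, s)
  | _ + 1, [] => (0, [])
  | _ + 1, [_] => (0, [])
  | n + 1, i :: m :: s => match rdP x m s with
    | (v, r) => match rdT x Lp n r with
      | (w, r') => (Nat.add (Nat.mul v (Lp.getD i 0)) w, r')

/-- check of one row -/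
def chkRow (M x : ℕ) (Lp cl : List ℕ) : List (List ℤ) → List ℕ → Bool
  | [], s => s.isEmpty
  | _ :: _, [] => false
  | h :: hz, n :: s => match rdT x Lp n s with
    | (w, r) => (Nat.beq (Nat.mod (dotM M h cl) M) (Nat.mod w M)) && chkRow M x Lp cl hz r

/-- check of a type of gluing; a row of the data is the number of digits and the number -/
def chkTy (M x : ℕ) (t : List (List ℕ)) (hz : List (List ℤ)) (Lp : List ℕ) :
    List (List ℤ) → List (ℕ × ℕ) → Bool
  | [], [] => true
  | g :: gz, d :: ds => chkRow M x Lp (cols M t g) hz (digs d.1 d.2) && chkTy M x t hz Lp gz ds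
  | _, _ => false

/-- parse the next `n` terms -/
def psT : ℕ → List ℕ → List (ℕ × List ℕ) × List ℕ
  | 0, s => ([], s)
  | _ + 1, [] => ([], [])
  | _ + 1, [_] => ([], [])
  | n + 1, i :: m :: s => match psT n (s.drop m) with
    | (c, r) => ((i, s.take m) :: c, r)

/-- parse the certificates of a row with `k` entries -/
def psRow : ℕ → List ℕ → List (List (ℕ × List ℕ))
  | 0, _ => []
  | _ + 1, [] => []
  | k + 1, n :: s => match psT n s with
    | (c, r) => c :: psRow k r

/-- shape of a certificate: `m` terms at most, indices below `l`, at most `dc` coefficients, not all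
zero; if `good` is true some index is below `w` -/
def okCert (m l dc w : ℕ) (good : Bool) (c : List (ℕ × List ℕ)) : Bool :=
  Nat.ble c.length m && (c.all fun e => Nat.blt e.1 l && Nat.ble e.2.length dc &&
    e.2.any fun a => Nat.blt 0 a) && (!good || c.any fun e => Nat.blt e.1 w)

/-- shape of the certificates of a row whose first `wb` entries are good -/
def okRow (m l dc w : ℕ) (good : Bool) (wb : ℕ) (r : List (List (ℕ × List ℕ))) : Bool :=
  ((r.take wb).all fun c => okCert m l dc w good c) &&
    (r.drop wb).all fun c => okCert m l dc w false c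

/-- shape of all certificates of a type: `wa` good rows, `nb` entries in a row -/
def okTy (m l dc w wa wb nb : ℕ) (ds : List (ℕ × ℕ)) : Bool :=
  ((ds.take wa).all fun d => okRow m l dc w true wb (psRow nb (digs d.1 d.2))) &&
    (ds.drop wa).all fun d => okRow m l dc w false wb (psRow nb (digs d.1 d.2))

/-- size of a vector of polynomials -/
def okVec (k d n : ℕ) (v : List (List ℤ)) : Bool :=
  Nat.beq v.length k && v.all fun p => Nat.ble p.length d && Nat.ble (nrm p) n

/-- size of the table of a type -/
def okTab (τ : Ty) (d n : ℕ) : Bool :=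
  (PQ (τ.s + τ.m)).all fun b => (PQ (τ.s + τ.l)).all fun b' =>
    (tab τ b b').all (fun p => Nat.ble p.1.length d) &&
      Nat.ble ((tab τ b b').foldr (fun p acc => Nat.add (nrm p.1) acc) 0) n

/-- digits in base `2 ^ 32` -/
def digs32 : ℕ → ℕ → List ℕ
  | 0, _ => []
  | n + 1, x => Nat.mod x 4294967296 :: digs32 n (Nat.div x 4294967296)

/-- read a polynomial: the coefficients are shifted by `2 ^ 31` -/
def rdC : ℕ → List ℕ → List ℤ × List ℕ
  | 0, s => ([], s)
  | _ + 1, [] => ([], [])
  | n + 1, a :: s => match rdC n s with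
    | (v, r) => (Int.subNatNat a 2147483648 :: v, r)

/-- read `k` polynomials: length and coefficients -/
def rdV : ℕ → List ℕ → List (List ℤ) × List ℕ
  | 0, s => ([], s)
  | _ + 1, [] => ([], [])
  | k + 1, n :: s => match rdC n s with
    | (v, r) => match rdV k r with
      | (w, r') => (v :: w, r')

/-- a vector of `k` polynomials -/
def vecOf (k : ℕ) (d : ℕ × ℕ) : List (List ℤ) := (rdV k (digs32 d.1 d.2)).1

end Pool.Agent.N467.BL
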