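import Pool.Agent.N467.BL.TabProps
import Pool.Agent.N467.BL.ChkDefs

/-! Fast evaluation of the tables in the kernel.  The recursion is written so that all arguments are
in normal form, so that the kernel finds repeated evaluations in its cache. -/

set_option autoImplicit false

namespace Pool.Agent.N467.BL

variable {α : Type}

/-- pass a number in normal form -/
def fN : ℕ → (ℕ → α) → α
  | 0, k => k 0
  | n + 1, k => k (Nat.succ n)

/-- pass a list in normal form -/
def fL : List ℕ → (List ℕ → α) → α
  | [], k => k []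
  | x :: l, k => fN x fun y => fL l fun m => k (y :: m)

/-- pass an element of a list in normal form -/
def gC : List ℕ → ℕ → (ℕ → α) → α
  | [], _, k => k 0
  | x :: _, 0, k => k x
  | _ :: l, n + 1, k => gC l n k

/-- pass the list with the label `b` replaced by `a` -/
def fM (a b : ℕ) : List ℕ → (List ℕ → α) → α
  | [], k => k []
  | x :: l, k => bif Nat.beq x b then fM a b l fun m => k (a :: m) else fM a b l fun m => k (x :: m)

/-- pass the labels at the positions `C` -/
def cC (θ : List ℕ) : List ℕ → (List ℕ → α) → α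
  | [], k => k []
  | i :: C, k => gC θ i fun x => cC θ C fun l => k (x :: l)

/-- all terms satisfy a condition -/
def gB (lf : List ℕ → Bool) : List (ℕ × ℕ) → List ℕ → Bool
  | [], θ => lf θ
  | e :: E, θ => gC θ e.1 fun a => gC θ e.2 fun b => bif Nat.beq a b then true else
      gB lf E θ && fM a b θ fun θ' => gB lf E θ'

/-- alternating sum modulo `M` -/
def gN (M : ℕ) (lf : List ℕ → ℕ) : List (ℕ × ℕ) → List ℕ → ℕ
  | [], θ => lf θ
  | e :: E, θ => gC θ e.1 fun a => gC θ e.2 fun b => bif Nat.beq a b then 0 else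
      Nat.mod (Nat.add (gN M lf E θ) (Nat.sub M (fM a b θ fun θ' => gN M lf E θ'))) M

/-- number of elements equal to `a` -/
def cF (a : ℕ) : List ℕ → ℕ
  | [] => 0
  | x :: l => bif Nat.beq x a then Nat.succ (cF a l) else cF a l

/-- `x ^` number of the blocks which are lost when the positions `D` are dropped, times `w` -/
def cD (x w : ℕ) : List ℕ → List ℕ → ℕ
  | [], _ => w
  | z :: D, θ => gC θ z fun a =>
      bif Nat.beq (cF a θ) 1 then Nat.mul x (cD x w D (θ.set z (θ.length + z)))
      else cD x w D (θ.set z (θ.length + z))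

/-- the leaf for the check of the partitions -/
def lfB (C : List ℕ) (P : List (List ℕ)) (θ : List ℕ) : Bool :=
  cC θ C fun l => fL (l.map fun x => l.idxOf x) fun r => adjEq r || P.contains r

/-- the leaf for the packed value -/
def lfN (M x : ℕ) (W : List ℕ) (C D : List ℕ) (P : List (List ℕ)) (θ : List ℕ) : ℕ :=
  cC θ C fun l => fL (l.map fun x => l.idxOf x) fun r =>
    bif adjEq r then 0 else Nat.mod (cD x (W.getD (P.idxOf r) 0) D θ) M

/-- joined partition in normal form -/
def jn (τ : Ty) (b b' : List ℕ) (k : List ℕ → α) : α :=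
  fL (joinL τ.B b' (joinL τ.A b (List.range τ.N))) k

/-- fast check of a type -/
def okAllF (τ : Ty) : Bool :=
  okE τ && ((PQ (τ.s + τ.m)).all fun b => okB (τ.s + τ.m) b) &&
    ((PQ (τ.s + τ.l)).all fun b => okB (τ.s + τ.l) b) &&
    (PQ (τ.s + τ.m)).all fun b => (PQ (τ.s + τ.l)).all fun b' =>
      jn τ b b' fun θ => gB (lfB τ.C (PQ τ.C.length)) τ.E θ

/-- fast packed table -/
def tpkF (M x : ℕ) (τ : Ty) (W : List ℕ) : List (List ℕ) :=
  (PQ (τ.s + τ.m)).map fun b => (PQ (τ.s + τ.l)).map fun b' =>
    jn τ b b' fun θ => gN M (lfN M x W τ.C τ.D (PQ τ.C.length)) τ.E θ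

theorem fN_eq (n : ℕ) (k : ℕ → α) : fN n k = k n := by
  cases n <;> rfl

theorem fL_eq (l : List ℕ) (k : List ℕ → α) : fL l k = k l := by
  induction l generalizing k with
  | nil => rfl
  | cons x l ih => rw [fL, fN_eq, ih]

theorem gC_eq (l : List ℕ) (n : ℕ) (k : ℕ → α) : gC l n k = k (l.getD n 0) := by
  induction l generalizing n with
  | nil => rfl
  | cons x l ih =>
    cases n with
    | zero => rfl
    | succ n => rw [gC, ih, List.getD_cons_succ]

theorem fM_eq (a b : ℕ) (l : List ℕ) (k : List ℕ → α) :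
    fM a b l k = k (l.map fun x => if x = b then a else x) := by
  induction l generalizing k with
  | nil => rfl
  | cons x l ih =>
    rw [fM]
    by_cases h : x = b
    · have : Nat.beq x b = true := by rw [h]; exact Nat.beq_refl b
      rw [this, cond_true, ih, List.map_cons, if_pos h]
    · have : Nat.beq x b = false := by
        rw [Bool.eq_false_iff]
        intro h'
        exact h (Nat.eq_of_beq_eq_true h')
      rw [this, cond_false, ih, List.map_cons, if_neg h]

theorem cC_eq (θ C : List ℕ) (k : List ℕ → α) : cC θ C k = k (C.map fun i => θ.getD i 0) := by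
  induction C generalizing k with
  | nil => rfl
  | cons i C ih => rw [cC, gC_eq, ih, List.map_cons]

theorem beq_cond {β : Type} (a b : ℕ) (x y : β) : (bif Nat.beq a b then x else y) = if a = b then x else y := by
  by_cases h : a = b
  · have : Nat.beq a b = true := by rw [h]; exact Nat.beq_refl b
    rw [this, cond_true, if_pos h]
  · have : Nat.beq a b = false := by
      rw [Bool.eq_false_iff]
      intro h'
      exact h (Nat.eq_of_beq_eq_true h')
    rw [this, cond_false, if_neg h]

theorem gB_cons (lf : List ℕ → Bool) (e : ℕ × ℕ) (E : List (ℕ × ℕ)) (θ : List ℕ) :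
    gB lf (e :: E) θ = if θ.getD e.1 0 = θ.getD e.2 0 then true else
      (gB lf E θ && gB lf E (mrg θ e.1 e.2)) := by
  rw [gB, gC_eq, gC_eq, beq_cond, fM_eq]
  rfl

theorem gN_cons (M : ℕ) (lf : List ℕ → ℕ) (e : ℕ × ℕ) (E : List (ℕ × ℕ)) (θ : List ℕ) :
    gN M lf (e :: E) θ = if θ.getD e.1 0 = θ.getD e.2 0 then 0 else
      (gN M lf E θ + (M - gN M lf E (mrg θ e.1 e.2))) % M := by
  rw [gN, gC_eq, gC_eq, beq_cond, fM_eq]
  rfl

theorem cF_eq (a : ℕ) (l : List ℕ) : cF a l = l.count a := by
  induction l with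
  | nil => rfl
  | cons x l ih =>
    rw [cF, beq_cond, ih, List.count_cons]
    by_cases h : x = a <;> simp [h]

/-! ### The terms of a table -/

theorem foldE_append (E : List (ℕ × ℕ)) (s t : Terms) :
    E.foldl (fun t e => stepE e t) (s ++ t) =
      E.foldl (fun t e => stepE e t) s ++ E.foldl (fun t e => stepE e t) t := by
  induction E generalizing s t with
  | nil => rfl
  | cons e E ih =>
    simp only [List.foldl_cons]
    rw [← ih]
    congr 1
    unfold stepE
    rw [List.flatMap_append]

theorem foldD_map (D : List ℕ) (t : Terms) :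
    D.foldl (fun t z => stepD z t) t = t.flatMap fun p => D.foldl (fun t z => stepD z t) [p] := by
  induction D generalizing t with
  | nil => simp
  | cons z D ih =>
    simp only [List.foldl_cons]
    rw [ih]
    induction t with
    | nil => rfl
    | cons p t iht =>
      have h1 : stepD z (p :: t) = stepD z [p] ++ stepD z t := by simp [stepD]
      rw [h1, List.flatMap_append, List.flatMap_cons, iht, ih (stepD z [p])]

/-- alternating sum -/
def gZ (lf : List ℕ → ℤ) : List (ℕ × ℕ) → List ℕ → ℤ
  | [], θ => lf θ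
  | e :: E, θ => if θ.getD e.1 0 = θ.getD e.2 0 then 0 else gZ lf E θ - gZ lf E (mrg θ e.1 e.2)

theorem gZ_neg (lf : List ℕ → ℤ) (E : List (ℕ × ℕ)) (θ : List ℕ) :
    gZ (fun θ => - lf θ) E θ = - gZ lf E θ := by
  induction E generalizing θ with
  | nil => rfl
  | cons e E ih =>
    rw [gZ, gZ, ih, ih]
    split_ifs <;> ring

theorem stepE_single (e : ℕ × ℕ) (c : List ℤ) (θ : List ℕ) :
    stepE e [(c, θ)] = if θ.getD e.1 0 = θ.getD e.2 0 then [] else
      [(c, θ)] ++ [(pneg c, mrg θ e.1 e.2)] := by
  simp only [stepE, List.flatMap_cons, List.flatMap_nil, List.append_nil]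
  rfl

theorem foldE_nil (E : List (ℕ × ℕ)) : E.foldl (fun t e => stepE e t) ([] : Terms) = [] := by
  induction E with
  | nil => rfl
  | cons e E ih =>
    have : stepE e ([] : Terms) = [] := rfl
    rw [List.foldl_cons, this, ih]

/-- sum of a function over the terms -/
theorem sum_foldE (φ : List ℤ × List ℕ → ℤ) (hφ : ∀ c θ, φ (pneg c, θ) = - φ (c, θ))
    (E : List (ℕ × ℕ)) (c : List ℤ) (θ : List ℕ) :
    ((E.foldl (fun t e => stepE e t) [(c, θ)]).map φ).sum = gZ (fun θ => φ (c, θ)) E θ := by
  induction E generalizing c θ with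
  | nil => simp [gZ]
  | cons e E ih =>
    rw [List.foldl_cons, stepE_single, gZ]
    split_ifs with h
    · rw [foldE_nil]; rfl
    · rw [foldE_append, List.map_append, List.sum_append, ih, ih]
      have : (fun θ => φ (pneg c, θ)) = fun θ => - φ (c, θ) := by funext θ; exact hφ c θ
      rw [this, gZ_neg]
      ring

theorem all_foldE (P : List ℕ → Bool) (E : List (ℕ × ℕ)) (c : List ℤ) (θ : List ℕ) :
    ((E.foldl (fun t e => stepE e t) [(c, θ)]).all fun p => P p.2) = gB P E θ := by
  induction E generalizing c θ with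
  | nil => simp [gB]
  | cons e E ih =>
    rw [List.foldl_cons, stepE_single, gB_cons]
    split_ifs with h
    · rw [foldE_nil]; rfl
    · rw [foldE_append, List.all_append, ih, ih]

/-- the partition after dropping positions -/
def sD : List ℕ → List ℕ → List ℕ
  | [], θ => θ
  | z :: D, θ => sD D (θ.set z (θ.length + z))

/-- the coefficient after dropping positions -/
def pD : List ℕ → List ℕ → List ℤ → List ℤ
  | [], _, c => c
  | z :: D, θ, c => pD D (θ.set z (θ.length + z)) (if θ.count (θ.getD z 0) = 1 then 0 :: c else c)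

theorem foldD_single (D : List ℕ) (c : List ℤ) (θ : List ℕ) :
    D.foldl (fun t z => stepD z t) [(c, θ)] = [(pD D θ c, sD D θ)] := by
  induction D generalizing c θ with
  | nil => rfl
  | cons z D ih =>
    have : stepD z [(c, θ)] = [(if θ.count (θ.getD z 0) = 1 then 0 :: c else c,
        θ.set z (θ.length + z))] := rfl
    rw [List.foldl_cons, this, ih, pD, sD]

theorem rst_sD (C D θ : List ℕ) (h : ∀ z ∈ D, z ∉ C) : rst C (sD D θ) = rst C θ := by
  induction D generalizing θ with
  | nil => rfl
  | cons z D ih =>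
    rw [sD, ih _ fun z hz => h z (List.mem_cons_of_mem _ hz)]
    unfold rst
    have : (C.map fun i => (θ.set z (θ.length + z)).getD i 0) = C.map fun i => θ.getD i 0 := by
      refine List.map_congr_left fun i hi => ?_
      have hz : z ≠ i := fun h' => h z List.mem_cons_self (h' ▸ hi)
      simp only [List.getD_eq_getElem?_getD, List.getElem?_set_ne hz]
    rw [this]

theorem evZ_pD (x w : ℕ) (D θ : List ℕ) (c : List ℤ) :
    evZ (pD D θ c) x * w = evZ c x * (cD x w D θ : ℕ) := by
  induction D generalizing θ c with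
  | nil => rfl
  | cons z D ih =>
    rw [pD, ih, cD, gC_eq, beq_cond, cF_eq]
    split_ifs with h
    · have : evZ (0 :: c) (x : ℤ) = x * evZ c x := by simp [evZ]
      rw [this]
      simp only [Nat.mul_eq]
      push_cast
      ring
    · rfl

theorem evZ_pneg' (c : List ℤ) (x : ℤ) : evZ (pneg c) x = - evZ c x := by
  induction c with
  | nil => simp [pneg, evZ]
  | cons a c ih =>
    simp only [pneg, List.map_cons, evZ] at ih ⊢
    rw [ih]; ring

theorem D_disj (τ : Ty) : ∀ z ∈ τ.D, z ∉ τ.C := by
  intro z hz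
  simp only [Ty.D, List.mem_filter, Bool.not_eq_true', List.contains_eq_mem, decide_eq_false_iff_not] at hz
  exact hz.2

/-- the packed table entry by the recursion -/
theorem packT_gZ (τ : Ty) (x : ℕ) (W : List ℕ) (b b' : List ℕ) :
    packT τ (x : ℤ) (List.map (fun w : ℕ => (w : ℤ)) W) b b' =
      gZ (fun θ => if adjEq (rst τ.C θ) then 0 else
        (cD x (W.getD ((PQ τ.C.length).idxOf (rst τ.C θ)) 0) τ.D θ : ℕ)) τ.E
        (joinL τ.B b' (joinL τ.A b (List.range τ.N))) := by
  have h1 : ∀ t : Terms, t.foldr (fun p acc =>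
      let r := rst τ.C p.2
      if adjEq r then acc else evZ p.1 (x : ℤ) *
        (List.map (fun w : ℕ => (w : ℤ)) W).getD ((PQ τ.C.length).idxOf r) 0 + acc) 0 =
      (t.map fun p => if adjEq (rst τ.C p.2) then 0 else evZ p.1 (x : ℤ) *
        (W.getD ((PQ τ.C.length).idxOf (rst τ.C p.2)) 0 : ℕ)).sum := by
    intro t
    induction t with
    | nil => rfl
    | cons p t ih =>
      rw [List.foldr_cons, List.map_cons, List.sum_cons, ih]
      have e : ∀ i, (List.map (fun w : ℕ => (w : ℤ)) W).getD i 0 = ((W.getD i 0 : ℕ) : ℤ) := by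
        intro i
        simp only [List.getD_eq_getElem?_getD, List.getElem?_map]
        cases W[i]? <;> simp
      simp only [e]
      split_ifs <;> simp
  unfold packT
  rw [h1]
  unfold tab
  simp only
  rw [foldD_map, List.map_flatMap]
  have h2 : ∀ p : List ℤ × List ℕ, ((τ.D.foldl (fun t z => stepD z t) [p]).map
      fun p => if adjEq (rst τ.C p.2) then 0 else evZ p.1 (x : ℤ) *
        (W.getD ((PQ τ.C.length).idxOf (rst τ.C p.2)) 0 : ℕ)) =
      [if adjEq (rst τ.C p.2) then 0 else evZ p.1 (x : ℤ) *
        (cD x (W.getD ((PQ τ.C.length).idxOf (rst τ.C p.2)) 0) τ.D p.2 : ℕ)] := by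
    rintro ⟨c, θ⟩
    rw [foldD_single, List.map_cons, List.map_nil]
    simp only [rst_sD _ _ _ (D_disj τ)]
    split_ifs with h
    · rfl
    · rw [evZ_pD]
  simp only [h2]
  have h3 : ∀ (t : Terms) (f : List ℤ × List ℕ → ℤ), (t.flatMap fun p => [f p]) = t.map f := by
    intro t f
    induction t with
    | nil => rfl
    | cons p t ih => simp [ih]
  rw [h3, sum_foldE]
  · congr 1
    funext θ
    simp [evZ]
  · intro c θ
    simp only [evZ_pneg']
    split_ifs <;> ring

theorem okT_gB (τ : Ty) (b b' : List ℕ) (P : List (List ℕ)) :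
    okT τ.C P (tab τ b b') = gB (fun θ => adjEq (rst τ.C θ) || P.contains (rst τ.C θ)) τ.E
      (joinL τ.B b' (joinL τ.A b (List.range τ.N))) := by
  unfold okT tab
  simp only
  rw [foldD_map, List.all_flatMap, ← all_foldE _ _ [1]]
  congr 1
  funext p
  obtain ⟨c, θ⟩ := p
  rw [foldD_single]
  simp only [List.all_cons, List.all_nil, Bool.and_true, rst_sD _ _ _ (D_disj τ)]

theorem lfB_eq (C : List ℕ) (P : List (List ℕ)) (θ : List ℕ) :
    lfB C P θ = (adjEq (rst C θ) || P.contains (rst C θ)) := by
  rw [lfB, cC_eq, fL_eq]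
  rfl

theorem okAllF_sound {τ : Ty} (h : okAllF τ = true) : okAll τ = true := by
  have : okAll τ = okAllF τ := by
    unfold okAll okAllF
    congr 1
    congr 1
    funext b
    congr 1
    funext b'
    rw [okT_gB, jn, fL_eq]
    congr 1
    funext θ
    rw [lfB_eq]
  rw [this, h]

theorem gN_cast {M : ℕ} (hM : 0 < M) (lf : List ℕ → ℕ) (lz : List ℕ → ℤ) (h1 : ∀ θ, lf θ ≤ M)
    (h2 : ∀ θ, ((lf θ : ℕ) : ZMod M) = ((lz θ : ℤ) : ZMod M)) (E : List (ℕ × ℕ)) (θ : List ℕ) :
    gN M lf E θ ≤ M ∧ ((gN M lf E θ : ℕ) : ZMod M) = ((gZ lz E θ : ℤ) : ZMod M) := by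
  induction E generalizing θ with
  | nil => exact ⟨h1 θ, h2 θ⟩
  | cons e E ih =>
    rw [gN_cons, gZ]
    split_ifs with h
    · exact ⟨Nat.zero_le _, by simp⟩
    · refine ⟨(Nat.mod_lt _ hM).le, ?_⟩
      rw [ZMod.natCast_mod, Nat.cast_add, Nat.cast_sub (ih _).1, (ih _).2, (ih _).2]
      push_cast
      rw [ZMod.natCast_self]
      ring

theorem lfN_eq (M x : ℕ) (W C D : List ℕ) (P : List (List ℕ)) (θ : List ℕ) :
    lfN M x W C D P θ = if adjEq (rst C θ) then 0 else
      (cD x (W.getD (P.idxOf (rst C θ)) 0) D θ) % M := by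
  rw [lfN, cC_eq, fL_eq]
  change (bif adjEq (rst C θ) then 0 else _) = _
  cases adjEq (rst C θ) <;> rfl

/-- the entries of the fast table -/
theorem tpkF_entry {M : ℕ} (hM : 0 < M) (x : ℕ) (τ : Ty) (W : List ℕ) (b b' : List ℕ) :
    (jn τ b b' fun θ => gN M (lfN M x W τ.C τ.D (PQ τ.C.length)) τ.E θ) ≤ M ∧
    (((jn τ b b' fun θ => gN M (lfN M x W τ.C τ.D (PQ τ.C.length)) τ.E θ : ℕ)) : ZMod M) =
      ((packT τ (x : ℤ) (List.map (fun w : ℕ => (w : ℤ)) W) b b' : ℤ) : ZMod M) := by
  rw [jn, fL_eq, packT_gZ]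
  refine gN_cast hM _ _ ?_ ?_ _ _
  · intro θ
    rw [lfN_eq]
    split_ifs
    · exact Nat.zero_le _
    · exact (Nat.mod_lt _ hM).le
  · intro θ
    rw [lfN_eq]
    split_ifs
    · simp
    · rw [ZMod.natCast_mod]
      push_cast
      rfl

/-! ### The size of the table -/

theorem foldE_size (E : List (ℕ × ℕ)) (c : List ℤ) (θ : List ℕ) :
    (E.foldl (fun t e => stepE e t) [(c, θ)]).length ≤ 2 ^ E.length ∧
      ∀ p ∈ E.foldl (fun t e => stepE e t) [(c, θ)], p.1.length = c.length ∧ nrm p.1 = nrm c := by
  induction E generalizing c θ with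
  | nil => simp
  | cons e E ih =>
    rw [List.foldl_cons, stepE_single]
    split_ifs with h
    · rw [foldE_nil]; simp
    · rw [foldE_append]
      obtain ⟨h1, h2⟩ := ih c θ
      obtain ⟨h3, h4⟩ := ih (pneg c) (mrg θ e.1 e.2)
      refine ⟨?_, ?_⟩
      · rw [List.length_append, List.length_cons, pow_succ]
        omega
      · intro p hp
        rcases List.mem_append.1 hp with hp | hp
        · exact h2 p hp
        · obtain ⟨h5, h6⟩ := h4 p hp
          have e1 : (pneg c).length = c.length := by simp [pneg]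
          have e2 : nrm (pneg c) = nrm c := by
            clear * -
            induction c with
            | nil => rfl
            | cons a c ih =>
              simp only [pneg, List.map_cons, nrm, Int.natAbs_neg] at ih ⊢
              rw [ih]
          exact ⟨h5.trans e1, h6.trans e2⟩

theorem pD_size (D : List ℕ) (θ : List ℕ) (c : List ℤ) :
    (pD D θ c).length ≤ c.length + D.length ∧ nrm (pD D θ c) = nrm c := by
  induction D generalizing θ c with
  | nil => simp [pD]
  | cons z D ih =>
    rw [pD]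
    obtain ⟨h1, h2⟩ := ih (θ.set z (θ.length + z)) (if θ.count (θ.getD z 0) = 1 then 0 :: c else c)
    rw [List.length_cons]
    split_ifs at h1 h2 ⊢ with h
    · simp only [List.length_cons] at h1
      refine ⟨by omega, ?_⟩
      rw [h2]
      simp [nrm]
    · exact ⟨by omega, h2⟩

/-- the sizes of the tables -/
theorem okTab_of_size (τ : Ty) (d n : ℕ) (hd : 1 + τ.D.length ≤ d) (hn : 2 ^ τ.E.length ≤ n) :
    okTab τ d n = true := by
  unfold okTab
  rw [List.all_eq_true]
  intro b _
  rw [List.all_eq_true]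
  intro b' _
  have h1 := foldE_size τ.E [1] (joinL τ.B b' (joinL τ.A b (List.range τ.N)))
  have h2 : tab τ b b' = (τ.E.foldl (fun t e => stepE e t)
      [([1], joinL τ.B b' (joinL τ.A b (List.range τ.N)))]).map
      fun p => (pD τ.D p.2 p.1, sD τ.D p.2) := by
    unfold tab
    simp only
    rw [foldD_map]
    generalize τ.E.foldl (fun t e => stepE e t)
      [([1], joinL τ.B b' (joinL τ.A b (List.range τ.N)))] = t
    induction t with
    | nil => rfl
    | cons p t ih =>
      rw [List.flatMap_cons, List.map_cons, ih]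
      obtain ⟨c, θ⟩ := p
      rw [foldD_single]
      rfl
  obtain ⟨h3, h4⟩ := h1
  rw [h2, Bool.and_eq_true]
  constructor
  · rw [List.all_eq_true]
    intro p hp
    obtain ⟨p', hp', rfl⟩ := List.mem_map.1 hp
    have := (pD_size τ.D p'.2 p'.1).1
    have h5 := (h4 p' hp').1
    apply Nat.ble_eq_true_of_le
    simp only [List.length_cons, List.length_nil] at h5
    change (pD τ.D p'.2 p'.1).length ≤ d
    omega
  · apply Nat.ble_eq_true_of_le
    refine le_trans ?_ hn
    refine le_trans ?_ h3
    generalize τ.E.foldl (fun t e => stepE e t)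
      [([1], joinL τ.B b' (joinL τ.A b (List.range τ.N)))] = t at h4 ⊢
    clear h2 h3
    induction t with
    | nil => simp
    | cons p t ih =>
      rw [List.map_cons, List.foldr_cons, List.length_cons]
      have h6 := ih fun p hp => h4 p (List.mem_cons_of_mem _ hp)
      have h7 : nrm (pD τ.D p.2 p.1) = 1 := by
        rw [(pD_size τ.D p.2 p.1).2, (h4 p List.mem_cons_self).2]
        simp [nrm]
      simp only [Nat.add_eq] at h6 ⊢
      rw [h7]
      omega

end Pool.Agent.N467.BL
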