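import Pool.Agent.N467.BL.Level
import Pool.Agent.N467.BL.Fast

/-! The cones are mapped into the larger cones by a checked gluing. -/

set_option autoImplicit false

namespace Pool.Agent.N467.BL

open Finset
open Pool.Agent.TH389.BL (ev evv toP K)

theorem mem5 {n : ℕ} (h2 : 2 ≤ n) (h6 : n ≤ 6) : n ∈ [2, 3, 4, 5, 6] := by
  interval_cases n <;> simp

theorem glue_L {τ : Ty} {ds : List (ℕ × ℕ)} (h : chkOne τ ds = true)
    (hA2 : 2 ≤ τ.s + τ.m) (hA6 : τ.s + τ.m ≤ 6) (hB2 : 2 ≤ τ.s + τ.l) (hB6 : τ.s + τ.l ≤ 6)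
    (hC2 : 2 ≤ τ.C.length) (hC6 : τ.C.length ≤ 6) {q : ℝ} (hq : 4 < q) (b b' : Bool) (X Y : ℕ → ℝ)
    (hX : K q (Gs (τ.s + τ.m)) (wGs (τ.s + τ.m)) b X)
    (hY : K q (Gs (τ.s + τ.l)) (wGs (τ.s + τ.l)) b' Y) :
    K q (Ls τ.C.length) (wLs τ.C.length) (b && b') (gR τ q X Y) := by
  simp only [chkOne, Bool.and_eq_true] at h
  obtain ⟨⟨⟨⟨h1, h2⟩, h3⟩, h4⟩, h5⟩ := h
  have a1 := lvA_ok _ (mem5 hA2 hA6)
  have a2 := lvA_ok _ (mem5 hB2 hB6)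
  have a3 := lvA_ok _ (mem5 hC2 hC6)
  have b1 := lvB_ok _ (mem5 hA2 hA6)
  have b2 := lvB_ok _ (mem5 hB2 hB6)
  have c3 := lvC_ok _ (mem5 hC2 hC6)
  simp only [lvA, Bool.and_eq_true, decide_eq_true_eq] at a1 a2 a3
  simp only [lvB, lvC, decide_eq_true_eq] at b1 b2 c3
  obtain ⟨⟨⟨⟨⟨⟨⟨⟨_, _⟩, _⟩, a14⟩, _⟩, _⟩, a17⟩, a18⟩, _⟩ := a1
  obtain ⟨⟨⟨⟨⟨⟨⟨⟨_, _⟩, _⟩, a24⟩, _⟩, _⟩, a27⟩, a28⟩, _⟩ := a2
  obtain ⟨⟨⟨⟨⟨⟨⟨⟨a31, a32⟩, a33⟩, _⟩, a35⟩, a36⟩, _⟩, a38⟩, a39⟩ := a3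
  have hM0 : 0 < Ms τ.C.length := by
    rw [Nat.eq_of_beq_eq_true a32]
    exact Nat.pow_pos (by norm_num)
  have hlL := Nat.eq_of_beq_eq_true a36
  have hlG := Nat.eq_of_beq_eq_true a27
  have hB : ((Bn : ℕ) : ℤ) = 2 ^ (par τ.C.length).kb := by
    rw [Bn_eq]
    simp [par]
  have hW : (List.map (fun w : ℕ => (w : ℤ)) (Wns τ.C.length)) =
      (List.range 15).map fun i => (2 : ℤ) ^ ((par τ.C.length).kb * ((par τ.C.length).d + 1) * i) := by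
    rw [a33, List.map_map]
    refine List.map_congr_left fun i _ => ?_
    simp only [Function.comp_apply, Nat.pow_eq]
    push_cast
    rfl
  have hW1 : (List.map (fun w : ℕ => (w : ℤ)) (Wns τ.C.length)).getD 1 0 =
      Int.ofNat ((Wns τ.C.length).getD 1 0) := by
    simp only [List.getD_eq_getElem?_getD, List.getElem?_map]
    cases (Wns τ.C.length)[1]? <;> simp
  have hsz : okTab τ (par τ.C.length).dt (par τ.C.length).nt = true := by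
    refine okTab_of_size τ 8 4096 ?_ ?_
    · have := Nat.le_of_ble_eq_true h2
      omega
    · have := Nat.le_of_ble_eq_true h3
      calc 2 ^ τ.E.length ≤ 2 ^ 12 := Nat.pow_le_pow_right (by norm_num) this
        _ = 4096 := by norm_num
  refine chk_sound (par τ.C.length) a31 τ ((Bn : ℕ) : ℤ) Bx (Ms τ.C.length)
    (List.map (fun w : ℕ => (w : ℤ)) (Wns τ.C.length)) hB ?_ (Nat.eq_of_beq_eq_true a32) hW
    (okAllF_sound h1) hsz (Nat.le_of_ble_eq_true a38) ?_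
    (Nat.le_of_ble_eq_true a18) (Nat.le_of_ble_eq_true a28) (Gs (τ.s + τ.m)) (Gs (τ.s + τ.l))
    (Ls τ.C.length) (Lps τ.C.length) (hzs (τ.s + τ.m)) (hzs (τ.s + τ.l)) ds
    (tpkF (Ms τ.C.length) Bn τ (Wns τ.C.length)) ?_ ?_ ?_ a14 a24 a35 b1 b2 ?_
    (wGs (τ.s + τ.m)) (wGs (τ.s + τ.l)) (wLs τ.C.length) ?_ h5 q hq b b' X Y hX hY
  · rw [Bn_eq, Bx_eq]; norm_num
  · have := Nat.le_of_ble_eq_true a39
    omega
  · simp [tpkF]
  · intro t ht b hb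
    rw [tpkF, List.mem_map] at ht
    obtain ⟨b1, _, rfl⟩ := ht
    rw [List.mem_map] at hb
    obtain ⟨b2, _, rfl⟩ := hb
    exact (tpkF_entry hM0 Bn τ (Wns τ.C.length) b1 b2).1
  · intro i hi j hj
    have e : ((tpkF (Ms τ.C.length) Bn τ (Wns τ.C.length)).getD i []).getD j 0 =
        (jn τ ((PQ (τ.s + τ.m)).getD i []) ((PQ (τ.s + τ.l)).getD j []) fun θ =>
          gN (Ms τ.C.length) (lfN (Ms τ.C.length) Bn (Wns τ.C.length) τ.C τ.D (PQ τ.C.length)) τ.E θ) := by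
      simp only [tpkF, List.getD_eq_getElem?_getD, List.getElem?_map, List.getElem?_eq_getElem hi,
        List.getElem?_eq_getElem hj, Option.map_some, Option.getD_some]
    rw [e]
    exact (tpkF_entry hM0 Bn τ (Wns τ.C.length) _ _).2
  · rw [hW1]; exact c3
  · rw [hlL, hlG]; exact h4

end Pool.Agent.N467.BL
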