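import Pool.Agent.N467.BL.Vec
import Pool.Agent.N467.BL.Packed
import Pool.Agent.N467.BL.Fast

/-! The cones for rings of length at most six and the check of one type of gluing. -/

set_option autoImplicit false

namespace Pool.Agent.N467.BL

/-- generators of the cone for rings of length `n` -/
def Gs : ℕ → List (List (List ℤ))
  | 2 => G2 | 3 => G3 | 4 => G4 | 5 => G5 | _ => G6

/-- generators and redundant vectors -/
def Ls : ℕ → List (List (List ℤ))
  | 2 => L2 | 3 => L3 | 4 => L4 | 5 => L5 | _ => L6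

def Lps : ℕ → List ℕ
  | 2 => Lp2 | 3 => Lp3 | 4 => Lp4 | 5 => Lp5 | _ => Lp6

def hzs : ℕ → List (List ℤ)
  | 2 => hz2 | 3 => hz3 | 4 => hz4 | 5 => hz5 | _ => hz6

def Ms : ℕ → ℕ
  | 2 => M2 | 3 => M3 | 4 => M4 | 5 => M5 | _ => M6

def Wns : ℕ → List ℕ
  | 2 => Wn2 | 3 => Wn3 | 4 => Wn4 | 5 => Wn5 | _ => Wn6

/-- number of good generators -/
def wGs : ℕ → ℕ
  | 2 => 1 | 3 => 1 | 4 => 2 | 5 => 6 | _ => 26

def nGs : ℕ → ℕ
  | 2 => 1 | 3 => 1 | 4 => 4 | 5 => 11 | _ => 46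

def wLs : ℕ → ℕ
  | 2 => 4 | 3 => 8 | 4 => 16 | 5 => 32 | _ => 134

def nLs : ℕ → ℕ
  | 2 => 4 | 3 => 8 | 4 => 18 | 5 => 37 | _ => 154

/-- number of coefficients in the certificates -/
def dcs : ℕ → ℕ
  | 2 => 12 | 3 => 11 | 4 => 11 | 5 => 10 | _ => 9

/-- number of terms in the certificates -/
def mcs : ℕ → ℕ
  | 2 => 1 | 3 => 1 | 4 => 4 | 5 => 11 | _ => 37

/-- shape of the certificates of the pairs of generators -/
def chkS (τ : Ty) (ds : List (ℕ × ℕ)) : Bool :=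
  okTy (mcs τ.C.length) (nLs τ.C.length) (dcs τ.C.length) (wLs τ.C.length) (wGs (τ.s + τ.m)) (wGs (τ.s + τ.l))
    (nGs (τ.s + τ.l)) ds

/-- values of the certificates of the pairs of generators -/
def chkV (τ : Ty) (ds : List (ℕ × ℕ)) : Bool :=
  chkTy (Ms τ.C.length) Bx (tpkF (Ms τ.C.length) Bn τ (Wns τ.C.length)) (hzs (τ.s + τ.l))
    (Lps τ.C.length) (hzs (τ.s + τ.m)) ds

/-- all checks of a type of gluing, with the certificates of the pairs of generators -/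
def chkOne (τ : Ty) (ds : List (ℕ × ℕ)) : Bool :=
  okAllF τ && Nat.ble (Nat.succ τ.D.length) 8 && Nat.ble τ.E.length 12 && chkS τ ds && chkV τ ds

end Pool.Agent.N467.BL
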