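import Pool.Agent.N467.BL.Stage

/-! Splitting the check of the redundant vectors. -/

set_option autoImplicit false

namespace Pool.Agent.N467.BL

open Pool.Agent.TH389.BL

theorem stAll_append (u v : List ℤ) (G L : List (List (List ℤ))) (wG wL : ℕ) (rk : List ℕ) (i : ℕ)
    (ys ys' : List (List (List ℤ))) (ds ds' : List (Bool × ℕ × List ℕ × List (ℕ × List ℕ)))
    (h : stAll u v G L wG wL rk i ys ds = true)
    (h' : stAll u v G L wG wL rk (i + ys.length) ys' ds' = true) :
    stAll u v G L wG wL rk i (ys ++ ys') (ds ++ ds') = true := by
  induction ys generalizing i ds with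
  | nil =>
    cases ds with
    | nil => simpa using h'
    | cons d ds => simp [stAll] at h
  | cons y ys ih =>
    cases ds with
    | nil => simp [stAll] at h
    | cons d ds =>
      simp only [stAll, Bool.and_eq_true] at h
      simp only [List.cons_append, stAll, Bool.and_eq_true]
      refine ⟨h.1, ih _ _ h.2 ?_⟩
      rw [List.length_cons] at h'
      rw [show i + 1 + ys.length = i + (ys.length + 1) by ring]
      exact h'

/-- the check of the vectors from `k` on follows from the check of `n` vectors and the rest -/
theorem stAll_step (u v : List ℤ) (G L : List (List (List ℤ))) (wG wL : ℕ) (rk : List ℕ)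
    (D : List (Bool × ℕ × List ℕ × List (ℕ × List ℕ))) (k n : ℕ) (hk : k + n ≤ L.length)
    (h : stAll u v G L wG wL rk k ((L.drop k).take n) ((D.drop k).take n) = true)
    (h' : stAll u v G L wG wL rk (k + n) (L.drop (k + n)) (D.drop (k + n)) = true) :
    stAll u v G L wG wL rk k (L.drop k) (D.drop k) = true := by
  have e1 : L.drop k = (L.drop k).take n ++ L.drop (k + n) := by
    rw [← List.drop_drop, List.take_append_drop]
  have e2 : D.drop k = (D.drop k).take n ++ D.drop (k + n) := by
    rw [← List.drop_drop, List.take_append_drop]
  rw [e1, e2]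
  apply stAll_append _ _ _ _ _ _ _ _ _ _ _ _ h
  have : ((L.drop k).take n).length = n := by
    rw [List.length_take, List.length_drop]; omega
  rw [this]
  exact h'

end Pool.Agent.N467.BL
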