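import Pool.Agent.N467.BL.StageData
import Pool.Agent.N467.BL.StageS

/-! Check of the certificates for the redundant vectors (ring length six, part 0). -/

set_option autoImplicit false
set_option maxRecDepth 1000000

namespace Pool.Agent.N467.BL

theorem st6_0 : stAll [-113, 25] [5, -1] G6 L6 26 134 rk6 0 ((L6.drop 0).take 10)
    ((sd6.drop 0).take 10) = true := by decide +kernel

theorem st6_10 : stAll [-113, 25] [5, -1] G6 L6 26 134 rk6 10 ((L6.drop 10).take 10)
    ((sd6.drop 10).take 10) = true := by decide +kernel

theorem st6_20 : stAll [-113, 25] [5, -1] G6 L6 26 134 rk6 20 ((L6.drop 20).take 10)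
    ((sd6.drop 20).take 10) = true := by decide +kernel

theorem st6_30 : stAll [-113, 25] [5, -1] G6 L6 26 134 rk6 30 ((L6.drop 30).take 10)
    ((sd6.drop 30).take 10) = true := by decide +kernel

end Pool.Agent.N467.BL
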