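import Pool.Agent.N467.BL.StageData
import Pool.Agent.N467.BL.StageS

/-! Check of the certificates for the redundant vectors (ring length six, part 1). -/

set_option autoImplicit false
set_option maxRecDepth 1000000

namespace Pool.Agent.N467.BL

theorem st6_40 : stAll [-113, 25] [5, -1] G6 L6 26 134 rk6 40 ((L6.drop 40).take 10)
    ((sd6.drop 40).take 10) = true := by decide +kernel

theorem st6_50 : stAll [-113, 25] [5, -1] G6 L6 26 134 rk6 50 ((L6.drop 50).take 10)
    ((sd6.drop 50).take 10) = true := by decide +kernel

theorem st6_60 : stAll [-113, 25] [5, -1] G6 L6 26 134 rk6 60 ((L6.drop 60).take 10)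
    ((sd6.drop 60).take 10) = true := by decide +kernel

theorem st6_70 : stAll [-113, 25] [5, -1] G6 L6 26 134 rk6 70 ((L6.drop 70).take 10)
    ((sd6.drop 70).take 10) = true := by decide +kernel

end Pool.Agent.N467.BL
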