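import Pool.Agent.N467.BL.StageData
import Pool.Agent.N467.BL.StageS

/-! Check of the certificates for the redundant vectors (ring length six, part 3). -/

set_option autoImplicit false
set_option maxRecDepth 1000000

namespace Pool.Agent.N467.BL

theorem st6_120 : stAll [-113, 25] [5, -1] G6 L6 26 134 rk6 120 ((L6.drop 120).take 10)
    ((sd6.drop 120).take 10) = true := by decide +kernel

theorem st6_130 : stAll [-113, 25] [5, -1] G6 L6 26 134 rk6 130 ((L6.drop 130).take 10)
    ((sd6.drop 130).take 10) = true := by decide +kernel

theorem st6_140 : stAll [-113, 25] [5, -1] G6 L6 26 134 rk6 140 ((L6.drop 140).take 10)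
    ((sd6.drop 140).take 10) = true := by decide +kernel

theorem st6_150 : stAll [-113, 25] [5, -1] G6 L6 26 134 rk6 150 ((L6.drop 150).take 4)
    ((sd6.drop 150).take 4) = true := by decide +kernel

end Pool.Agent.N467.BL
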