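import Pool.Agent.N467.BL.StageA
import Pool.Agent.N467.BL.StageB0
import Pool.Agent.N467.BL.StageB1
import Pool.Agent.N467.BL.StageB2
import Pool.Agent.N467.BL.StageB3
import Pool.Agent.N467.BL.Cfg

/-! The redundant vectors belong to the cones of the generators. -/

set_option autoImplicit false
set_option maxRecDepth 1000000

namespace Pool.Agent.N467.BL

open Pool.Agent.TH389.BL

theorem lenL2 : L2.length = 4 := by decide +kernel

theorem lenS2 : sd2.length = 4 := by decide +kernel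

theorem st2 : stAll [-113, 25] [5, -1] G2 L2 1 4 rk2 0 L2 sd2 = true := by
  have h4 : stAll [-113, 25] [5, -1] G2 L2 1 4 rk2 4 (L2.drop 4) (sd2.drop 4) = true := by
    rw [List.drop_eq_nil_of_le (by rw [lenL2]), List.drop_eq_nil_of_le (by rw [lenS2])]
    rfl
  have h0 := stAll_step [-113, 25] [5, -1] G2 L2 1 4 rk2 sd2 0 4 (by have := lenL2; omega) st2_0 h4
  rwa [List.drop_zero, List.drop_zero] at h0

theorem lenL3 : L3.length = 8 := by decide +kernel

theorem lenS3 : sd3.length = 8 := by decide +kernel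

theorem st3 : stAll [-113, 25] [5, -1] G3 L3 1 8 rk3 0 L3 sd3 = true := by
  have h8 : stAll [-113, 25] [5, -1] G3 L3 1 8 rk3 8 (L3.drop 8) (sd3.drop 8) = true := by
    rw [List.drop_eq_nil_of_le (by rw [lenL3]), List.drop_eq_nil_of_le (by rw [lenS3])]
    rfl
  have h0 := stAll_step [-113, 25] [5, -1] G3 L3 1 8 rk3 sd3 0 8 (by have := lenL3; omega) st3_0 h8
  rwa [List.drop_zero, List.drop_zero] at h0

theorem lenL4 : L4.length = 18 := by decide +kernel

theorem lenS4 : sd4.length = 18 := by decide +kernel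

theorem st4 : stAll [-113, 25] [5, -1] G4 L4 2 16 rk4 0 L4 sd4 = true := by
  have h18 : stAll [-113, 25] [5, -1] G4 L4 2 16 rk4 18 (L4.drop 18) (sd4.drop 18) = true := by
    rw [List.drop_eq_nil_of_le (by rw [lenL4]), List.drop_eq_nil_of_le (by rw [lenS4])]
    rfl
  have h10 := stAll_step [-113, 25] [5, -1] G4 L4 2 16 rk4 sd4 10 8 (by have := lenL4; omega) st4_10 h18
  have h0 := stAll_step [-113, 25] [5, -1] G4 L4 2 16 rk4 sd4 0 10 (by have := lenL4; omega) st4_0 h10
  rwa [List.drop_zero, List.drop_zero] at h0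

theorem lenL5 : L5.length = 37 := by decide +kernel

theorem lenS5 : sd5.length = 37 := by decide +kernel

theorem st5 : stAll [-113, 25] [5, -1] G5 L5 6 32 rk5 0 L5 sd5 = true := by
  have h37 : stAll [-113, 25] [5, -1] G5 L5 6 32 rk5 37 (L5.drop 37) (sd5.drop 37) = true := by
    rw [List.drop_eq_nil_of_le (by rw [lenL5]), List.drop_eq_nil_of_le (by rw [lenS5])]
    rfl
  have h30 := stAll_step [-113, 25] [5, -1] G5 L5 6 32 rk5 sd5 30 7 (by have := lenL5; omega) st5_30 h37
  have h20 := stAll_step [-113, 25] [5, -1] G5 L5 6 32 rk5 sd5 20 10 (by have := lenL5; omega) st5_20 h30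
  have h10 := stAll_step [-113, 25] [5, -1] G5 L5 6 32 rk5 sd5 10 10 (by have := lenL5; omega) st5_10 h20
  have h0 := stAll_step [-113, 25] [5, -1] G5 L5 6 32 rk5 sd5 0 10 (by have := lenL5; omega) st5_0 h10
  rwa [List.drop_zero, List.drop_zero] at h0

theorem lenL6 : L6.length = 154 := by decide +kernel

theorem lenS6 : sd6.length = 154 := by decide +kernel

theorem st6 : stAll [-113, 25] [5, -1] G6 L6 26 134 rk6 0 L6 sd6 = true := by
  have h154 : stAll [-113, 25] [5, -1] G6 L6 26 134 rk6 154 (L6.drop 154) (sd6.drop 154) = true := by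
    rw [List.drop_eq_nil_of_le (by rw [lenL6]), List.drop_eq_nil_of_le (by rw [lenS6])]
    rfl
  have h150 := stAll_step [-113, 25] [5, -1] G6 L6 26 134 rk6 sd6 150 4 (by have := lenL6; omega) st6_150 h154
  have h140 := stAll_step [-113, 25] [5, -1] G6 L6 26 134 rk6 sd6 140 10 (by have := lenL6; omega) st6_140 h150
  have h130 := stAll_step [-113, 25] [5, -1] G6 L6 26 134 rk6 sd6 130 10 (by have := lenL6; omega) st6_130 h140
  have h120 := stAll_step [-113, 25] [5, -1] G6 L6 26 134 rk6 sd6 120 10 (by have := lenL6; omega) st6_120 h130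
  have h110 := stAll_step [-113, 25] [5, -1] G6 L6 26 134 rk6 sd6 110 10 (by have := lenL6; omega) st6_110 h120
  have h100 := stAll_step [-113, 25] [5, -1] G6 L6 26 134 rk6 sd6 100 10 (by have := lenL6; omega) st6_100 h110
  have h90 := stAll_step [-113, 25] [5, -1] G6 L6 26 134 rk6 sd6 90 10 (by have := lenL6; omega) st6_90 h100
  have h80 := stAll_step [-113, 25] [5, -1] G6 L6 26 134 rk6 sd6 80 10 (by have := lenL6; omega) st6_80 h90
  have h70 := stAll_step [-113, 25] [5, -1] G6 L6 26 134 rk6 sd6 70 10 (by have := lenL6; omega) st6_70 h80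
  have h60 := stAll_step [-113, 25] [5, -1] G6 L6 26 134 rk6 sd6 60 10 (by have := lenL6; omega) st6_60 h70
  have h50 := stAll_step [-113, 25] [5, -1] G6 L6 26 134 rk6 sd6 50 10 (by have := lenL6; omega) st6_50 h60
  have h40 := stAll_step [-113, 25] [5, -1] G6 L6 26 134 rk6 sd6 40 10 (by have := lenL6; omega) st6_40 h50
  have h30 := stAll_step [-113, 25] [5, -1] G6 L6 26 134 rk6 sd6 30 10 (by have := lenL6; omega) st6_30 h40
  have h20 := stAll_step [-113, 25] [5, -1] G6 L6 26 134 rk6 sd6 20 10 (by have := lenL6; omega) st6_20 h30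
  have h10 := stAll_step [-113, 25] [5, -1] G6 L6 26 134 rk6 sd6 10 10 (by have := lenL6; omega) st6_10 h20
  have h0 := stAll_step [-113, 25] [5, -1] G6 L6 26 134 rk6 sd6 0 10 (by have := lenL6; omega) st6_0 h10
  rwa [List.drop_zero, List.drop_zero] at h0

theorem uu_pos {q : ℝ} (h : 113 / 25 < q) : 0 < ev [-113, 25] q := by
  simp only [ev]
  push_cast
  linarith

theorem vv_pos {q : ℝ} (h : q < 5) : 0 < ev [5, -1] q := by
  simp only [ev]
  push_cast
  linarith

/-- the redundant vectors -/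
theorem stage {n : ℕ} (h2 : 2 ≤ n) (h6 : n ≤ 6) {q : ℝ} (hq1 : 113 / 25 < q) (hq2 : q < 5)
    {b : Bool} {x : ℕ → ℝ} (hx : K q (Ls n) (wLs n) b x) : K q (Gs n) (wGs n) b x := by
  have hq3 : 3 < q := by linarith
  interval_cases n
  · exact st_sound (uu_pos hq1) (vv_pos hq2) hq3 G2 L2 1 4 rk2 sd2 st2 hx
  · exact st_sound (uu_pos hq1) (vv_pos hq2) hq3 G3 L3 1 8 rk3 sd3 st3 hx
  · exact st_sound (uu_pos hq1) (vv_pos hq2) hq3 G4 L4 2 16 rk4 sd4 st4 hx
  · exact st_sound (uu_pos hq1) (vv_pos hq2) hq3 G5 L5 6 32 rk5 sd5 st5 hx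
  · exact st_sound (uu_pos hq1) (vv_pos hq2) hq3 G6 L6 26 134 rk6 sd6 st6 hx

end Pool.Agent.N467.BL
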