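import Pool.Agent.N467.BL.Part0
import Pool.Agent.N467.BL.Part1
import Pool.Agent.N467.BL.Part2
import Pool.Agent.N467.BL.Part3
import Pool.Agent.N467.BL.Part4
import Pool.Agent.N467.BL.Part5
import Pool.Agent.N467.BL.Part6
import Pool.Agent.N467.BL.Part7
import Pool.Agent.N467.BL.GlueL
import Pool.Agent.N467.BL.StageOk
import Pool.Agent.N467.BL.Face

/-! The Birkhoff-Lewis inequality for graphs which are glued from polygons with perimeters at most
six. -/

set_option autoImplicit false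
set_option maxRecDepth 1000000

namespace Pool.Agent.N467.BL

open Finset Polynomial
open Pool.Agent.TH389.BL (ev evv toP K)

/-- the types of gluing with their certificates -/
def parts : List (Ty × List (ℕ × ℕ)) :=
  part0 ++ part1 ++ part2 ++ part3 ++ part4 ++ part5 ++ part6 ++ part7

theorem parts_ok : ∀ e ∈ parts, chkOne e.1 e.2 = true := by
  intro e he
  simp only [parts, List.mem_append] at he
  rcases he with ((((((h | h) | h) | h) | h) | h) | h) | h
  · exact part0_ok e h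
  · exact part1_ok e h
  · exact part2_ok e h
  · exact part3_ok e h
  · exact part4_ok e h
  · exact part5_ok e h
  · exact part6_ok e h
  · exact part7_ok e h

def eqTy (σ τ : Ty) : Bool :=
  Nat.beq σ.s τ.s && Nat.beq σ.m τ.m && Nat.beq σ.l τ.l && (σ.e == τ.e) && (σ.f == τ.f)

theorem eqTy_eq {σ τ : Ty} (h : eqTy σ τ = true) : σ = τ := by
  simp only [eqTy, Bool.and_eq_true, beq_iff_eq] at h
  obtain ⟨⟨⟨⟨h1, h2⟩, h3⟩, h4⟩, h5⟩ := h
  have e1 := Nat.eq_of_beq_eq_true h1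
  have e2 := Nat.eq_of_beq_eq_true h2
  have e3 := Nat.eq_of_beq_eq_true h3
  cases σ; cases τ
  simp_all

/-- all types are treated -/
theorem tys_parts : ((tys 6).all fun τ => parts.any fun e => eqTy e.1 τ) = true := by
  decide +kernel

theorem tys_bounds : ((tys 6).all fun τ => Nat.ble 2 (τ.s + τ.m) && Nat.ble (τ.s + τ.m) 6 &&
    (Nat.ble 2 (τ.s + τ.l) && Nat.ble (τ.s + τ.l) 6) &&
    (Nat.ble 2 τ.C.length && Nat.ble τ.C.length 6)) = true := by
  decide +kernel

theorem tys_chk {τ : Ty} (h : τ ∈ tys 6) : ∃ ds, chkOne τ ds = true := by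
  have h1 := List.all_eq_true.1 tys_parts τ h
  obtain ⟨e, he, h2⟩ := List.any_eq_true.1 h1
  exact ⟨e.2, by rw [← eqTy_eq h2]; exact parts_ok e he⟩

theorem hok : ∀ τ ∈ tys 6, okAll τ = true := by
  intro τ h
  obtain ⟨ds, h1⟩ := tys_chk h
  simp only [chkOne, Bool.and_eq_true] at h1
  exact okAllF_sound h1.1.1.1.1

theorem hglue {q : ℝ} (hq1 : 113 / 25 < q) (hq2 : q < 5) : ∀ τ ∈ tys 6, ∀ b b' x y,
    K q (Gs (τ.s + τ.m)) (wGs (τ.s + τ.m)) b x → K q (Gs (τ.s + τ.l)) (wGs (τ.s + τ.l)) b' y →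
      K q (Gs τ.C.length) (wGs τ.C.length) (b && b') (gR τ q x y) := by
  intro τ h b b' x y hx hy
  obtain ⟨ds, h1⟩ := tys_chk h
  have h2 := List.all_eq_true.1 tys_bounds τ h
  simp only [Bool.and_eq_true] at h2
  obtain ⟨⟨⟨a1, a2⟩, ⟨a3, a4⟩⟩, ⟨a5, a6⟩⟩ := h2
  have c5 := Nat.le_of_ble_eq_true a5
  have c6 := Nat.le_of_ble_eq_true a6
  exact stage c5 c6 hq1 hq2 (glue_L h1 (Nat.le_of_ble_eq_true a1) (Nat.le_of_ble_eq_true a2)
    (Nat.le_of_ble_eq_true a3) (Nat.le_of_ble_eq_true a4) c5 c6 (by linarith) b b' x y hx hy)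

theorem Gs_length {n : ℕ} (h2 : 2 ≤ n) (h6 : n ≤ 6) : ∀ g ∈ Gs n, g.length = (PQ n).length := by
  have h := lvA_ok n (mem5 h2 h6)
  simp only [lvA, Bool.and_eq_true] at h
  exact Gs_len h.1.1.1.1.1.2

theorem sR_big {n : ℕ} (h2 : 2 ≤ n) (h6 : n ≤ 6) : ∀ i, (PQ n).length ≤ i → (PQ n).length ≤ sR n i := by
  intro i hi
  have h1 : (PQ n).getD i [] = [] := List.getD_eq_default _ _ hi
  unfold sR
  rw [h1]
  interval_cases n <;> decide

theorem sM_big {n : ℕ} (h2 : 2 ≤ n) (h6 : n ≤ 6) : ∀ i, (PQ n).length ≤ i → (PQ n).length ≤ sM n i := by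
  intro i hi
  have h1 : (PQ n).getD i [] = [] := List.getD_eq_default _ _ hi
  unfold sM
  rw [h1]
  interval_cases n <;> decide

/-- **The Birkhoff-Lewis inequality** for the graphs with a disc decomposition of width six. -/
theorem disc6_pos {V : Type} [Finite V] {G : SimpleGraph V} {r : List V} (h : Disc 6 G Set.univ r)
    (p : ℝ[X]) (hp : ∀ k : ℕ, p.eval (k : ℝ) = (Nat.card (G.Coloring (Fin k)) : ℝ))
    {q : ℝ} (hq1 : 113 / 25 < q) (hq2 : q < 5) : 0 < p.eval q := by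
  have hq : 4 < q := by linarith
  refine disc_pos (Gs := Gs) (ws := wGs) hok (fun n h2 h6 => face_K h2 h6 hq) ?_ ?_
    (hglue hq1 hq2) (fun n h2 h6 x hx => close_pos h2 h6 hq x hx) h p hp
  · intro n h2 h6 b x hx
    exact perm_K (Gs_length h2 h6) (sR n) (ros n) (sR_big h2 h6) (okR_all n (mem5 h2 h6)) hx
  · intro n h2 h6 b x hx
    exact perm_K (Gs_length h2 h6) (sM n) (mis n) (sM_big h2 h6) (okM_all n (mem5 h2 h6)) hx

end Pool.Agent.N467.BL
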