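import Pool.Agent.N467.BL.RepDefs
import Pool.Agent.TH389.BL.Cone

/-! Gluing of two real vectors (definition from StmChk.lean). -/

set_option autoImplicit false

namespace Pool.Agent.N467.BL

open Finset
open Pool.Agent.TH389.BL (ev evv toP K)

/-- gluing of two real vectors -/
noncomputable def gR (τ : Ty) (q : ℝ) (x y : ℕ → ℝ) : ℕ → ℝ := fun c =>
  ∑ i ∈ range (PQ (τ.s + τ.m)).length, ∑ j ∈ range (PQ (τ.s + τ.l)).length,
    ev (coefT τ.C (tab τ ((PQ (τ.s + τ.m)).getD i []) ((PQ (τ.s + τ.l)).getD j []))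
      ((PQ τ.C.length).getD c [])) q * x i * y j

end Pool.Agent.N467.BL
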