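import Pool.Agent.N467.BL.ChkA
import Pool.Agent.N467.BL.GR

/-! Soundness of the packed checks (subtask BLC/6, helper434). -/

set_option autoImplicit false

namespace Pool.Agent.N467.BL

open Finset
open Pool.Agent.TH389.BL (ev evv toP K)

/-- sizes -/
structure Par where
  /-- `B = 2 ^ kb` -/
  kb : ℕ
  /-- `W = B ^ (d + 1)` -/
  d : ℕ
  /-- number of coefficients and norm of the generators -/
  dg : ℕ
  ng : ℕ
  /-- number of coefficients and norm of the vectors in the list `L` -/
  dl : ℕ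
  nl : ℕ
  /-- number of coefficients and norm of the tables -/
  dt : ℕ
  nt : ℕ
  /-- number of coefficients and number of the terms of the certificates -/
  dc : ℕ
  mc : ℕ

/-- the sizes fit -/
def okPar (p : Par) : Bool :=
  Nat.blt (15 * 15 * p.nt * p.ng * p.ng + p.mc * (65536 * p.dc * 5 ^ p.dc) * p.nl) (2 ^ p.kb) &&
    Nat.ble (p.dt + p.dg + p.dg) p.d && Nat.ble (p.dc + p.dl) p.d

namespace ChkA

open Polynomial

/-- the polynomial of a certificate -/
noncomputable def cP (L : List (List (List ℤ))) (k : ℕ) (c : List (ℕ × List ℕ)) : ℤ[X] :=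
  (c.map fun e => (toN e.2).comp (X - C 4) * toP ((L.getD e.1 []).getD k [])).sum

/-- the polynomial of the pair -/
noncomputable def gP (τ : Ty) (g h : List (List ℤ)) (k : ℕ) : ℤ[X] :=
  ∑ i ∈ range (PQ (τ.s + τ.m)).length, ∑ j ∈ range (PQ (τ.s + τ.l)).length,
    toP (coefT τ.C (tab τ ((PQ (τ.s + τ.m)).getD i []) ((PQ (τ.s + τ.l)).getD j []))
      ((PQ τ.C.length).getD k [])) * toP (g.getD i []) * toP (h.getD j [])

theorem okVec_spec {k d n : ℕ} {v : List (List ℤ)} (h : okVec k d n v = true) :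
    v.length = k ∧ ∀ i, (v.getD i []).length ≤ d ∧ nrm (v.getD i []) ≤ n := by
  simp only [okVec, Bool.and_eq_true, List.all_eq_true] at h
  obtain ⟨h1, h2⟩ := h
  refine ⟨Nat.eq_of_beq_eq_true h1, fun i => ?_⟩
  by_cases hi : i < v.length
  · rw [List.getD_eq_getElem _ _ hi]
    have := h2 _ (List.getElem_mem hi)
    exact ⟨Nat.le_of_ble_eq_true this.1, Nat.le_of_ble_eq_true this.2⟩
  · rw [List.getD_eq_default _ _ (by omega)]
    simp [nrm]

theorem cP_nP (L : List (List (List ℤ))) (k dc nl : ℕ)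
    (hL : ∀ i k, nrm ((L.getD i []).getD k []) ≤ nl) (c : List (ℕ × List ℕ))
    (hc : ∀ e ∈ c, e.2.length ≤ dc ∧ ∀ a ∈ e.2, a < 65536) :
    nP (cP L k c) ≤ c.length * (65536 * dc * 5 ^ dc) * nl := by
  induction c with
  | nil => simp [cP, nP_zero]
  | cons e c ih =>
    have ih' := ih fun e he => hc e (List.mem_cons_of_mem _ he)
    obtain ⟨h1, h2⟩ := hc e List.mem_cons_self
    have e1 : cP L k (e :: c) = (toN e.2).comp (X - C 4) * toP ((L.getD e.1 []).getD k []) +
        cP L k c := by simp [cP]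
    rw [e1]
    refine (nP_add_le _ _).trans ?_
    have h3 := nP_comp4 e.2 h2
    have h4 : 65536 * e.2.length * 5 ^ e.2.length ≤ 65536 * dc * 5 ^ dc :=
      Nat.mul_le_mul (Nat.mul_le_mul_left _ h1) (Nat.pow_le_pow_right (by norm_num) h1)
    have h5 := (nP_toP_le ((L.getD e.1 []).getD k [])).trans (hL e.1 k)
    have h6 := (nP_mul_le ((toN e.2).comp (X - C 4)) (toP ((L.getD e.1 []).getD k []))).trans
      (Nat.mul_le_mul (h3.trans h4) h5)
    rw [List.length_cons]
    calc _ ≤ 65536 * dc * 5 ^ dc * nl + c.length * (65536 * dc * 5 ^ dc) * nl :=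
          Nat.add_le_add h6 ih'
      _ = (c.length + 1) * (65536 * dc * 5 ^ dc) * nl := by ring

theorem cP_deg (L : List (List (List ℤ))) (k dc dl : ℕ)
    (hL : ∀ i k, ((L.getD i []).getD k []).length ≤ dl) (c : List (ℕ × List ℕ))
    (hc : ∀ e ∈ c, e.2.length ≤ dc) : (cP L k c).natDegree ≤ dc + dl := by
  induction c with
  | nil => simp [cP]
  | cons e c ih =>
    have ih' := ih fun e he => hc e (List.mem_cons_of_mem _ he)
    have h1 := hc e List.mem_cons_self
    have e1 : cP L k (e :: c) = (toN e.2).comp (X - C 4) * toP ((L.getD e.1 []).getD k []) +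
        cP L k c := by simp [cP]
    rw [e1]
    refine (natDegree_add_le _ _).trans (max_le ?_ ih')
    refine natDegree_mul_le.trans (Nat.add_le_add ?_ ?_)
    · exact (natDegree_comp4 e.2).trans h1
    · exact (natDegree_toP_le _).trans (hL e.1 k)

theorem gP_nP (τ : Ty) (g h : List (List ℤ)) (k nt ng : ℕ)
    (hA : (PQ (τ.s + τ.m)).length ≤ 15) (hB' : (PQ (τ.s + τ.l)).length ≤ 15)
    (ht : ∀ i < (PQ (τ.s + τ.m)).length, ∀ j < (PQ (τ.s + τ.l)).length,
      (tab τ ((PQ (τ.s + τ.m)).getD i []) ((PQ (τ.s + τ.l)).getD j [])).foldr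
        (fun p acc => Nat.add (nrm p.1) acc) 0 ≤ nt)
    (hg : ∀ i, nrm (g.getD i []) ≤ ng) (hh : ∀ i, nrm (h.getD i []) ≤ ng) :
    nP (gP τ g h k) ≤ 15 * 15 * nt * ng * ng := by
  have hterm : ∀ i ∈ range (PQ (τ.s + τ.m)).length, ∀ j ∈ range (PQ (τ.s + τ.l)).length,
      nP (toP (coefT τ.C (tab τ ((PQ (τ.s + τ.m)).getD i []) ((PQ (τ.s + τ.l)).getD j []))
      ((PQ τ.C.length).getD k [])) * toP (g.getD i []) * toP (h.getD j [])) ≤ nt * ng * ng := by
    intro i hi j hj
    refine (nP_mul_le _ _).trans (Nat.mul_le_mul ((nP_mul_le _ _).trans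
      (Nat.mul_le_mul ?_ ?_)) ?_)
    · exact (nP_coefT_le _ _ _).trans (ht i (mem_range.1 hi) j (mem_range.1 hj))
    · exact (nP_toP_le _).trans (hg i)
    · exact (nP_toP_le _).trans (hh j)
  unfold gP
  refine (nP_sum_le _ _).trans ?_
  calc _ ≤ ∑ i ∈ range (PQ (τ.s + τ.m)).length, 15 * (nt * ng * ng) := by
        refine sum_le_sum fun i hi => (nP_sum_le _ _).trans ?_
        refine (sum_le_sum fun j hj => hterm i hi j hj).trans ?_
        rw [sum_const, card_range, smul_eq_mul]
        exact Nat.mul_le_mul_right _ hB'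
    _ ≤ 15 * (15 * (nt * ng * ng)) := by
        rw [sum_const, card_range, smul_eq_mul]
        exact Nat.mul_le_mul_right _ hA
    _ = 15 * 15 * nt * ng * ng := by ring

theorem gP_deg (τ : Ty) (g h : List (List ℤ)) (k dt dg : ℕ)
    (ht : ∀ i < (PQ (τ.s + τ.m)).length, ∀ j < (PQ (τ.s + τ.l)).length,
      ∀ p ∈ tab τ ((PQ (τ.s + τ.m)).getD i []) ((PQ (τ.s + τ.l)).getD j []), p.1.length ≤ dt)
    (hg : ∀ i, (g.getD i []).length ≤ dg) (hh : ∀ i, (h.getD i []).length ≤ dg) :
    (gP τ g h k).natDegree ≤ dt + dg + dg := by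
  unfold gP
  refine natDegree_sum_le_of_forall_le _ _ fun i hi => ?_
  refine natDegree_sum_le_of_forall_le _ _ fun j hj => ?_
  refine natDegree_mul_le.trans (Nat.add_le_add (natDegree_mul_le.trans (Nat.add_le_add ?_ ?_)) ?_)
  · exact natDegree_coefT_le _ _ _ _ (ht i (mem_range.1 hi) j (mem_range.1 hj))
  · exact (natDegree_toP_le _).trans (hg i)
  · exact (natDegree_toP_le _).trans (hh j)

theorem cP_eval (L : List (List (List ℤ))) (k x : ℕ) (B : ℤ) (hx : (x : ℤ) = B - 4)
    (c : List (ℕ × List ℕ)) : (cP L k c).eval B =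
      (c.map fun e => (valN x e.2 : ℤ) * evZ ((L.getD e.1 []).getD k []) B).sum := by
  induction c with
  | nil => simp [cP]
  | cons e c ih =>
    have e1 : cP L k (e :: c) = (toN e.2).comp (X - C 4) * toP ((L.getD e.1 []).getD k []) +
        cP L k c := by simp [cP]
    rw [e1, eval_add, eval_mul, eval_comp, eval_sub, eval_X, eval_C, ← hx, eval_toN, eval_toP, ih,
      List.map_cons, List.sum_cons]

theorem gP_eval (τ : Ty) (g h : List (List ℤ)) (k : ℕ) (B : ℤ) : (gP τ g h k).eval B =
    ∑ i ∈ range (PQ (τ.s + τ.m)).length, ∑ j ∈ range (PQ (τ.s + τ.l)).length,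
    evZ (coefT τ.C (tab τ ((PQ (τ.s + τ.m)).getD i []) ((PQ (τ.s + τ.l)).getD j []))
      ((PQ τ.C.length).getD k [])) B * evZ (g.getD i []) B * evZ (h.getD j []) B := by
  unfold gP
  rw [eval_finsetSum]
  refine sum_congr rfl fun i _ => ?_
  rw [eval_finsetSum]
  refine sum_congr rfl fun j _ => ?_
  rw [eval_mul, eval_mul, eval_toP, eval_toP, eval_toP]

theorem list_sum_swap (n : ℕ) (W : ℤ) (v : ℕ × List ℕ → ℤ) (f : ℕ × List ℕ → ℕ → ℤ)
    (c : List (ℕ × List ℕ)) : ∑ k ∈ range n, (c.map fun e => v e * f e k).sum * W ^ k =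
      (c.map fun e => v e * ∑ k ∈ range n, f e k * W ^ k).sum := by
  induction c with
  | nil => simp
  | cons e c ih =>
    simp only [List.map_cons, List.sum_cons, add_mul, sum_add_distrib, ih, mul_sum]
    congr 1
    refine sum_congr rfl fun k _ => ?_
    ring

theorem vC_cast (M x : ℕ) (hM : 0 < M) (B W : ℤ) (L : List (List (List ℤ))) (Lp : List ℕ)
    (hLp : Lp = L.map fun g => res M (pkv B W g)) (c : List (ℕ × List ℕ))
    (hc : ∀ e ∈ c, e.1 < L.length) : ((vC x Lp c : ℕ) : ZMod M) =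
      (((c.map fun e => (valN x e.2 : ℤ) * pkv B W (L.getD e.1 [])).sum : ℤ) : ZMod M) := by
  induction c with
  | nil => simp [vC]
  | cons e c ih =>
    have ih' := ih fun e he => hc e (List.mem_cons_of_mem _ he)
    have h1 := hc e List.mem_cons_self
    have e1 : vC x Lp (e :: c) = valN x e.2 * Lp.getD e.1 0 + vC x Lp c := by simp [vC]
    have e2 : Lp.getD e.1 0 = res M (pkv B W (L.getD e.1 [])) := by
      rw [hLp, List.getD_eq_getElem _ _ (by simpa using h1), List.getElem_map,
        List.getD_eq_getElem _ _ h1]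
    rw [e1, List.map_cons, List.sum_cons, Nat.cast_add, ih', Nat.cast_mul, e2, res_cast hM]
    push_cast
    rfl

theorem pair_zero (p : Par) (hp : okPar p = true) (τ : Ty) (B : ℤ) (x M : ℕ) (Wp : List ℤ)
    (hB : B = 2 ^ p.kb) (hx : (x : ℤ) = B - 4) (hM : M = 2 ^ (p.kb * (p.d + 1) * 16))
    (hW : Wp = (List.range 15).map fun i => (2 : ℤ) ^ (p.kb * (p.d + 1) * i))
    (hτ : okAll τ = true) (ht : okTab τ p.dt p.nt = true) (hC : (PQ τ.C.length).length ≤ 15)
    (hA : (PQ (τ.s + τ.m)).length ≤ 15) (hB' : (PQ (τ.s + τ.l)).length ≤ 15)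
    (g h : List (List ℤ)) (hg : okVec (PQ (τ.s + τ.m)).length p.dg p.ng g = true)
    (hh : okVec (PQ (τ.s + τ.l)).length p.dg p.ng h = true)
    (L : List (List (List ℤ))) (Lp : List ℕ)
    (hL : (L.all fun g => okVec (PQ τ.C.length).length p.dl p.nl g) = true)
    (hLp : Lp = L.map fun g => res M (pkv B (Wp.getD 1 0) g))
    (c : List (ℕ × List ℕ)) (hc1 : c.length ≤ p.mc)
    (hc2 : ∀ e ∈ c, e.1 < L.length ∧ e.2.length ≤ p.dc ∧ ∀ a ∈ e.2, a < 65536)
    (T : List (List ℕ)) (hTlen : T.length = (PQ (τ.s + τ.m)).length)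
    (hTle : ∀ t ∈ T, ∀ b ∈ t, b ≤ M)
    (hentry : ∀ i, i < (PQ (τ.s + τ.m)).length → ∀ j, j < (PQ (τ.s + τ.l)).length →
      ((((T.getD i []).getD j 0 : ℕ)) : ZMod M) =
      ((packT τ B Wp ((PQ (τ.s + τ.m)).getD i []) ((PQ (τ.s + τ.l)).getD j []) : ℤ) : ZMod M))
    (hmod : dotM M (h.map fun u => evZ u B) (cols M T (g.map fun u => evZ u B)) % M =
      vC x Lp c % M) :
    ∀ k < (PQ τ.C.length).length, gP τ g h k = cP L k c := by
  -- the parameters
  simp only [okPar, Bool.and_eq_true] at hp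
  obtain ⟨⟨hp1, hp2⟩, hp3⟩ := hp
  have hp1' := Nat.le_of_ble_eq_true hp1
  have hp2' := Nat.le_of_ble_eq_true hp2
  have hp3' := Nat.le_of_ble_eq_true hp3
  obtain ⟨hg1, hg2⟩ := okVec_spec hg
  obtain ⟨hh1, hh2⟩ := okVec_spec hh
  have hL2 : ∀ i k, ((L.getD i []).getD k []).length ≤ p.dl ∧ nrm ((L.getD i []).getD k []) ≤ p.nl := by
    intro i k
    by_cases hi : i < L.length
    · have h1 : L.getD i [] ∈ L := by
        rw [List.getD_eq_getElem _ _ hi]
        exact List.getElem_mem _
      exact (okVec_spec (List.all_eq_true.1 hL _ h1)).2 k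
    · rw [List.getD_eq_default L _ (by omega)]
      simp [nrm]
  set Bn : ℕ := 2 ^ p.kb with hBn
  have hBZ : B = (Bn : ℤ) := by rw [hB, hBn]; push_cast; rfl
  have hBn0 : 0 < Bn := by rw [hBn]; positivity
  set Wn : ℕ := Bn ^ (p.d + 1) with hWn
  have hWn0 : 0 < Wn := Nat.pow_pos hBn0
  have hMW : M = Wn ^ 16 := by
    rw [hM, hWn, hBn, ← pow_mul, ← pow_mul]
    congr 1
    ring
  have hM0 : 0 < M := by rw [hMW]; exact Nat.pow_pos hWn0
  have hWc : ∀ c, c < 15 → Wp.getD c 0 = (Wn : ℤ) ^ c := by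
    intro c hc
    rw [hW, List.getD_eq_getElem _ _ (by simpa using hc), List.getElem_map, List.getElem_range,
      hWn, hBn]
    push_cast
    rw [← pow_mul, ← pow_mul]
    congr 1
    ring
  have hW1 : Wp.getD 1 0 = (Wn : ℤ) := by rw [hWc 1 (by norm_num), pow_one]
  rw [hW1] at hLp
  -- the tables
  have hokT : ∀ b ∈ PQ (τ.s + τ.m), ∀ b' ∈ PQ (τ.s + τ.l),
      okT τ.C (PQ τ.C.length) (tab τ b b') = true := by
    simp only [okAll, Bool.and_eq_true, List.all_eq_true] at hτ
    exact hτ.2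
  have htab : ∀ b ∈ PQ (τ.s + τ.m), ∀ b' ∈ PQ (τ.s + τ.l),
      (∀ p' ∈ tab τ b b', p'.1.length ≤ p.dt) ∧
      (tab τ b b').foldr (fun p acc => Nat.add (nrm p.1) acc) 0 ≤ p.nt := by
    intro b hb b' hb'
    simp only [okTab, List.all_eq_true, Bool.and_eq_true] at ht
    obtain ⟨h1, h2⟩ := ht b hb b' hb'
    exact ⟨fun p' hp' => Nat.le_of_ble_eq_true (h1 p' hp'), Nat.le_of_ble_eq_true h2⟩
  have hmA : ∀ i, i < (PQ (τ.s + τ.m)).length → (PQ (τ.s + τ.m)).getD i [] ∈ PQ (τ.s + τ.m) := by
    intro i hi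
    rw [List.getD_eq_getElem _ _ hi]
    exact List.getElem_mem _
  have hmB : ∀ i, i < (PQ (τ.s + τ.l)).length → (PQ (τ.s + τ.l)).getD i [] ∈ PQ (τ.s + τ.l) := by
    intro i hi
    rw [List.getD_eq_getElem _ _ hi]
    exact List.getElem_mem _
  -- sizes
  have hu1 : ∀ k, nP (gP τ g h k - cP L k c) < Bn := by
    intro k
    have h1 := gP_nP τ g h k p.nt p.ng hA hB'
      (fun i hi j hj => (htab _ (hmA i hi) _ (hmB j hj)).2) (fun i => (hg2 i).2) (fun i => (hh2 i).2)
    have h2 := cP_nP L k p.dc p.nl (fun i k => (hL2 i k).2) c (fun e he => (hc2 e he).2)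
    have h3 : c.length * (65536 * p.dc * 5 ^ p.dc) * p.nl ≤
        p.mc * (65536 * p.dc * 5 ^ p.dc) * p.nl :=
      Nat.mul_le_mul_right _ (Nat.mul_le_mul_right _ hc1)
    have h4 := nP_sub_le (gP τ g h k) (cP L k c)
    omega
  have hu2 : ∀ k, (gP τ g h k - cP L k c).natDegree ≤ p.d := by
    intro k
    refine (natDegree_sub_le _ _).trans (max_le ?_ ?_)
    · exact (gP_deg τ g h k p.dt p.dg (fun i hi j hj => (htab _ (hmA i hi) _ (hmB j hj)).1)
        (fun i => (hg2 i).1) (fun i => (hh2 i).1)).trans hp2'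
    · exact (cP_deg L k p.dc p.dl (fun i k => (hL2 i k).1) c (fun e he => (hc2 e he).2.1)).trans hp3'
  have hu3 : ∀ k, ((gP τ g h k - cP L k c).eval B).natAbs < Wn := by
    intro k
    rw [hBZ]
    refine (eval_natAbs_le _ Bn p.d hBn0 (hu2 k)).trans_lt ?_
    rw [hWn, pow_succ']
    exact Nat.mul_lt_mul_of_pos_right (hu1 k) (Nat.pow_pos hBn0)
  -- the packed identity
  have hcast : ((dotM M (h.map fun u => evZ u B) (cols M T (g.map fun u => evZ u B)) : ℕ) :
      ZMod M) = ((∑ j ∈ range (PQ (τ.s + τ.l)).length, evZ (h.getD j []) B *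
        ∑ i ∈ range (PQ (τ.s + τ.m)).length, evZ (g.getD i []) B *
          packT τ B Wp ((PQ (τ.s + τ.m)).getD i []) ((PQ (τ.s + τ.l)).getD j []) : ℤ) : ZMod M) := by
    rw [dotM_cast (PQ (τ.s + τ.l)).length _ _ (by simpa using hh1) (cols_le hM0 _ _)]
    push_cast
    refine sum_congr rfl fun j hj => ?_
    rw [cols_cast hM0 j (PQ (τ.s + τ.m)).length _ _ hTlen (by simpa using hg1) hTle]
    have e1 : (h.map fun u => evZ u B).getD j 0 = evZ (h.getD j []) B := by
      have := List.getD_map (l := h) (n := j) (d := []) (f := fun p => evZ p B)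
      simpa only [evZ] using this
    rw [e1]
    congr 1
    refine sum_congr rfl fun i hi => ?_
    have e2 : (g.map fun u => evZ u B).getD i 0 = evZ (g.getD i []) B := by
      have := List.getD_map (l := g) (n := i) (d := []) (f := fun p => evZ p B)
      simpa only [evZ] using this
    rw [e2, hentry i (mem_range.1 hi) j (mem_range.1 hj)]
  have hvC := vC_cast M x hM0 B (Wn : ℤ) L Lp hLp c (fun e he => (hc2 e he).1)
  have heq := (ZMod.natCast_eq_natCast_iff' _ _ M).2 hmod
  rw [hcast, hvC] at heq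
  -- `∑ u_k(B) W^k`
  have hS : ∑ k ∈ range (PQ τ.C.length).length, (gP τ g h k - cP L k c).eval B * (Wn : ℤ) ^ k =
      (∑ j ∈ range (PQ (τ.s + τ.l)).length, evZ (h.getD j []) B *
        ∑ i ∈ range (PQ (τ.s + τ.m)).length, evZ (g.getD i []) B *
          packT τ B Wp ((PQ (τ.s + τ.m)).getD i []) ((PQ (τ.s + τ.l)).getD j [])) -
      (c.map fun e => (valN x e.2 : ℤ) * pkv B (Wn : ℤ) (L.getD e.1 [])).sum := by
    have h1 : ∀ k, (gP τ g h k - cP L k c).eval B * (Wn : ℤ) ^ k =
        (gP τ g h k).eval B * (Wn : ℤ) ^ k - (cP L k c).eval B * (Wn : ℤ) ^ k := by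
      intro k
      rw [eval_sub, sub_mul]
    rw [sum_congr rfl fun k _ => h1 k, sum_sub_distrib]
    congr 1
    · have h2 : ∀ j ∈ range (PQ (τ.s + τ.l)).length, evZ (h.getD j []) B *
          ∑ i ∈ range (PQ (τ.s + τ.m)).length, evZ (g.getD i []) B *
          packT τ B Wp ((PQ (τ.s + τ.m)).getD i []) ((PQ (τ.s + τ.l)).getD j []) =
          ∑ i ∈ range (PQ (τ.s + τ.m)).length, ∑ k ∈ range (PQ τ.C.length).length,
            evZ (coefT τ.C (tab τ ((PQ (τ.s + τ.m)).getD i []) ((PQ (τ.s + τ.l)).getD j []))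
            ((PQ τ.C.length).getD k [])) B * evZ (g.getD i []) B * evZ (h.getD j []) B *
              (Wn : ℤ) ^ k := by
        intro j hj
        rw [mul_sum]
        refine sum_congr rfl fun i hi => ?_
        rw [packT_eq τ B (Wn : ℤ) Wp _ _ (fun c hc => hWc c (by omega))
          (hokT _ (hmA i (mem_range.1 hi)) _ (hmB j (mem_range.1 hj))), mul_sum, mul_sum]
        refine sum_congr rfl fun k _ => ?_
        ring
      rw [sum_congr rfl h2, sum_comm]
      have h3 : ∀ i ∈ range (PQ (τ.s + τ.m)).length, ∑ j ∈ range (PQ (τ.s + τ.l)).length,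
          ∑ k ∈ range (PQ τ.C.length).length,
            evZ (coefT τ.C (tab τ ((PQ (τ.s + τ.m)).getD i []) ((PQ (τ.s + τ.l)).getD j []))
            ((PQ τ.C.length).getD k [])) B * evZ (g.getD i []) B * evZ (h.getD j []) B *
              (Wn : ℤ) ^ k = ∑ k ∈ range (PQ τ.C.length).length,
          ∑ j ∈ range (PQ (τ.s + τ.l)).length,
            evZ (coefT τ.C (tab τ ((PQ (τ.s + τ.m)).getD i []) ((PQ (τ.s + τ.l)).getD j []))
            ((PQ τ.C.length).getD k [])) B * evZ (g.getD i []) B * evZ (h.getD j []) B *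
              (Wn : ℤ) ^ k := fun i _ => sum_comm
      rw [sum_congr rfl h3, sum_comm]
      refine sum_congr rfl fun k _ => ?_
      rw [gP_eval, sum_mul]
      refine sum_congr rfl fun i _ => ?_
      rw [sum_mul]
    · have h2 : ∀ k, (cP L k c).eval B * (Wn : ℤ) ^ k =
          (c.map fun e => (valN x e.2 : ℤ) * evZ ((L.getD e.1 []).getD k []) B).sum *
            (Wn : ℤ) ^ k := by
        intro k
        rw [cP_eval L k x B hx]
      rw [sum_congr rfl fun k _ => h2 k, list_sum_swap _ _ (fun e => (valN x e.2 : ℤ))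
        (fun e k => evZ ((L.getD e.1 []).getD k []) B)]
      congr 1
      refine List.map_congr_left fun e he => ?_
      rw [pkv_sum B (Wn : ℤ) (PQ τ.C.length).length]
      have h1 : L.getD e.1 [] ∈ L := by
        rw [List.getD_eq_getElem _ _ (hc2 e he).1]
        exact List.getElem_mem _
      exact (okVec_spec (List.all_eq_true.1 hL _ h1)).1.le
  have hdvd : (Wn : ℤ) ^ 16 ∣
      ∑ k ∈ range (PQ τ.C.length).length, (gP τ g h k - cP L k c).eval B * (Wn : ℤ) ^ k := by
    have h1 : ((M : ℕ) : ℤ) ∣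
        ∑ k ∈ range (PQ τ.C.length).length, (gP τ g h k - cP L k c).eval B * (Wn : ℤ) ^ k := by
      rw [← ZMod.intCast_zmod_eq_zero_iff_dvd, hS, Int.cast_sub, heq, sub_self]
    rw [hMW] at h1
    exact_mod_cast h1
  have hz := digits_zero hWn0 (PQ τ.C.length).length 16
    (fun k => (gP τ g h k - cP L k c).eval B) (by omega) (fun k _ => hu3 k) hdvd
  intro k hk
  have h1 : (gP τ g h k - cP L k c).eval B = 0 := hz k hk
  rw [hBZ] at h1
  exact sub_eq_zero.1 (eq_zero_of_eval (hu1 k) h1)

/-- value of a list of digits at a real number -/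
noncomputable def evN (s : List ℕ) (y : ℝ) : ℝ := aeval y (toN s)

theorem evN_cons (a : ℕ) (s : List ℕ) (y : ℝ) : evN (a :: s) y = a + y * evN s y := by
  simp [evN, toN]

theorem evN_nonneg (s : List ℕ) {y : ℝ} (hy : 0 ≤ y) : 0 ≤ evN s y := by
  induction s with
  | nil => simp [evN, toN]
  | cons a s ih => rw [evN_cons]; positivity

theorem evN_pos (s : List ℕ) {y : ℝ} (hy : 0 < y) (h : ∃ a ∈ s, 0 < a) : 0 < evN s y := by
  induction s with
  | nil => simp at h
  | cons a s ih =>
    rw [evN_cons]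
    have h0 := evN_nonneg s hy.le
    obtain ⟨b, hb, hb0⟩ := h
    rcases List.mem_cons.1 hb with rfl | hb
    · have : (0 : ℝ) < b := by exact_mod_cast hb0
      positivity
    · have := ih ⟨b, hb, hb0⟩
      positivity

theorem K_weak {q : ℝ} {G : List (List (List ℤ))} {w : ℕ} {b : Bool} {x : ℕ → ℝ}
    (h : K q G w b x) : K q G w false x := by
  cases b with
  | true => exact K.weak _ h
  | false => exact h

theorem K_sum {q : ℝ} (hq : 4 < q) (L : List (List (List ℤ))) (w : ℕ) (c : List (ℕ × List ℕ))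
    (hc : ∀ e ∈ c, e.1 < L.length ∧ ∃ a ∈ e.2, 0 < a) :
    K q L w (c.any fun e => decide (e.1 < w))
      (fun k => (c.map fun e => evN e.2 (q - 4) * evv (L.getD e.1 []) q k).sum) := by
  induction c with
  | nil => simpa using K.zero (q := q) (G := L) (w := w)
  | cons e c ih =>
    have ih' := ih fun e he => hc e (List.mem_cons_of_mem _ he)
    obtain ⟨h1, h2⟩ := hc e List.mem_cons_self
    rw [List.any_cons]
    simp only [List.map_cons, List.sum_cons]
    exact K.add _ _ _ _ (K.smul _ _ _ (evN_pos e.2 (by linarith) h2)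
      (Pool.Agent.TH389.BL.K_gen e.1 h1)) ih'

/-- forget the flags -/
theorem K_forget {q : ℝ} {G : List (List (List ℤ))} {w : ℕ} {b : Bool} {x : ℕ → ℝ}
    (h : K q G w b x) : K q G 0 false x := by
  induction h with
  | zero => exact K.zero
  | good g hg => exact K.bad _ (List.mem_of_mem_take hg)
  | bad g hg => exact K.bad _ hg
  | smul b c x hc _ ih => exact K.smul _ _ _ hc ih
  | add b b' x y _ _ ih1 ih2 => exact K.add _ _ _ _ ih1 ih2
  | weak x _ ih => exact ih

theorem lin1 (τ : Ty) (q : ℝ) (y : ℕ → ℝ) : Pool.Agent.TH389.BL.Lin fun x => gR τ q x y := by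
  constructor
  · intro x x'
    funext k
    simp only [gR, ← sum_add_distrib]
    refine sum_congr rfl fun i _ => sum_congr rfl fun j _ => ?_
    ring
  · intro c x
    funext k
    simp only [gR, mul_sum]
    refine sum_congr rfl fun i _ => sum_congr rfl fun j _ => ?_
    ring

theorem lin2 (τ : Ty) (q : ℝ) (x : ℕ → ℝ) : Pool.Agent.TH389.BL.Lin fun y => gR τ q x y := by
  constructor
  · intro y y'
    funext k
    simp only [gR, ← sum_add_distrib]
    refine sum_congr rfl fun i _ => sum_congr rfl fun j _ => ?_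
    ring
  · intro c y
    funext k
    simp only [gR, mul_sum]
    refine sum_congr rfl fun i _ => sum_congr rfl fun j _ => ?_
    ring

theorem all_take_drop {α : Type} (l : List α) (n : ℕ) (P Q : α → Bool)
    (h1 : ((l.take n).all P) = true) (h2 : ((l.drop n).all Q) = true) (i : ℕ) (hi : i < l.length) :
    (i < n → P l[i] = true) ∧ (¬ i < n → Q l[i] = true) := by
  constructor
  · intro h
    apply List.all_eq_true.1 h1
    rw [List.mem_take_iff_getElem]
    exact ⟨i, by omega, rfl⟩
  · intro h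
    apply List.all_eq_true.1 h2
    rw [List.mem_drop_iff_getElem]
    exact ⟨i - n, by omega, by congr 1; omega⟩

theorem okCert_spec {m l dc w : ℕ} {good : Bool} {c : List (ℕ × List ℕ)}
    (h : okCert m l dc w good c = true) : c.length ≤ m ∧
      (∀ e ∈ c, e.1 < l ∧ e.2.length ≤ dc ∧ ∃ a ∈ e.2, 0 < a) ∧
      (good = true → (c.any fun e => decide (e.1 < w)) = true) := by
  simp only [okCert, Bool.and_eq_true, List.all_eq_true] at h
  obtain ⟨⟨h1, h2⟩, h3⟩ := h
  refine ⟨Nat.le_of_ble_eq_true h1, fun e he => ?_, fun hg => ?_⟩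
  · obtain ⟨⟨h4, h5⟩, h6⟩ := h2 e he
    rw [List.any_eq_true] at h6
    obtain ⟨a, ha, ha0⟩ := h6
    exact ⟨Nat.le_of_ble_eq_true h4, Nat.le_of_ble_eq_true h5, a, ha, Nat.le_of_ble_eq_true ha0⟩
  · rw [hg] at h3
    simp only [Bool.not_true, Bool.false_or] at h3
    rw [List.any_eq_true] at h3 ⊢
    obtain ⟨e, he, he0⟩ := h3
    exact ⟨e, he, decide_eq_true (Nat.le_of_ble_eq_true he0)⟩

theorem okCert_false {m l dc w : ℕ} {good : Bool} {c : List (ℕ × List ℕ)}
    (h : okCert m l dc w good c = true) : okCert m l dc w false c = true := by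
  simp only [okCert, Bool.and_eq_true] at h ⊢
  exact ⟨h.1, by simp⟩

theorem coefT_nil (C : List ℕ) (hC : C ≠ []) (t : Terms) : coefT C t [] = [] := by
  induction t with
  | nil => rfl
  | cons p t ih =>
    rw [coefT_cons, if_neg, ih]
    intro h
    have := congrArg List.length h
    simp [rst] at this
    exact hC this

end ChkA

open ChkA Polynomial in
/-- BLC/6: the check of a type shows that the cone is mapped into the cone of the list `L`.
`GA`, `GB` generators for the two rings, `L`, `Lp` the list and its packed values. -/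
theorem chk_sound (p : Par) (hp : okPar p = true) (τ : Ty) (B : ℤ) (x M : ℕ) (Wp : List ℤ)
    (hB : B = 2 ^ p.kb) (hx : (x : ℤ) = B - 4) (hM : M = 2 ^ (p.kb * (p.d + 1) * 16))
    (hW : Wp = (List.range 15).map fun i => (2 : ℤ) ^ (p.kb * (p.d + 1) * i))
    (hτ : okAll τ = true) (ht : okTab τ p.dt p.nt = true) (hC : (PQ τ.C.length).length ≤ 15)
    (hC0 : 0 < (PQ τ.C.length).length)
    (hA : (PQ (τ.s + τ.m)).length ≤ 15) (hB' : (PQ (τ.s + τ.l)).length ≤ 15)
    (GA GB L : List (List (List ℤ))) (Lp : List ℕ) (gz hz : List (List ℤ)) (ds : List (ℕ × ℕ))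
    (T : List (List ℕ)) (hTlen : T.length = (PQ (τ.s + τ.m)).length)
    (hTle : ∀ t ∈ T, ∀ b ∈ t, b ≤ M)
    (hentry : ∀ i, i < (PQ (τ.s + τ.m)).length → ∀ j, j < (PQ (τ.s + τ.l)).length →
      ((((T.getD i []).getD j 0 : ℕ)) : ZMod M) =
      ((packT τ B Wp ((PQ (τ.s + τ.m)).getD i []) ((PQ (τ.s + τ.l)).getD j []) : ℤ) : ZMod M))
    (hGA : (GA.all fun g => okVec (PQ (τ.s + τ.m)).length p.dg p.ng g) = true)
    (hGB : (GB.all fun g => okVec (PQ (τ.s + τ.l)).length p.dg p.ng g) = true)
    (hL : (L.all fun g => okVec (PQ τ.C.length).length p.dl p.nl g) = true)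
    (hgz : gz = GA.map fun g => g.map fun c => evZ c B)
    (hhz : hz = GB.map fun g => g.map fun c => evZ c B)
    (hLp : Lp = L.map fun g => res M (pkv B (Wp.getD 1 0) g))
    (wa wb w : ℕ) (hok : okTy p.mc L.length p.dc w wa wb GB.length ds = true)
    (hchk : chkTy M x T hz Lp gz ds = true)
    (q : ℝ) (hq : 4 < q) (b b' : Bool) (X Y : ℕ → ℝ) (hX : K q GA wa b X) (hY : K q GB wb b' Y) :
    K q L w (b && b') (gR τ q X Y) := by
  -- the pairs
  have hpair : ∀ (i : ℕ) (hi : i < GA.length) (j : ℕ) (hj : j < GB.length),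
      K q L w false (gR τ q (evv GA[i] q) (evv GB[j] q)) ∧
      (i < wa → j < wb → K q L w true (gR τ q (evv GA[i] q) (evv GB[j] q))) := by
    intro i hi j hj
    have h1 := List.forall₂_iff_get.1 (chkTy_eq M x T hz Lp gz ds hchk)
    obtain ⟨h1l, h1⟩ := h1
    have hgl : gz.length = GA.length := by rw [hgz, List.length_map]
    have hhl : hz.length = GB.length := by rw [hhz, List.length_map]
    have hdl : i < ds.length := by omega
    have h2 := h1 i (by omega) hdl
    simp only [List.get_eq_getElem] at h2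
    have h3 := List.forall₂_iff_get.1 (chkRow_eq M x Lp _ hz _ h2)
    obtain ⟨h3l, h3⟩ := h3
    have hjl : j < (psRow hz.length (digs ds[i].1 ds[i].2)).length := by omega
    have h4 := h3 j (by omega) hjl
    simp only [List.get_eq_getElem] at h4
    set c := (psRow hz.length (digs ds[i].1 ds[i].2))[j] with hc
    have hcm : c ∈ psRow hz.length (digs ds[i].1 ds[i].2) := List.getElem_mem _
    have hdig : ∀ e ∈ c, ∀ a ∈ e.2, a < 65536 := fun e he a ha =>
      digs_lt _ _ a (psRow_mem _ _ c hcm e he a ha)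
    simp only [okTy, Bool.and_eq_true] at hok
    obtain ⟨hok1, hok2⟩ := hok
    have h5 := all_take_drop ds wa _ _ hok1 hok2 i hdl
    have hrow : ∀ good : Bool, okRow p.mc L.length p.dc w good wb
        (psRow GB.length (digs ds[i].1 ds[i].2)) = true →
        okCert p.mc L.length p.dc w false c = true ∧
        (good = true → j < wb → okCert p.mc L.length p.dc w true c = true) := by
      intro good hr
      simp only [okRow, Bool.and_eq_true] at hr
      have h6 := all_take_drop _ wb _ _ hr.1 hr.2 j (by rw [← hhl]; exact hjl)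
      have hcc : (psRow GB.length (digs ds[i].1 ds[i].2))[j]'(by rw [← hhl]; exact hjl) = c := by
        rw [hc]
        congr 1
        rw [hhl]
      rw [hcc] at h6
      constructor
      · by_cases hjw : j < wb
        · exact okCert_false (h6.1 hjw)
        · exact h6.2 hjw
      · intro hg hjw
        have := h6.1 hjw
        rwa [hg] at this
    have hcert : okCert p.mc L.length p.dc w false c = true ∧
        (i < wa → j < wb → okCert p.mc L.length p.dc w true c = true) := by
      by_cases hiw : i < wa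
      · have h7 := hrow true (h5.1 hiw)
        exact ⟨h7.1, fun _ hjw => h7.2 rfl hjw⟩
      · have h7 := hrow false (h5.2 hiw)
        exact ⟨h7.1, fun h => absurd h hiw⟩
    obtain ⟨hc1, hc2, _⟩ := okCert_spec hcert.1
    have hgi : okVec (PQ (τ.s + τ.m)).length p.dg p.ng GA[i] = true :=
      List.all_eq_true.1 hGA _ (List.getElem_mem _)
    have hhj : okVec (PQ (τ.s + τ.l)).length p.dg p.ng GB[j] = true :=
      List.all_eq_true.1 hGB _ (List.getElem_mem _)
    have hgzi : gz[i]'(by omega) = GA[i].map fun u => evZ u B := by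
      simp only [hgz, List.getElem_map]
    have hhzj : hz[j]'(by omega) = GB[j].map fun u => evZ u B := by
      simp only [hhz, List.getElem_map]
    rw [hgzi, hhzj] at h4
    have hzero := pair_zero p hp τ B x M Wp hB hx hM hW hτ ht hC hA hB' GA[i] GB[j] hgi hhj L Lp hL
      hLp c hc1 (fun e he => ⟨(hc2 e he).1, (hc2 e he).2.1, hdig e he⟩) T hTlen hTle hentry h4
    have hfun : gR τ q (evv GA[i] q) (evv GB[j] q) =
        fun k => (c.map fun e => evN e.2 (q - 4) * evv (L.getD e.1 []) q k).sum := by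
      funext k
      by_cases hk : k < (PQ τ.C.length).length
      · have h8 : aeval q (gP τ GA[i] GB[j] k) = aeval q (cP L k c) := by rw [hzero k hk]
        have h9 : aeval q (gP τ GA[i] GB[j] k) = gR τ q (evv GA[i] q) (evv GB[j] q) k := by
          simp only [gP, map_sum, map_mul, Pool.Agent.TH389.BL.aeval_toP]
          rfl
        have h10 : aeval q (cP L k c) =
            (c.map fun e => evN e.2 (q - 4) * evv (L.getD e.1 []) q k).sum := by
          simp only [cP, map_list_sum, List.map_map]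
          congr 1
          refine List.map_congr_left fun e _ => ?_
          simp only [Function.comp_apply, map_mul, Pool.Agent.TH389.BL.aeval_toP, evN,
            Polynomial.aeval_comp, map_sub, Polynomial.aeval_X, Polynomial.aeval_C]
          congr 2
        rw [← h9, h8, h10]
      · have h8 : (PQ τ.C.length).getD k [] = [] := List.getD_eq_default _ _ (by omega)
        have h9 : τ.C ≠ [] := by
          intro h
          rw [h] at hC0
          simp [PQ] at hC0
        have h10 : gR τ q (evv GA[i] q) (evv GB[j] q) k = 0 := by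
          simp only [gR, h8, coefT_nil τ.C h9]
          simp [ev]
        rw [h10]
        symm
        apply List.sum_eq_zero
        intro z hz'
        rw [List.mem_map] at hz'
        obtain ⟨e, he, rfl⟩ := hz'
        have h11 : L.getD e.1 [] ∈ L := by
          rw [List.getD_eq_getElem _ _ (hc2 e he).1]
          exact List.getElem_mem _
        have h12 := (okVec_spec (List.all_eq_true.1 hL _ h11)).1
        have h13 : evv (L.getD e.1 []) q k = 0 := by
          unfold evv
          rw [List.getD_eq_default (L.getD e.1 []) _ (by omega)]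
          rfl
        rw [h13, mul_zero]
    have hK := K_sum hq L w c (fun e he => ⟨(hc2 e he).1, (hc2 e he).2.2⟩)
    rw [hfun]
    refine ⟨K_weak hK, fun hiw hjw => ?_⟩
    rw [← (okCert_spec (hcert.2 hiw hjw)).2.2 rfl]
    exact hK
  have hmem : ∀ g ∈ GA, ∃ (i : ℕ) (hi : i < GA.length), GA[i] = g := fun g hg =>
    List.mem_iff_getElem.1 hg
  have hmem' : ∀ g ∈ GB, ∃ (i : ℕ) (hi : i < GB.length), GB[i] = g := fun g hg =>
    List.mem_iff_getElem.1 hg
  have hfalse : ∀ g ∈ GA, ∀ h ∈ GB, K q L w false (gR τ q (evv g q) (evv h q)) := by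
    intro g hg h hh
    obtain ⟨i, hi, rfl⟩ := hmem g hg
    obtain ⟨j, hj, rfl⟩ := hmem' h hh
    exact (hpair i hi j hj).1
  have htrue : ∀ g ∈ GA.take wa, ∀ h ∈ GB.take wb, K q L w true (gR τ q (evv g q) (evv h q)) := by
    intro g hg h hh
    rw [List.mem_take_iff_getElem] at hg hh
    obtain ⟨i, hi, rfl⟩ := hg
    obtain ⟨j, hj, rfl⟩ := hh
    exact (hpair i (by omega) j (by omega)).2 (by omega) (by omega)
  -- extension in the first variable
  have hX0 := K_forget hX
  have hA1 : ∀ h ∈ GB, K q L w false (gR τ q X (evv h q)) := by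
    intro h hh
    exact Pool.Agent.TH389.BL.K_map (lin1 τ q (evv h q)) (fun g hg => by simp at hg)
      (fun g hg => hfalse g hg h hh) hX0
  cases hb : b with
  | false =>
    rw [Bool.false_and]
    exact Pool.Agent.TH389.BL.K_map (lin2 τ q X) (fun g hg => by simp at hg)
      (fun h hh => hA1 h hh) (K_forget hY)
  | true =>
    rw [Bool.true_and]
    rw [hb] at hX
    have hA2 : ∀ h ∈ GB.take wb, K q L w true (gR τ q X (evv h q)) := by
      intro h hh
      exact Pool.Agent.TH389.BL.K_map (lin1 τ q (evv h q)) (fun g hg => htrue g hg h hh)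
        (fun g hg => hfalse g hg h (List.mem_of_mem_take hh)) hX
    exact Pool.Agent.TH389.BL.K_map (lin2 τ q X) hA2 hA1 hY

end Pool.Agent.N467.BL
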