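import Mathlib

/-! Kronecker substitution (subtask BLC/2). -/

set_option autoImplicit false

namespace Pool.Agent.N467.BL

open Polynomial

/-- sum of the absolute values of the coefficients -/
noncomputable def nP (P : ℤ[X]) : ℕ := P.sum fun _ a => a.natAbs

theorem nP_range (P : ℤ[X]) (N : ℕ) (h : P.natDegree < N) :
    nP P = ∑ i ∈ Finset.range N, (P.coeff i).natAbs :=
  P.sum_over_range' (fun _ => rfl) N h

theorem nP_coeff_le (P : ℤ[X]) (i : ℕ) : (P.coeff i).natAbs ≤ nP P := by
  rw [nP_range P (max P.natDegree i + 1) (by omega)]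
  exact Finset.single_le_sum (f := fun i => (P.coeff i).natAbs) (fun _ _ => Nat.zero_le _)
    (Finset.mem_range.2 (by omega))

theorem nP_zero : nP 0 = 0 := by
  simp [nP]

theorem nP_C (a : ℤ) : nP (C a) = a.natAbs := by
  unfold nP
  rw [sum_C_index]
  rfl

theorem nP_X_mul (P : ℤ[X]) : nP (X * P) = nP P := by
  have h1 : (X * P).natDegree < P.natDegree + 1 + 1 := by
    have h2 := natDegree_mul_le (p := (X : ℤ[X])) (q := P)
    have h3 : (X : ℤ[X]).natDegree = 1 := natDegree_X
    omega
  rw [nP_range _ _ h1, nP_range P (P.natDegree + 1) (by omega), Finset.sum_range_succ']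
  simp [coeff_X_mul]

theorem nP_neg (P : ℤ[X]) : nP (-P) = nP P := by
  rw [nP_range (-P) (P.natDegree + 1) (by rw [natDegree_neg]; omega),
    nP_range P (P.natDegree + 1) (by omega)]
  refine Finset.sum_congr rfl fun i _ => ?_
  rw [coeff_neg, Int.natAbs_neg]

theorem nP_add_le (P Q : ℤ[X]) : nP (P + Q) ≤ nP P + nP Q := by
  have h := natDegree_add_le P Q
  rw [nP_range (P + Q) (max P.natDegree Q.natDegree + 1) (by omega),
    nP_range P (max P.natDegree Q.natDegree + 1) (by omega),
    nP_range Q (max P.natDegree Q.natDegree + 1) (by omega), ← Finset.sum_add_distrib]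
  refine Finset.sum_le_sum fun i _ => ?_
  rw [coeff_add]
  exact Int.natAbs_add_le _ _

theorem nP_sub_le (P Q : ℤ[X]) : nP (P - Q) ≤ nP P + nP Q := by
  rw [sub_eq_add_neg, ← nP_neg Q]
  exact nP_add_le P (-Q)

theorem nP_sum_le {ι : Type} (s : Finset ι) (f : ι → ℤ[X]) :
    nP (∑ i ∈ s, f i) ≤ ∑ i ∈ s, nP (f i) := by
  classical
  induction s using Finset.induction_on with
  | empty => simp [nP_zero]
  | insert a s ha ih =>
    rw [Finset.sum_insert ha, Finset.sum_insert ha]
    exact (nP_add_le _ _).trans (Nat.add_le_add_left ih _)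

theorem nP_X_pow_mul (n : ℕ) (P : ℤ[X]) : nP (X ^ n * P) = nP P := by
  induction n with
  | zero => simp
  | succ n ih => rw [pow_succ', mul_assoc, nP_X_mul, ih]

theorem nP_C_mul (a : ℤ) (P : ℤ[X]) : nP (C a * P) = a.natAbs * nP P := by
  have h := natDegree_C_mul_le a P
  rw [nP_range (C a * P) (P.natDegree + 1) (by omega), nP_range P (P.natDegree + 1) (by omega),
    Finset.mul_sum]
  refine Finset.sum_congr rfl fun i _ => ?_
  rw [coeff_C_mul, Int.natAbs_mul]

theorem nP_mul_le (P Q : ℤ[X]) : nP (P * Q) ≤ nP P * nP Q := by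
  have h1 : P * Q = ∑ i ∈ P.support, C (P.coeff i) * (X ^ i * Q) := by
    conv_lhs => rw [P.as_sum_support_C_mul_X_pow]
    rw [Finset.sum_mul]
    refine Finset.sum_congr rfl fun i _ => ?_
    rw [mul_assoc]
  rw [h1]
  refine (nP_sum_le _ _).trans ?_
  have h2 : nP P = ∑ i ∈ P.support, (P.coeff i).natAbs := rfl
  rw [h2, Finset.sum_mul]
  refine Finset.sum_le_sum fun i _ => ?_
  rw [nP_C_mul, nP_X_pow_mul]

theorem nP_pow_le (P : ℤ[X]) (n : ℕ) : nP (P ^ n) ≤ nP P ^ n := by
  induction n with
  | zero =>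
    rw [pow_zero, pow_zero, ← C_1, nP_C]
    exact le_refl _
  | succ n ih =>
    rw [pow_succ, pow_succ]
    exact (nP_mul_le _ _).trans (Nat.mul_le_mul_right _ ih)

theorem nP_list_sum_le (l : List ℤ[X]) : nP l.sum ≤ (l.map nP).sum := by
  induction l with
  | nil => simp [nP_zero]
  | cons a l ih =>
    rw [List.sum_cons, List.map_cons, List.sum_cons]
    exact (nP_add_le _ _).trans (Nat.add_le_add_left ih _)

theorem small_dvd {a : ℤ} {B : ℕ} (h : a.natAbs < B) (hd : (B : ℤ) ∣ a) : a = 0 := by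
  by_contra ha
  have h1 : B ∣ a.natAbs := by
    have := Int.natAbs_dvd_natAbs.2 hd
    simpa using this
  have := Nat.le_of_dvd (Int.natAbs_pos.2 ha) h1
  omega

theorem eq_zero_aux {B : ℕ} : ∀ (n : ℕ) (P : ℤ[X]), P.natDegree ≤ n → nP P < B →
    P.eval (B : ℤ) = 0 → P = 0 := by
  intro n
  induction n with
  | zero =>
    intro P hP hn h0
    rw [eq_C_of_natDegree_le_zero hP] at h0 ⊢
    rw [eval_C] at h0
    rw [h0, C_0]
  | succ n ih =>
    intro P hP hn h0
    have hB : 0 < B := by omega
    have h1 : P.divX * X + C (P.coeff 0) = P := divX_mul_X_add P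
    have h2 : P.divX.eval (B : ℤ) * B + P.coeff 0 = 0 := by
      rw [← h1, eval_add, eval_mul, eval_X, eval_C] at h0
      exact h0
    have h3 : P.coeff 0 = 0 := by
      apply small_dvd (lt_of_le_of_lt (nP_coeff_le P 0) hn)
      exact ⟨-P.divX.eval (B : ℤ), by linarith⟩
    rw [h3, add_zero] at h2
    have h4 : P.divX.eval (B : ℤ) = 0 := by
      rcases mul_eq_zero.1 h2 with h | h
      · exact h
      · exfalso
        have : B = 0 := by exact_mod_cast h
        omega
    rw [h3, C_0, add_zero] at h1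
    have h5 : nP P.divX < B := by
      rw [← h1, mul_comm, nP_X_mul] at hn
      exact hn
    have h6 : P.divX = 0 := by
      apply ih _ _ h5 h4
      rw [natDegree_divX_eq_natDegree_tsub_one]
      omega
    rw [← h1, h6, zero_mul]

/-- a polynomial with small coefficients which vanishes at a large integer is zero -/
theorem eq_zero_of_eval {P : ℤ[X]} {B : ℕ} (h : nP P < B) (h0 : P.eval (B : ℤ) = 0) : P = 0 :=
  eq_zero_aux P.natDegree P le_rfl h h0

/-- two polynomials with small coefficients which agree at a large integer are equal -/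
theorem eq_of_eval {P Q : ℤ[X]} {B : ℕ} (h : nP P + nP Q < B)
    (h0 : P.eval (B : ℤ) = Q.eval (B : ℤ)) : P = Q := by
  apply sub_eq_zero.1
  apply eq_zero_of_eval (B := B) (lt_of_le_of_lt (nP_sub_le P Q) h)
  rw [eval_sub, h0, sub_self]

end Pool.Agent.N467.BL
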