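import Pool.Agent.N467.BL.RepDefs
import Pool.Agent.N467.BL.ChkDefs
import Pool.Agent.N467.BL.Norm
import Pool.Agent.TH389.BL.Cone

/-! Soundness of the packed checks: auxiliary lemmas (helper434 for subtask BLC/6). -/

set_option autoImplicit false

namespace Pool.Agent.N467.BL

open Finset

namespace ChkA

/-! ### parsing -/

/-- value of a list of digits -/
def valN (x : ℕ) : List ℕ → ℕ
  | [] => 0
  | a :: s => a + x * valN x s

theorem rdP_eq (x : ℕ) : ∀ (m : ℕ) (s : List ℕ), rdP x m s = (valN x (s.take m), s.drop m)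
  | 0, s => by simp [rdP, valN]
  | m + 1, [] => by simp [rdP, valN]
  | m + 1, a :: s => by
    simp only [rdP, rdP_eq x m s, List.take_succ_cons, List.drop_succ_cons, valN]
    rfl

/-- value of a certificate -/
def vC (x : ℕ) (Lp : List ℕ) (c : List (ℕ × List ℕ)) : ℕ :=
  (c.map fun e => valN x e.2 * Lp.getD e.1 0).sum

theorem rdT_eq (x : ℕ) (Lp : List ℕ) : ∀ (n : ℕ) (s : List ℕ),
    rdT x Lp n s = (vC x Lp (psT n s).1, (psT n s).2)
  | 0, s => by simp [rdT, psT, vC]
  | n + 1, [] => by simp [rdT, psT, vC]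
  | n + 1, [a] => by simp [rdT, psT, vC]
  | n + 1, i :: m :: s => by
    simp only [rdT, psT, rdP_eq, rdT_eq x Lp n (s.drop m), vC, List.map_cons, List.sum_cons]
    rfl

theorem chkRow_eq (M x : ℕ) (Lp cl : List ℕ) : ∀ (hz : List (List ℤ)) (s : List ℕ),
    chkRow M x Lp cl hz s = true →
    List.Forall₂ (fun h c => dotM M h cl % M = vC x Lp c % M) hz (psRow hz.length s)
  | [], s => fun _ => by simp [psRow]
  | h :: hz, [] => fun h => by simp [chkRow] at h
  | h :: hz, n :: s => fun hh => by
    simp only [chkRow, rdT_eq, Bool.and_eq_true] at hh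
    simp only [List.length_cons, psRow]
    refine List.Forall₂.cons ?_ (chkRow_eq M x Lp cl hz _ hh.2)
    exact Nat.eq_of_beq_eq_true hh.1

theorem chkTy_eq (M x : ℕ) (t : List (List ℕ)) (hz : List (List ℤ)) (Lp : List ℕ) :
    ∀ (gz : List (List ℤ)) (ds : List (ℕ × ℕ)), chkTy M x t hz Lp gz ds = true →
    List.Forall₂ (fun g d => chkRow M x Lp (cols M t g) hz (digs d.1 d.2) = true) gz ds
  | [], [] => fun _ => List.Forall₂.nil
  | [], _ :: _ => fun h => by simp [chkTy] at h
  | _ :: _, [] => fun h => by simp [chkTy] at h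
  | g :: gz, d :: ds => fun h => by
    simp only [chkTy, Bool.and_eq_true] at h
    exact List.Forall₂.cons h.1 (chkTy_eq M x t hz Lp gz ds h.2)

theorem digs_lt : ∀ (n x : ℕ), ∀ a ∈ digs n x, a < 65536
  | 0, x => by simp [digs]
  | n + 1, x => by
    intro a ha
    simp only [digs, List.mem_cons] at ha
    rcases ha with rfl | ha
    · exact Nat.mod_lt _ (by norm_num)
    · exact digs_lt n _ a ha

theorem psT_mem : ∀ (n : ℕ) (s : List ℕ), (∀ e ∈ (psT n s).1, ∀ a ∈ e.2, a ∈ s) ∧
    (∀ a ∈ (psT n s).2, a ∈ s)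
  | 0, s => by simp [psT]
  | n + 1, [] => by simp [psT]
  | n + 1, [a] => by simp [psT]
  | n + 1, i :: m :: s => by
    obtain ⟨h1, h2⟩ := psT_mem n (s.drop m)
    simp only [psT]
    constructor
    · intro e he a ha
      rcases List.mem_cons.1 he with rfl | he
      · simp only at ha
        exact List.mem_cons_of_mem _ (List.mem_cons_of_mem _ (List.mem_of_mem_take ha))
      · exact List.mem_cons_of_mem _ (List.mem_cons_of_mem _ (List.mem_of_mem_drop (h1 e he a ha)))
    · intro a ha
      exact List.mem_cons_of_mem _ (List.mem_cons_of_mem _ (List.mem_of_mem_drop (h2 a ha)))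

theorem psRow_mem : ∀ (k : ℕ) (s : List ℕ), ∀ c ∈ psRow k s, ∀ e ∈ c, ∀ a ∈ e.2, a ∈ s
  | 0, s => by simp [psRow]
  | k + 1, [] => by simp [psRow]
  | k + 1, n :: s => by
    intro c hc e he a ha
    simp only [psRow, List.mem_cons] at hc
    rcases hc with rfl | hc
    · exact List.mem_cons_of_mem _ ((psT_mem n s).1 e he a ha)
    · exact List.mem_cons_of_mem _ ((psT_mem n s).2 a (psRow_mem k _ c hc e he a ha))

/-! ### arithmetic modulo `M` -/

theorem res_le {M : ℕ} (hM : 0 < M) (a : ℤ) : res M a ≤ M := by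
  cases a with
  | ofNat n => exact (Nat.mod_lt n hM).le
  | negSucc n => exact Nat.sub_le _ _

theorem cast_mod (M n : ℕ) : ((Nat.mod n M : ℕ) : ZMod M) = (n : ZMod M) := ZMod.natCast_mod n M

theorem res_cast {M : ℕ} (hM : 0 < M) (a : ℤ) : ((res M a : ℕ) : ZMod M) = (a : ZMod M) := by
  cases a with
  | ofNat n =>
    change ((Nat.mod n M : ℕ) : ZMod M) = ((n : ℤ) : ZMod M)
    rw [cast_mod]
    push_cast
    rfl
  | negSucc n =>
    change ((M - ((n + 1) % M) : ℕ) : ZMod M) = ((Int.negSucc n : ℤ) : ZMod M)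
    rw [Nat.cast_sub (Nat.mod_lt _ hM).le, ZMod.natCast_mod, Int.cast_negSucc]
    simp

theorem smul_cast {M : ℕ} (a : ℤ) {x : ℕ} (hx : x ≤ M) :
    ((smul M a x : ℕ) : ZMod M) = (a : ZMod M) * (x : ZMod M) := by
  cases a with
  | ofNat n =>
    change ((n * x : ℕ) : ZMod M) = ((n : ℤ) : ZMod M) * _
    push_cast
    rfl
  | negSucc n =>
    change (((n + 1) * (M - x) : ℕ) : ZMod M) = ((Int.negSucc n : ℤ) : ZMod M) * _
    rw [Nat.cast_mul, Nat.cast_sub hx, Int.cast_negSucc]
    simp
    ring

theorem axpy_le {M : ℕ} (hM : 0 < M) (a : ℤ) : ∀ (l y : List ℕ), (∀ b ∈ y, b ≤ M) →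
    ∀ b ∈ axpy M a l y, b ≤ M
  | [], y => fun h => by simpa [axpy] using h
  | x :: l, [] => fun _ b hb => by
    simp only [axpy, List.mem_cons] at hb
    rcases hb with rfl | hb
    · exact (Nat.mod_lt _ hM).le
    · exact axpy_le hM a l [] (by simp) b hb
  | x :: l, y :: m => fun h b hb => by
    simp only [axpy, List.mem_cons] at hb
    rcases hb with rfl | hb
    · exact (Nat.mod_lt _ hM).le
    · exact axpy_le hM a l m (fun b hb => h b (List.mem_cons_of_mem _ hb)) b hb

theorem axpy_cast {M : ℕ} (hM : 0 < M) (a : ℤ) : ∀ (l y : List ℕ), (∀ b ∈ l, b ≤ M) → ∀ c : ℕ,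
    (((axpy M a l y).getD c 0 : ℕ) : ZMod M) =
      (a : ZMod M) * ((l.getD c 0 : ℕ) : ZMod M) + ((y.getD c 0 : ℕ) : ZMod M)
  | [], y => fun _ c => by simp [axpy]
  | x :: l, [] => fun h c => by
    cases c with
    | zero =>
      simp only [axpy, List.getD_cons_zero]
      rw [cast_mod, smul_cast a (h x List.mem_cons_self)]
      simp
    | succ c =>
      simp only [axpy, List.getD_cons_succ]
      rw [axpy_cast hM a l [] (fun b hb => h b (List.mem_cons_of_mem _ hb)) c]
      simp
  | x :: l, y :: m => fun h c => by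
    cases c with
    | zero =>
      simp only [axpy, List.getD_cons_zero]
      rw [cast_mod]
      change ((smul M a x + y : ℕ) : ZMod M) = _
      rw [Nat.cast_add, smul_cast a (h x List.mem_cons_self)]
    | succ c =>
      simp only [axpy, List.getD_cons_succ]
      exact axpy_cast hM a l m (fun b hb => h b (List.mem_cons_of_mem _ hb)) c

theorem cols_le {M : ℕ} (hM : 0 < M) : ∀ (T : List (List ℕ)) (gz : List ℤ),
    ∀ b ∈ cols M T gz, b ≤ M
  | [], _ => by simp [cols]
  | _ :: _, [] => by simp [cols]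
  | t :: ts, a :: gz => by
    intro b hb
    simp only [cols] at hb
    split_ifs at hb with h
    · exact cols_le hM ts gz b hb
    · exact axpy_le hM a t _ (cols_le hM ts gz) b hb

theorem cols_cast {M : ℕ} (hM : 0 < M) (c : ℕ) : ∀ (n : ℕ) (T : List (List ℕ)) (gz : List ℤ),
    T.length = n → gz.length = n → (∀ t ∈ T, ∀ b ∈ t, b ≤ M) →
    (((cols M T gz).getD c 0 : ℕ) : ZMod M) =
      ∑ i ∈ range n, ((gz.getD i 0 : ℤ) : ZMod M) * (((T.getD i []).getD c 0 : ℕ) : ZMod M)
  | 0, T, gz => fun h1 h2 _ => by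
    obtain rfl := List.length_eq_zero_iff.1 h1
    simp [cols]
  | n + 1, T, gz => fun h1 h2 h3 => by
    obtain ⟨t, ts, rfl⟩ := List.exists_cons_of_length_eq_add_one h1
    obtain ⟨a, gs, rfl⟩ := List.exists_cons_of_length_eq_add_one h2
    have ih := cols_cast hM c n ts gs (by simpa using h1) (by simpa using h2)
      (fun t ht => h3 t (List.mem_cons_of_mem _ ht))
    rw [sum_range_succ']
    simp only [List.getD_cons_succ, List.getD_cons_zero]
    rw [← ih]
    simp only [cols]
    split_ifs with h
    · rw [h]; simp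
    · rw [axpy_cast hM a t _ (h3 t List.mem_cons_self) c]
      ring

theorem dotM_cast {M : ℕ} : ∀ (n : ℕ) (h : List ℤ) (c : List ℕ), h.length = n →
    (∀ b ∈ c, b ≤ M) → ((dotM M h c : ℕ) : ZMod M) =
      ∑ j ∈ range n, ((h.getD j 0 : ℤ) : ZMod M) * ((c.getD j 0 : ℕ) : ZMod M)
  | 0, h, c => fun h1 _ => by
    obtain rfl := List.length_eq_zero_iff.1 h1
    simp [dotM]
  | n + 1, h, [] => fun h1 _ => by
    obtain ⟨a, hs, rfl⟩ := List.exists_cons_of_length_eq_add_one h1
    simp [dotM]
  | n + 1, h, x :: c => fun h1 h2 => by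
    obtain ⟨a, hs, rfl⟩ := List.exists_cons_of_length_eq_add_one h1
    have ih := dotM_cast n hs c (by simpa using h1) (fun b hb => h2 b (List.mem_cons_of_mem _ hb))
    rw [sum_range_succ']
    simp only [List.getD_cons_succ, List.getD_cons_zero]
    rw [← ih]
    simp only [dotM]
    change ((smul M a x + dotM M hs c : ℕ) : ZMod M) = _
    rw [Nat.cast_add, smul_cast a (h2 x List.mem_cons_self)]
    ring

/-! ### polynomials -/

open Polynomial
open Pool.Agent.TH389.BL (toP ev evv)

theorem evZ_padd (p r : List ℤ) (x : ℤ) : evZ (padd p r) x = evZ p x + evZ r x := by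
  induction p generalizing r with
  | nil => simp [padd, evZ]
  | cons a p ih =>
    cases r with
    | nil => simp [padd, evZ]
    | cons b r => simp only [padd, evZ, ih]; ring

theorem toP_padd (p r : List ℤ) : toP (padd p r) = toP p + toP r := by
  induction p generalizing r with
  | nil => simp [padd, toP]
  | cons a p ih =>
    cases r with
    | nil => simp [padd, toP]
    | cons b r => simp only [padd, toP, ih, C_add]; ring

theorem eval_toP (p : List ℤ) (x : ℤ) : (toP p).eval x = evZ p x := by
  induction p with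
  | nil => simp [toP, evZ]
  | cons a p ih => simp [toP, evZ, ih]

theorem nP_toP_le (p : List ℤ) : nP (toP p) ≤ nrm p := by
  induction p with
  | nil => simp [toP, nP_zero]
  | cons a p ih =>
    simp only [toP, nrm]
    refine (nP_add_le _ _).trans ?_
    rw [nP_C, nP_X_mul]
    omega

theorem natDegree_toP_le (p : List ℤ) : (toP p).natDegree ≤ p.length := by
  induction p with
  | nil => simp [toP]
  | cons a p ih =>
    simp only [toP, List.length_cons]
    refine (natDegree_add_le _ _).trans ?_
    rw [natDegree_C]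
    have := natDegree_mul_le (p := (X : ℤ[X])) (q := toP p)
    rw [natDegree_X] at this
    omega

theorem evZ_sum (W : ℤ) : ∀ (n : ℕ) (v : List ℤ), v.length ≤ n →
    evZ v W = ∑ c ∈ range n, v.getD c 0 * W ^ c
  | n, [] => fun _ => by simp [evZ]
  | 0, a :: v => fun h => by simp at h
  | n + 1, a :: v => fun h => by
    rw [sum_range_succ']
    simp only [List.getD_cons_succ, List.getD_cons_zero, evZ]
    rw [evZ_sum W n v (by simpa using h), mul_sum]
    rw [add_comm, pow_zero, mul_one]
    congr 1
    refine sum_congr rfl fun c _ => ?_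
    ring

theorem pkv_sum (B W : ℤ) (n : ℕ) (g : List (List ℤ)) (h : g.length ≤ n) :
    pkv B W g = ∑ c ∈ range n, evZ (g.getD c []) B * W ^ c := by
  unfold pkv
  rw [evZ_sum W n _ (by simpa using h)]
  refine sum_congr rfl fun c _ => ?_
  have := List.getD_map (l := g) (n := c) (d := []) (f := fun p => evZ p B)
  simp only [evZ] at this
  rw [this]

/-- all `PQ n` have no duplicates and no equal neighbours -/
theorem PQ_ok : ∀ n : ℕ, (PQ n).Nodup ∧ ∀ r ∈ PQ n, adjEq r = false
  | 0 => by simp [PQ]
  | 1 => by simp [PQ]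
  | 2 => by decide
  | 3 => by decide
  | 4 => by decide
  | 5 => by decide
  | 6 => by decide
  | n + 7 => by simp [PQ]

theorem coefT_cons (C : List ℕ) (p : List ℤ × List ℕ) (t : Terms) (c : List ℕ) :
    coefT C (p :: t) c = if rst C p.2 = c then padd p.1 (coefT C t c) else coefT C t c := rfl

theorem nP_coefT_le (C : List ℕ) (t : Terms) (c : List ℕ) :
    nP (toP (coefT C t c)) ≤ t.foldr (fun p acc => Nat.add (nrm p.1) acc) 0 := by
  induction t with
  | nil => simp [coefT, toP, nP_zero]
  | cons p t ih =>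
    rw [coefT_cons, List.foldr_cons]
    change _ ≤ nrm p.1 + t.foldr (fun p acc => Nat.add (nrm p.1) acc) 0
    split_ifs with h
    · rw [toP_padd]
      have := nP_toP_le p.1
      exact (nP_add_le _ _).trans (by omega)
    · omega

theorem natDegree_coefT_le (C : List ℕ) (t : Terms) (c : List ℕ) (d : ℕ)
    (h : ∀ p ∈ t, p.1.length ≤ d) : (toP (coefT C t c)).natDegree ≤ d := by
  induction t with
  | nil => simp [coefT, toP]
  | cons p t ih =>
    have ih' := ih fun p hp => h p (List.mem_cons_of_mem _ hp)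
    rw [coefT_cons]
    split_ifs with h1
    · rw [toP_padd]
      refine (natDegree_add_le _ _).trans ?_
      have := natDegree_toP_le p.1
      have := h p List.mem_cons_self
      omega
    · exact ih'

/-- the packed table entry -/
theorem packT_eq (τ : Ty) (B W : ℤ) (Wp : List ℤ) (b b' : List ℕ)
    (hW : ∀ c, c < (PQ τ.C.length).length → Wp.getD c 0 = W ^ c)
    (ht : okT τ.C (PQ τ.C.length) (tab τ b b') = true) :
    packT τ B Wp b b' = ∑ c ∈ range (PQ τ.C.length).length,
      evZ (coefT τ.C (tab τ b b') ((PQ τ.C.length).getD c [])) B * W ^ c := by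
  unfold packT
  unfold okT at ht
  generalize tab τ b b' = t at ht
  induction t with
  | nil => simp [coefT, evZ]
  | cons p t ih =>
    rw [List.all_cons, Bool.and_eq_true] at ht
    obtain ⟨h1, h2⟩ := ht
    obtain ⟨hnd, hadj⟩ := PQ_ok τ.C.length
    rw [List.foldr_cons, ih h2]
    have hsplit : ∀ c, evZ (coefT τ.C (p :: t) ((PQ τ.C.length).getD c [])) B * W ^ c =
        (if rst τ.C p.2 = (PQ τ.C.length).getD c [] then evZ p.1 B * W ^ c else 0) +
        evZ (coefT τ.C t ((PQ τ.C.length).getD c [])) B * W ^ c := by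
      intro c
      rw [coefT_cons]
      split_ifs with h
      · rw [evZ_padd]; ring
      · ring
    rw [sum_congr rfl fun c _ => hsplit c, sum_add_distrib]
    simp only
    by_cases ha : adjEq (rst τ.C p.2) = true
    · rw [if_pos ha]
      have : ∑ c ∈ range (PQ τ.C.length).length,
          (if rst τ.C p.2 = (PQ τ.C.length).getD c [] then evZ p.1 B * W ^ c else 0) = 0 := by
        apply sum_eq_zero
        intro c hc
        rw [if_neg]
        intro h
        have h3 : (PQ τ.C.length).getD c [] ∈ PQ τ.C.length := by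
          rw [List.getD_eq_getElem _ _ (mem_range.1 hc)]
          exact List.getElem_mem _
        have := hadj _ h3
        rw [← h, ha] at this
        exact absurd this (by simp)
      rw [this, zero_add]
    · rw [if_neg ha]
      have hmem : rst τ.C p.2 ∈ PQ τ.C.length := by
        simp only [Bool.or_eq_true] at h1
        rcases h1 with h | h
        · exact absurd h ha
        · exact List.contains_iff_mem.1 h
      congr 1
      have hidx : (PQ τ.C.length).idxOf (rst τ.C p.2) < (PQ τ.C.length).length :=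
        List.idxOf_lt_length_iff.2 hmem
      rw [sum_eq_single ((PQ τ.C.length).idxOf (rst τ.C p.2))]
      · rw [if_pos, hW _ hidx]
        rw [List.getD_eq_getElem _ _ hidx]
        exact (List.getElem_idxOf hidx).symm
      · intro c hc hne
        rw [if_neg]
        intro h
        apply hne
        rw [h, List.getD_eq_getElem _ _ (mem_range.1 hc)]
        exact (hnd.idxOf_getElem c (mem_range.1 hc)).symm
      · intro h
        exact absurd (mem_range.2 hidx) h

/-- the polynomial of a list of digits -/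
noncomputable def toN : List ℕ → ℤ[X]
  | [] => 0
  | a :: s => C (a : ℤ) + X * toN s

theorem eval_toN (s : List ℕ) (x : ℕ) : (toN s).eval (x : ℤ) = (valN x s : ℤ) := by
  induction s with
  | nil => simp [toN, valN]
  | cons a s ih => simp [toN, valN, ih]

theorem natDegree_toN (s : List ℕ) : (toN s).natDegree ≤ s.length := by
  induction s with
  | nil => simp [toN]
  | cons a p ih =>
    simp only [toN, List.length_cons]
    refine (natDegree_add_le _ _).trans ?_
    rw [natDegree_C]
    have := natDegree_mul_le (p := (X : ℤ[X])) (q := toN p)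
    rw [natDegree_X] at this
    omega

theorem natDegree_comp4 (s : List ℕ) : ((toN s).comp (X - C 4)).natDegree ≤ s.length := by
  refine natDegree_comp_le.trans ?_
  rw [natDegree_X_sub_C, mul_one]
  exact natDegree_toN s

theorem nP_comp4 (s : List ℕ) (h : ∀ a ∈ s, a < 65536) :
    nP ((toN s).comp (X - C 4)) ≤ 65536 * s.length * 5 ^ s.length := by
  induction s with
  | nil => simp [toN, nP_zero]
  | cons a s ih =>
    have ih' := ih fun a ha => h a (List.mem_cons_of_mem _ ha)
    have e : (toN (a :: s)).comp (X - C 4) = C (a : ℤ) + (X * (toN s).comp (X - C 4) -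
        C 4 * (toN s).comp (X - C 4)) := by
      have : toN (a :: s) = C (a : ℤ) + X * toN s := rfl
      rw [this, add_comp, C_comp, mul_comp, X_comp]
      ring
    rw [e]
    refine (nP_add_le _ _).trans ?_
    have h1 := nP_sub_le (X * (toN s).comp (X - C 4)) (C 4 * (toN s).comp (X - C 4))
    rw [nP_X_mul, nP_C_mul] at h1
    have h2 : (4 : ℤ).natAbs = 4 := rfl
    rw [h2] at h1
    have h3 := h a List.mem_cons_self
    rw [nP_C, Int.natAbs_natCast, List.length_cons]
    have h4 : 1 ≤ 5 ^ s.length := Nat.one_le_pow _ _ (by norm_num)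
    have h5 : 65536 * (s.length + 1) * 5 ^ (s.length + 1) =
        5 * (65536 * s.length * 5 ^ s.length) + 65536 * 5 * 5 ^ s.length := by ring
    omega

theorem eval_natAbs_le (P : ℤ[X]) (B N : ℕ) (hB : 1 ≤ B) (hN : P.natDegree ≤ N) :
    (P.eval (B : ℤ)).natAbs ≤ nP P * B ^ N := by
  rw [eval_eq_sum_range' (n := N + 1) (by omega), nP_range P (N + 1) (by omega), sum_mul]
  refine (Int.natAbs_sum_le _ _).trans ?_
  refine sum_le_sum fun i hi => ?_
  rw [Int.natAbs_mul, Int.natAbs_pow, Int.natAbs_natCast]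
  refine Nat.mul_le_mul_left _ (Nat.pow_le_pow_right hB ?_)
  have := mem_range.1 hi
  omega

/-- digits of size smaller than `W` are determined -/
theorem digits_zero {W : ℕ} (hW : 0 < W) : ∀ (n N : ℕ) (u : ℕ → ℤ), n ≤ N →
    (∀ c < n, (u c).natAbs < W) → ((W : ℤ) ^ N ∣ ∑ c ∈ range n, u c * (W : ℤ) ^ c) →
    ∀ c < n, u c = 0
  | 0, N, u => fun _ _ _ c hc => by omega
  | n + 1, 0, u => fun h _ _ => by omega
  | n + 1, N + 1, u => fun hn hu hd => by
    rw [sum_range_succ', pow_zero, mul_one] at hd
    have e : ∑ k ∈ range n, u (k + 1) * (W : ℤ) ^ (k + 1) =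
        W * ∑ k ∈ range n, u (k + 1) * (W : ℤ) ^ k := by
      rw [mul_sum]
      refine sum_congr rfl fun k _ => ?_
      ring
    rw [e] at hd
    have h0 : (W : ℤ) ∣ u 0 := by
      have h1 : (W : ℤ) ∣ W * ∑ k ∈ range n, u (k + 1) * (W : ℤ) ^ k + u 0 :=
        (dvd_pow_self _ (by omega)).trans hd
      exact (Int.dvd_add_right (Dvd.intro _ rfl)).1 h1
    have h1 : u 0 = 0 := small_dvd (hu 0 (by omega)) h0
    rw [h1, add_zero, pow_succ'] at hd
    have h2 : (W : ℤ) ^ N ∣ ∑ k ∈ range n, u (k + 1) * (W : ℤ) ^ k :=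
      Int.dvd_of_mul_dvd_mul_left (by exact_mod_cast hW.ne') hd
    have ih := digits_zero hW n N (fun k => u (k + 1)) (by omega)
      (fun c hc => hu (c + 1) (by omega)) h2
    intro c hc
    cases c with
    | zero => exact h1
    | succ c => exact ih c (by omega)

end ChkA

end Pool.Agent.N467.BL
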