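import Pool.Agent.N467.BL.Defs

/-! Counting colourings (subtask BLC/1). -/

set_option autoImplicit false

namespace Pool.Agent.N467.BL

variable {V : Type}

/-- free one more vertex -/
theorem Nc_insert [Finite V] (k : ℕ) (G : SimpleGraph V) (I : Set V) (z : V) (hz : z ∉ I)
    (c : V → Fin k) [DecidableEq V] :
    Nc k G (insert z I) c = ∑ x : Fin k, Nc k G I (Function.update c z x) := by
  unfold Nc
  rw [← Nat.card_sigma]
  refine Nat.card_congr
    { toFun := fun ψ => ⟨ψ.1 z, ψ.1, ?_, ψ.2.2⟩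
      invFun := fun q => ⟨q.2.1, ?_, q.2.2.2⟩
      left_inv := ?_
      right_inv := ?_ }
  · intro x hx
    by_cases h : x = z
    · subst h
      rw [Function.update_self]
    · rw [Function.update_of_ne h]
      exact ψ.2.1 x (fun h' => (Set.mem_insert_iff.1 h').elim h hx)
  · intro x hx
    rw [Set.mem_insert_iff, not_or] at hx
    have h1 := q.2.2.1 x hx.2
    rwa [Function.update_of_ne hx.1] at h1
  · intro ψ
    rfl
  · rintro ⟨x, ψ, h1, h2⟩
    have h3 : ψ z = x := by
      rw [h1 z hz, Function.update_self]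
    subst h3
    rfl

/-- two graphs which share only fixed vertices -/
theorem Nc_prod [Finite V] (k : ℕ) (G H : SimpleGraph V) (I J : Set V)
    (hG : ∀ x y, G.Adj x y → x ∉ J) (hH : ∀ x y, H.Adj x y → x ∉ I) (hIJ : Disjoint I J)
    (c : V → Fin k) : Nc k (G ⊔ H) (I ∪ J) c = Nc k G I c * Nc k H J c := by
  classical
  unfold Nc
  rw [← Nat.card_prod]
  refine Nat.card_congr
    { toFun := fun ψ => (⟨fun x => if x ∈ I then ψ.1 x else c x, ?_, ?_⟩,
        ⟨fun x => if x ∈ J then ψ.1 x else c x, ?_, ?_⟩)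
      invFun := fun q => ⟨fun x => if x ∈ I then q.1.1 x else if x ∈ J then q.2.1 x else c x, ?_, ?_⟩
      left_inv := ?_
      right_inv := ?_ }
  · intro x hx
    exact if_neg hx
  · have key : ∀ x, x ∉ J → (if x ∈ I then ψ.1 x else c x) = ψ.1 x := by
      intro x hx
      by_cases h : x ∈ I
      · rw [if_pos h]
      · rw [if_neg h, ψ.2.1 x (fun h' => h'.elim h hx)]
    intro x y hxy
    show (if x ∈ I then ψ.1 x else c x) ≠ (if y ∈ I then ψ.1 y else c y)
    rw [key x (hG x y hxy), key y (hG y x hxy.symm)]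
    exact ψ.2.2 x y (Or.inl hxy)
  · intro x hx
    exact if_neg hx
  · have key : ∀ x, x ∉ I → (if x ∈ J then ψ.1 x else c x) = ψ.1 x := by
      intro x hx
      by_cases h : x ∈ J
      · rw [if_pos h]
      · rw [if_neg h, ψ.2.1 x (fun h' => h'.elim hx h)]
    intro x y hxy
    show (if x ∈ J then ψ.1 x else c x) ≠ (if y ∈ J then ψ.1 y else c y)
    rw [key x (hH x y hxy), key y (hH y x hxy.symm)]
    exact ψ.2.2 x y (Or.inr hxy)
  · intro x hx
    have h1 : x ∉ I := fun h => hx (Or.inl h)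
    have h2 : x ∉ J := fun h => hx (Or.inr h)
    show (if x ∈ I then q.1.1 x else if x ∈ J then q.2.1 x else c x) = c x
    rw [if_neg h1, if_neg h2]
  · have k1 : ∀ x, x ∉ J → (if x ∈ I then q.1.1 x else if x ∈ J then q.2.1 x else c x) =
        q.1.1 x := by
      intro x hx
      by_cases h : x ∈ I
      · rw [if_pos h]
      · rw [if_neg h, if_neg hx, q.1.2.1 x h]
    have k2 : ∀ x, x ∉ I → (if x ∈ I then q.1.1 x else if x ∈ J then q.2.1 x else c x) =
        q.2.1 x := by
      intro x hx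
      by_cases h : x ∈ J
      · rw [if_neg hx, if_pos h]
      · rw [if_neg hx, if_neg h, q.2.2.1 x h]
    intro x y hxy
    show (if x ∈ I then q.1.1 x else if x ∈ J then q.2.1 x else c x) ≠
      (if y ∈ I then q.1.1 y else if y ∈ J then q.2.1 y else c y)
    rcases hxy with hxy | hxy
    · rw [k1 x (hG x y hxy), k1 y (hG y x hxy.symm)]
      exact q.1.2.2 x y hxy
    · rw [k2 x (hH x y hxy), k2 y (hH y x hxy.symm)]
      exact q.2.2.2 x y hxy
  · intro ψ
    apply Subtype.ext
    funext x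
    show (if x ∈ I then (if x ∈ I then ψ.1 x else c x) else
      if x ∈ J then (if x ∈ J then ψ.1 x else c x) else c x) = ψ.1 x
    by_cases h1 : x ∈ I
    · rw [if_pos h1, if_pos h1]
    · by_cases h2 : x ∈ J
      · rw [if_neg h1, if_pos h2, if_pos h2]
      · rw [if_neg h1, if_neg h2, ψ.2.1 x (fun h' => h'.elim h1 h2)]
  · rintro ⟨⟨q1, a1, a2⟩, ⟨q2, b1, b2⟩⟩
    apply Prod.ext
    · apply Subtype.ext
      funext x
      show (if x ∈ I then (if x ∈ I then q1 x else if x ∈ J then q2 x else c x) else c x) = q1 x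
      by_cases h1 : x ∈ I
      · rw [if_pos h1, if_pos h1]
      · rw [if_neg h1, a1 x h1]
    · apply Subtype.ext
      funext x
      show (if x ∈ J then (if x ∈ I then q1 x else if x ∈ J then q2 x else c x) else c x) = q2 x
      by_cases h2 : x ∈ J
      · have h1 : x ∉ I := fun h => Set.disjoint_left.1 hIJ h h2
        rw [if_pos h2, if_neg h1, if_pos h2]
      · rw [if_neg h2, b1 x h2]

theorem ringG_adj {r : List V} {x y : V} (h : (ringG r).Adj x y) :
    x ≠ y ∧ ((x, y) ∈ r.zip (r.rotate 1) ∨ (y, x) ∈ r.zip (r.rotate 1)) := by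
  unfold ringG at h
  exact (SimpleGraph.fromRel_adj _ _ _).1 h

theorem adj_ringG {r : List V} {x y : V} (hne : x ≠ y) (h : (x, y) ∈ r.zip (r.rotate 1)) :
    (ringG r).Adj x y := by
  unfold ringG
  exact (SimpleGraph.fromRel_adj _ _ _).2 ⟨hne, Or.inl h⟩

theorem mem_of_zip {r : List V} {x y : V} (h : (x, y) ∈ r.zip (r.rotate 1)) : x ∈ r ∧ y ∈ r := by
  have h1 := List.of_mem_zip h
  exact ⟨h1.1, List.mem_rotate.1 h1.2⟩

theorem map_zip_mem {κ : Type} (f : V → κ) {r : List V} {x y : V}
    (h : (x, y) ∈ r.zip (r.rotate 1)) : (f x, f y) ∈ (r.map f).zip ((r.map f).rotate 1) := by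
  rw [← List.map_rotate, List.zip_map]
  exact List.mem_map.2 ⟨(x, y), h, rfl⟩

/-- edges between fixed vertices of different colours do not matter -/
theorem Nc_ring (k : ℕ) (G : SimpleGraph V) (I : Set V) (r : List V)
    (hr : ∀ x ∈ r, x ∉ I) (c : V → Fin k) (hc : Pr (r.map c)) :
    Nc k (G ⊔ ringG r) I c = Nc k G I c := by
  unfold Nc
  refine Nat.card_congr (Equiv.subtypeEquivRight fun ψ => ?_)
  constructor
  · rintro ⟨h1, h2⟩
    exact ⟨h1, fun x y hxy => h2 x y (Or.inl hxy)⟩
  · rintro ⟨h1, h2⟩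
    refine ⟨h1, fun x y hxy => ?_⟩
    rcases hxy with hxy | hxy
    · exact h2 x y hxy
    · obtain ⟨-, h | h⟩ := ringG_adj hxy
      · obtain ⟨hx, hy⟩ := mem_of_zip h
        rw [h1 x (hr x hx), h1 y (hr y hy)]
        exact hc _ (map_zip_mem c h)
      · obtain ⟨hy, hx⟩ := mem_of_zip h
        rw [h1 x (hr x hx), h1 y (hr y hy)]
        exact (hc _ (map_zip_mem c h)).symm

theorem mem_cyc {l : List V} {x y : V} : (x, y) ∈ l.zip (l.rotate 1) ↔
    ∃ i, i < l.length ∧ l[i]? = some x ∧ l[(i + 1) % l.length]? = some y := by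
  rw [List.mem_iff_getElem?]
  constructor
  · rintro ⟨i, hi⟩
    rw [List.getElem?_zip_eq_some] at hi
    obtain ⟨h1, h2⟩ := hi
    have hlt : i < l.length := by
      by_contra hcon
      rw [List.getElem?_eq_none (by omega)] at h1
      simp at h1
    rw [List.getElem?_rotate hlt] at h2
    exact ⟨i, hlt, h1, h2⟩
  · rintro ⟨i, hlt, h1, h2⟩
    refine ⟨i, ?_⟩
    rw [List.getElem?_zip_eq_some, List.getElem?_rotate hlt]
    exact ⟨h1, h2⟩

theorem cyc_ne {l : List V} (hnd : l.Nodup) (h2 : 2 ≤ l.length) {x y : V}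
    (h : (x, y) ∈ l.zip (l.rotate 1)) : x ≠ y := by
  obtain ⟨i, hi, h3, h4⟩ := mem_cyc.1 h
  rintro rfl
  have h5 : l[i]? = l[(i + 1) % l.length]? := by rw [h3, h4]
  have h6 := (List.getElem?_inj hi hnd).1 h5
  rcases Nat.lt_or_ge (i + 1) l.length with h7 | h7
  · rw [Nat.mod_eq_of_lt h7] at h6; omega
  · have h8 : i + 1 = l.length := by omega
    rw [h8, Nat.mod_self] at h6; omega

/-- no colouring if two neighbours on a fixed cycle of length at least two have the same colour -/
theorem Nc_zero (k : ℕ) (G : SimpleGraph V) (I : Set V) (r : List V) (hnd : r.Nodup)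
    (h2 : 2 ≤ r.length) (hG : ringG r ≤ G) (hr : ∀ x ∈ r, x ∉ I) (c : V → Fin k)
    (hc : ¬ Pr (r.map c)) : Nc k G I c = 0 := by
  unfold Pr at hc
  push Not at hc
  obtain ⟨e, he, hee⟩ := hc
  rw [← List.map_rotate, List.zip_map] at he
  obtain ⟨⟨x, y⟩, hxy, rfl⟩ := List.mem_map.1 he
  have hne := cyc_ne hnd h2 hxy
  obtain ⟨hx, hy⟩ := mem_of_zip hxy
  have hadj : G.Adj x y := hG (adj_ringG hne hxy)
  unfold Nc
  have : IsEmpty {ψ : V → Fin k // (∀ x, x ∉ I → ψ x = c x) ∧
      ∀ x y, G.Adj x y → ψ x ≠ ψ y} := by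
    refine ⟨?_⟩
    rintro ⟨ψ, h3, h4⟩
    apply h4 x y hadj
    rw [h3 x (hr x hx), h3 y (hr y hy)]
    exact hee
  exact Nat.card_of_isEmpty

theorem cyc_rotate {l : List V} {x y : V} :
    (x, y) ∈ (l.rotate 1).zip ((l.rotate 1).rotate 1) ↔ (x, y) ∈ l.zip (l.rotate 1) := by
  rw [mem_cyc, mem_cyc, List.length_rotate]
  constructor
  · rintro ⟨i, hi, h1, h2⟩
    rw [List.getElem?_rotate hi] at h1
    rw [List.getElem?_rotate (Nat.mod_lt _ (by omega))] at h2
    exact ⟨(i + 1) % l.length, Nat.mod_lt _ (by omega), h1, h2⟩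
  · rintro ⟨j, hj, h1, h2⟩
    by_cases h0 : j = 0
    · subst h0
      have e1 : (l.length - 1 + 1) % l.length = 0 := by
        rw [Nat.sub_add_cancel (by omega), Nat.mod_self]
      refine ⟨l.length - 1, by omega, ?_, ?_⟩
      · rw [List.getElem?_rotate (by omega), e1]; exact h1
      · rw [e1, List.getElem?_rotate hj]; exact h2
    · have e1 : (j - 1 + 1) % l.length = j := by
        rw [Nat.sub_add_cancel (by omega), Nat.mod_eq_of_lt hj]
      refine ⟨j - 1, by omega, ?_, ?_⟩
      · rw [List.getElem?_rotate (by omega), e1]; exact h1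
      · rw [e1, List.getElem?_rotate hj]; exact h2

theorem ringG_rotate (l : List V) : ringG (l.rotate 1) = ringG l := by
  unfold ringG
  congr 1
  funext x y
  exact propext cyc_rotate

theorem cyc_reverse {l : List V} {x y : V}
    (h : (x, y) ∈ (l.reverse).zip ((l.reverse).rotate 1)) : (y, x) ∈ l.zip (l.rotate 1) := by
  rw [mem_cyc, List.length_reverse] at h
  obtain ⟨i, hi, h1, h2⟩ := h
  rw [List.getElem?_reverse hi] at h1
  rw [List.getElem?_reverse (Nat.mod_lt _ (by omega))] at h2
  rw [mem_cyc]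
  rcases Nat.lt_or_ge (i + 1) l.length with h3 | h3
  · rw [Nat.mod_eq_of_lt h3] at h2
    refine ⟨l.length - 1 - (i + 1), by omega, h2, ?_⟩
    have e1 : l.length - 1 - (i + 1) + 1 = l.length - 1 - i := by omega
    rw [e1, Nat.mod_eq_of_lt (by omega)]
    exact h1
  · have h4 : i + 1 = l.length := by omega
    rw [h4, Nat.mod_self] at h2
    have e1 : l.length - 1 - i = 0 := by omega
    rw [e1] at h1
    refine ⟨l.length - 1, by omega, by simpa using h2, ?_⟩
    have e2 : (l.length - 1 + 1) % l.length = 0 := by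
      rw [Nat.sub_add_cancel (by omega), Nat.mod_self]
    rw [e2]
    exact h1

theorem ringG_reverse (l : List V) : ringG l.reverse = ringG l := by
  ext x y
  constructor
  · intro h
    obtain ⟨hne, h | h⟩ := ringG_adj h
    · exact (adj_ringG hne.symm (cyc_reverse h)).symm
    · exact adj_ringG hne (cyc_reverse h)
  · intro h
    obtain ⟨hne, h | h⟩ := ringG_adj h
    · rw [← l.reverse_reverse] at h
      exact (adj_ringG hne.symm (cyc_reverse h)).symm
    · rw [← l.reverse_reverse] at h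
      exact adj_ringG hne (cyc_reverse h)

theorem ringG_mem {r : List V} {x y : V} (h : (ringG r).Adj x y) : x ∈ r := by
  obtain ⟨-, h | h⟩ := ringG_adj h
  · exact (mem_of_zip h).1
  · exact (mem_of_zip h).2

/-- the ring has all its vertices different, at least two, its edges belong to the graph, and all
edges of the graph have their ends in the vertex set, which contains the ring -/
theorem Disc.inv {w : ℕ} {G : SimpleGraph V} {S : Set V} {r : List V} (h : Disc w G S r) :
    r.Nodup ∧ 2 ≤ r.length ∧ r.length ≤ w ∧ ringG r ≤ G ∧ (∀ x ∈ r, x ∈ S) ∧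
      ∀ x y, G.Adj x y → x ∈ S := by
  induction h with
  | face r h1 h2 h3 =>
    exact ⟨h1, h2, h3, le_refl _, fun x hx => hx, fun x y hxy => ringG_mem hxy⟩
  | rotate G S u r h ih =>
    obtain ⟨h1, h2, h3, h4, h5, h6⟩ := ih
    have e : r ++ [u] = (u :: r).rotate 1 := by simp
    rw [e]
    refine ⟨List.nodup_rotate.2 h1, by rwa [List.length_rotate], by rwa [List.length_rotate],
      by rwa [ringG_rotate], fun x hx => h5 x (List.mem_rotate.1 hx), h6⟩
  | mirror G S r h ih =>
    obtain ⟨h1, h2, h3, h4, h5, h6⟩ := ih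
    exact ⟨List.nodup_reverse.2 h1, by rwa [List.length_reverse], by rwa [List.length_reverse],
      by rwa [ringG_reverse], fun x hx => h5 x (List.mem_reverse.1 hx), h6⟩
  | glue G H S T P Q R E F hG hH hST hE hF hnd h2 hw ihG ihH =>
    obtain ⟨-, -, -, -, g5, g6⟩ := ihG
    obtain ⟨-, -, -, -, k5, k6⟩ := ihH
    have hP : ∀ x ∈ P, x ∈ S := fun x hx => g5 x (List.mem_append_left _ hx)
    have hring : ∀ x ∈ E ++ R ++ F ++ Q, x ∈ S ∪ T := by
      intro x hx
      simp only [List.mem_append] at hx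
      rcases hx with ((hx | hx) | hx) | hx
      · left
        rcases hE with rfl | rfl
        · simp at hx
        · exact hP x (List.mem_of_mem_take hx)
      · exact Or.inr (k5 x (List.mem_append_right _ hx))
      · left
        rcases hF with rfl | rfl
        · simp at hx
        · exact hP x (List.mem_reverse.1 (List.mem_of_mem_take hx))
      · exact Or.inl (g5 x (List.mem_append_right _ hx))
    refine ⟨hnd, h2, hw, le_sup_right, hring, ?_⟩
    intro x y hxy
    rcases hxy with (hxy | hxy) | hxy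
    · exact Or.inl (g6 x y hxy)
    · exact Or.inr (k6 x y hxy)
    · exact hring x (ringG_mem hxy)

end Pool.Agent.N467.BL
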