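import Mathlib

/-! Glued discs and their colourings: definitions. -/

set_option autoImplicit false

namespace Pool.Agent.N467.BL

open Polynomial

/-- The edges between consecutive elements of the cyclic list `r`. -/
def ringG {V : Type} (r : List V) : SimpleGraph V :=
  SimpleGraph.fromRel fun u v => (u, v) ∈ r.zip (r.rotate 1)

/-- Discs glued together: `Disc w G S r` says that the graph `G` with vertex set `S` is drawn in a
disc whose boundary is the cycle through the vertices `r`. -/
inductive Disc {V : Type} (w : ℕ) : SimpleGraph V → Set V → List V → Prop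
  | face (r : List V) : r.Nodup → 2 ≤ r.length → r.length ≤ w → Disc w (ringG r) {x | x ∈ r} r
  | rotate (G : SimpleGraph V) (S : Set V) (u : V) (r : List V) :
      Disc w G S (u :: r) → Disc w G S (r ++ [u])
  | mirror (G : SimpleGraph V) (S : Set V) (r : List V) : Disc w G S r → Disc w G S r.reverse
  | glue (G H : SimpleGraph V) (S T : Set V) (P Q R E F : List V) :
      Disc w G S (P ++ Q) → Disc w H T (P.reverse ++ R) → (∀ x, x ∈ S → x ∈ T → x ∈ P) →
      (E = [] ∨ E = P.take 1) → (F = [] ∨ F = P.reverse.take 1) → (E ++ R ++ F ++ Q).Nodup →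
      2 ≤ (E ++ R ++ F ++ Q).length → (E ++ R ++ F ++ Q).length ≤ w →
      Disc w (G ⊔ H ⊔ ringG (E ++ R ++ F ++ Q)) (S ∪ T) (E ++ R ++ F ++ Q)

/-- the colours `d` of the vertices of a ring: neighbours have different colours -/
def Pr {κ : Type} (d : List κ) : Prop := ∀ e ∈ d.zip (d.rotate 1), e.1 ≠ e.2

/-- number of colourings with `k` colours which are proper on `G` and agree with `c` outside `I` -/
noncomputable def Nc {V : Type} (k : ℕ) (G : SimpleGraph V) (I : Set V) (c : V → Fin k) : ℕ :=
  Nat.card {ψ : V → Fin k // (∀ x, x ∉ I → ψ x = c x) ∧ ∀ x y, G.Adj x y → ψ x ≠ ψ y}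

end Pool.Agent.N467.BL
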