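import Pool.Agent.N467.BL.RepDefs

/-! The vector of two glued discs (subtask BLC/4, helper756): everything except the soundness of the
tables. -/

set_option autoImplicit false

namespace Pool.Agent.N467.BL.Glue

open Pool.Agent.N467.BL

open Polynomial Finset
open Pool.Agent.TH389.BL (toP)

open Classical in
/-- the statement of `tab_sound` for the colours `Fin k` -/
def TabSound : Prop := ∀ (k : ℕ) (τ : Ty) (b b' : List ℕ),
    okB (τ.s + τ.m) b = true → okB (τ.s + τ.l) b' = true → τ.C.Nodup → okE τ = true →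
    okT τ.C (PQ τ.C.length) (tab τ b b') = true →
    ∀ d : ℕ → Fin k, Pr (τ.C.map d) →
    sumD τ.D (fun d => if Pr (τ.A.map d) ∧ Pr (τ.B.map d) ∧ Rsb b (τ.A.map d) ∧
      Rsb b' (τ.B.map d) then 1 else 0) d =
    ∑ i ∈ Finset.range (PQ τ.C.length).length,
      evZ (coefT τ.C (tab τ b b') ((PQ τ.C.length).getD i [])) (k : ℤ) *
        (if Rsb ((PQ τ.C.length).getD i []) (τ.C.map d) then 1 else 0)

lemma eval_toP (p : List ℤ) (x : ℤ) : (toP p).eval x = evZ p x := by
  induction p with
  | nil => simp [toP, evZ]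
  | cons a p ih => simp [toP, evZ, ih]

lemma sumD_congr {κ : Type} [Fintype κ] (D : List ℕ) {f g : (ℕ → κ) → ℤ} (h : ∀ d, f d = g d)
    (d : ℕ → κ) : sumD D f d = sumD D g d := by
  have : f = g := funext h
  rw [this]

lemma sumD_lin {κ : Type} [Fintype κ] {ι : Type} (s : Finset ι) (a : ι → ℤ) (D : List ℕ) :
    ∀ (g : ι → (ℕ → κ) → ℤ) (d : ℕ → κ),
      sumD D (fun d => ∑ p ∈ s, a p * g p d) d = ∑ p ∈ s, a p * sumD D (g p) d := by
  induction D with
  | nil => intro g d; rfl
  | cons z D ih =>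
    intro g d
    have h1 : sumD (z :: D) (fun d => ∑ p ∈ s, a p * g p d) d =
        sumD D (fun d => ∑ p ∈ s, a p * ∑ x : κ, g p (Function.update d z x)) d := by
      change sumD D (fun d => ∑ x : κ, ∑ p ∈ s, a p * g p (Function.update d z x)) d = _
      refine sumD_congr D (fun d => ?_) d
      rw [sum_comm]
      exact sum_congr rfl fun p _ => (mul_sum _ _ _).symm
    rw [h1, ih]
    rfl

section Pos

variable {V : Type}

/-- the vertex at a position -/
def pos (U : List V) (u0 : V) (i : ℕ) : V := U.getD i u0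

lemma pos_eq {U : List V} {u0 : V} {i : ℕ} (h : i < U.length) : pos U u0 i = U[i] := by
  unfold pos
  rw [List.getD_eq_getElem _ _ h]

lemma map_pos (A B C : List V) (u0 : V) :
    (List.range' A.length B.length).map (pos (A ++ B ++ C) u0) = B := by
  apply List.ext_getElem
  · simp
  · intro i h1 h2
    rw [List.getElem_map, List.getElem_range']
    rw [pos_eq (by simp; omega)]
    rw [List.getElem_append_left (by simp; omega), List.getElem_append_right (by omega)]
    congr 1
    omega

lemma pos_inj {U : List V} (hU : U.Nodup) {u0 : V} {i j : ℕ} (hi : i < U.length)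
    (hj : j < U.length) (h : pos U u0 i = pos U u0 j) : i = j := by
  rw [pos_eq hi, pos_eq hj] at h
  exact (List.Nodup.getElem_inj_iff hU).1 h

open Classical in
/-- the colouring of the vertices given by a colouring of the positions -/
noncomputable def xt {κ : Type} (U : List V) (c : V → κ) (d : ℕ → κ) : V → κ :=
  fun x => if x ∈ U then d (U.idxOf x) else c x

lemma xt_pos {κ : Type} {U : List V} (hU : U.Nodup) (u0 : V) (c : V → κ) (d : ℕ → κ) {i : ℕ}
    (hi : i < U.length) : xt U c d (pos U u0 i) = d i := by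
  classical
  unfold xt
  rw [pos_eq hi, if_pos (List.getElem_mem hi)]
  congr 1
  exact hU.idxOf_getElem i hi

lemma xt_self {κ : Type} {U : List V} (u0 : V) (c : V → κ) :
    xt U c (fun i => c (pos U u0 i)) = c := by
  classical
  funext x
  unfold xt
  split_ifs with h
  · have h1 : U.idxOf x < U.length := List.idxOf_lt_length_iff.2 h
    show c (pos U u0 (U.idxOf x)) = c x
    rw [pos_eq h1, List.getElem_idxOf]
  · rfl

open Classical in
lemma xt_update {κ : Type} {U : List V} (hU : U.Nodup) (u0 : V) (c : V → κ) (d : ℕ → κ) {z : ℕ}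
    (hz : z < U.length) (a : κ) :
    xt U c (Function.update d z a) = Function.update (xt U c d) (pos U u0 z) a := by
  funext x
  by_cases hx : x = pos U u0 z
  · subst hx
    rw [Function.update_self, xt_pos hU u0 c _ hz, Function.update_self]
  · rw [Function.update_of_ne hx]
    unfold xt
    split_ifs with h
    · have h1 : U.idxOf x < U.length := List.idxOf_lt_length_iff.2 h
      rw [Function.update_of_ne]
      rintro rfl
      apply hx
      rw [pos_eq h1, List.getElem_idxOf]
    · rfl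

lemma map_xt {κ : Type} {U : List V} (hU : U.Nodup) (u0 : V) (c : V → κ) (d : ℕ → κ) {A : List ℕ}
    (hA : ∀ i ∈ A, i < U.length) : (A.map (pos U u0)).map (xt U c d) = A.map d := by
  rw [List.map_map]
  exact List.map_congr_left fun i hi => xt_pos hU u0 c d (hA i hi)

/-- free the vertices at the positions `D` -/
lemma free_D [Finite V] {k : ℕ} {GH : SimpleGraph V} {U : List V} (hU : U.Nodup) (u0 : V)
    (c : V → Fin k) (D : List ℕ) : ∀ (I0 : Set V) (d : ℕ → Fin k), D.Nodup →
      (∀ z ∈ D, z < U.length) → (∀ z ∈ D, pos U u0 z ∉ I0) →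
      sumD D (fun d => (Nc k GH I0 (xt U c d) : ℤ)) d =
        (Nc k GH (I0 ∪ {x | ∃ z ∈ D, x = pos U u0 z}) (xt U c d) : ℤ) := by
  classical
  induction D with
  | nil =>
    intro I0 d _ _ _
    have : I0 ∪ {x | ∃ z ∈ ([] : List ℕ), x = pos U u0 z} = I0 := by
      ext x
      simp
    rw [this]
    rfl
  | cons z D ih =>
    intro I0 d hnd hlt hI
    rw [List.nodup_cons] at hnd
    have hz : z < U.length := hlt z List.mem_cons_self
    have hzI : pos U u0 z ∉ I0 := hI z List.mem_cons_self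
    have h1 : sumD (z :: D) (fun d => (Nc k GH I0 (xt U c d) : ℤ)) d =
        sumD D (fun d => (Nc k GH (insert (pos U u0 z) I0) (xt U c d) : ℤ)) d := by
      change sumD D (fun d => ∑ x : Fin k, (Nc k GH I0 (xt U c (Function.update d z x)) : ℤ)) d = _
      refine sumD_congr D (fun d => ?_) d
      rw [Nc_insert k GH I0 _ hzI]
      push_cast
      exact sum_congr rfl fun x _ => by rw [xt_update hU u0 c d hz]
    rw [h1, ih (insert (pos U u0 z) I0) d hnd.2 (fun z' hz' => hlt z' (List.mem_cons_of_mem _ hz'))]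
    · congr 2
      ext x
      simp only [Set.mem_union, Set.mem_insert_iff, Set.mem_ofPred_eq, List.mem_cons,
        exists_eq_or_imp]
      tauto
    · intro z' hz' hmem
      rcases Set.mem_insert_iff.1 hmem with h | h
      · have := pos_inj hU (hlt z' (List.mem_cons_of_mem _ hz')) hz h
        subst this
        exact hnd.1 hz'
      · exact hI z' (List.mem_cons_of_mem _ hz') h

end Pos

section Glue

variable {V : Type}

lemma ty_pos (P Q R E F : List V) (u0 : V) (hE : E = [] ∨ E = P.take 1)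
    (hF : F = [] ∨ F = P.reverse.take 1) :
    let τ : Ty := ⟨P.length, Q.length, R.length, !E.isEmpty, !F.isEmpty⟩
    τ.A.map (pos (P ++ Q ++ R) u0) = P ++ Q ∧ τ.B.map (pos (P ++ Q ++ R) u0) = P.reverse ++ R ∧
      τ.C.map (pos (P ++ Q ++ R) u0) = E ++ R ++ F ++ Q ∧
      τ.P.map (pos (P ++ Q ++ R) u0) = P := by
  intro τ
  have hP : (List.range P.length).map (pos (P ++ Q ++ R) u0) = P := by
    have h := map_pos [] P (Q ++ R) u0
    rw [List.length_nil, List.nil_append, ← List.append_assoc, ← List.range_eq_range'] at h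
    exact h
  have hQ : (List.range' P.length Q.length).map (pos (P ++ Q ++ R) u0) = Q := map_pos P Q R u0
  have hR : (List.range' (P.length + Q.length) R.length).map (pos (P ++ Q ++ R) u0) = R := by
    have h := map_pos (P ++ Q) R [] u0
    rw [List.length_append, List.append_nil] at h
    exact h
  refine ⟨?_, ?_, ?_, hP⟩
  · change (List.range (P.length + Q.length)).map _ = _
    rw [List.range_add, List.map_append, hP]
    congr 1
    rw [← List.range'_eq_map_range]
    exact hQ
  · change ((List.range P.length).reverse ++ List.range' (P.length + Q.length) R.length).map _ = _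
    rw [List.map_append, List.map_reverse, hP, hR]
  · change ((if (!E.isEmpty) = true then (List.range P.length).take 1 else []) ++
      List.range' (P.length + Q.length) R.length ++
      (if (!F.isEmpty) = true then (List.range P.length).reverse.take 1 else []) ++
      List.range' P.length Q.length).map _ = _
    rw [List.map_append, List.map_append, List.map_append, hQ, hR]
    congr 2
    · congr 1
      rcases hE with h | h
      · rw [h]
        simp
      · by_cases h0 : E = []
        · rw [h0]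
          simp
        · rw [if_pos (by simpa using h0), List.map_take, hP, h]
    · rcases hF with h | h
      · rw [h]
        simp
      · by_cases h0 : F = []
        · rw [h0]
          simp
        · rw [if_pos (by simpa using h0), List.map_take, List.map_reverse, hP, h]

lemma mem_tyA {τ : Ty} {i : ℕ} (h : i ∈ τ.A) : i < τ.s + τ.m + τ.l := by
  unfold Ty.A at h
  rw [List.mem_range] at h
  omega

lemma mem_tyB {τ : Ty} {i : ℕ} (h : i ∈ τ.B) : i < τ.s + τ.m + τ.l := by
  unfold Ty.B at h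
  rw [List.mem_append, List.mem_reverse, List.mem_range, List.mem_range'_1] at h
  omega

lemma mem_tyP {τ : Ty} {i : ℕ} (h : i ∈ τ.P) : i < τ.s := by
  unfold Ty.P at h
  rwa [List.mem_range] at h

lemma mem_tyC {τ : Ty} {i : ℕ} (h : i ∈ τ.C) : i < τ.s + τ.m + τ.l := by
  unfold Ty.C Ty.R Ty.Q at h
  simp only [List.mem_append, List.mem_range'_1] at h
  rcases h with ((h | h) | h) | h
  · split_ifs at h
    · have := mem_tyP (List.mem_of_mem_take h)
      omega
    · simp at h
  · omega
  · split_ifs at h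
    · have := mem_tyP (List.mem_reverse.1 (List.mem_of_mem_take h))
      omega
    · simp at h
  · omega

lemma prop_aux {s t p q r e f : Prop} (k1 : s → t → p) (k2 : p → s) (k3 : q → s) (k4 : p → t)
    (k5 : r → t) (k6 : p → ¬ q) (k7 : p → ¬ r) (k8 : e → p) (k9 : f → p) :
    ((s ∨ t) ∧ ¬ (((e ∨ r) ∨ f) ∨ q)) ↔ ((s ∧ ¬ (p ∨ q)) ∨ (t ∧ ¬ (p ∨ r))) ∨
      (p ∧ ¬ (((e ∨ r) ∨ f) ∨ q)) := by
  by_cases hp : p
  · have := k2 hp
    have := k4 hp
    have := k6 hp
    have := k7 hp
    simp [*]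
  · by_cases hs : s <;> by_cases ht : t <;> by_cases hq : q <;> by_cases hr : r <;> simp_all

open Classical in
/-- one disc: the number of extensions, with the properness as a factor -/
lemma Nc_rep {w k : ℕ} {G : SimpleGraph V} {S : Set V} {r : List V} (hD : Disc w G S r)
    {X : ℕ → ℤ[X]} (hX : Rep G S r X) (c : V → Fin k) :
    (Nc k G {x | x ∈ S ∧ x ∉ r} c : ℤ) =
      ∑ i ∈ range (PQ r.length).length, (X i).eval (k : ℤ) *
        (if Pr (r.map c) ∧ Rsb ((PQ r.length).getD i []) (r.map c) then 1 else 0) := by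
  obtain ⟨a1, a2, a3, a4, a5, a6⟩ := hD.inv
  by_cases hc : Pr (r.map c)
  · rw [hX k c hc]
    refine sum_congr rfl fun i _ => ?_
    congr 1
    by_cases h : Rsb ((PQ r.length).getD i []) (r.map c)
    · rw [if_pos h, if_pos ⟨hc, h⟩]
    · rw [if_neg h, if_neg fun h' => h h'.2]
  · rw [Nc_zero k G _ r a1 a2 a4 (fun x hx h => h.2 hx) c hc, Nat.cast_zero, eq_comm]
    refine sum_eq_zero fun i _ => ?_
    rw [if_neg fun h' => hc h'.1, mul_zero]

theorem Rep_glue_of (hTS : TabSound) [Finite V] {w : ℕ} {G H : SimpleGraph V} {S T : Set V}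
    {P Q R E F : List V} (hA : Disc w G S (P ++ Q)) (hB : Disc w H T (P.reverse ++ R))
    (hST : ∀ x, x ∈ S → x ∈ T → x ∈ P) (hE : E = [] ∨ E = P.take 1)
    (hF : F = [] ∨ F = P.reverse.take 1) (hnd : (E ++ R ++ F ++ Q).Nodup)
    (h2 : 2 ≤ (E ++ R ++ F ++ Q).length) (hle : (E ++ R ++ F ++ Q).length ≤ w)
    (hok : ∀ τ ∈ tys w, okAll τ = true) {X Y : ℕ → ℤ[X]}
    (hX : Rep G S (P ++ Q) X) (hY : Rep H T (P.reverse ++ R) Y) :
    ∃ τ ∈ tys w, τ.s + τ.m = (P ++ Q).length ∧ τ.s + τ.l = (P.reverse ++ R).length ∧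
      τ.C.length = (E ++ R ++ F ++ Q).length ∧
      Rep (G ⊔ H ⊔ ringG (E ++ R ++ F ++ Q)) (S ∪ T) (E ++ R ++ F ++ Q) (gX τ X Y) := by
  classical
  obtain ⟨a1, a2, a3, a4, a5, a6⟩ := hA.inv
  obtain ⟨b1, b2, b3, b4, b5, b6⟩ := hB.inv
  obtain ⟨u0, -⟩ : ∃ u0, u0 ∈ P ++ Q := List.exists_mem_of_length_pos (by omega)
  have hPS : ∀ x ∈ P, x ∈ S := fun x hx => a5 x (List.mem_append_left _ hx)
  have hQS : ∀ x ∈ Q, x ∈ S := fun x hx => a5 x (List.mem_append_right _ hx)
  have hPT : ∀ x ∈ P, x ∈ T := fun x hx => b5 x (List.mem_append_left _ (List.mem_reverse.2 hx))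
  have hRT : ∀ x ∈ R, x ∈ T := fun x hx => b5 x (List.mem_append_right _ hx)
  have hPQd : ∀ x ∈ P, x ∉ Q := fun x hx hx' => (List.disjoint_of_nodup_append a1) hx hx'
  have hPRd : ∀ x ∈ P, x ∉ R := fun x hx hx' =>
    (List.disjoint_of_nodup_append b1) (List.mem_reverse.2 hx) hx'
  have hU : (P ++ Q ++ R).Nodup := by
    rw [List.nodup_append]
    refine ⟨a1, (List.nodup_append.1 b1).2.1, ?_⟩
    intro x hx y hy hxy
    subst hxy
    rw [List.mem_append] at hx
    rcases hx with hx | hx
    · exact hPRd x hx hy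
    · exact hPQd x (hST x (hQS x hx) (hRT x hy)) hx
  have hEP : ∀ x ∈ E, x ∈ P := by
    intro x hx
    rcases hE with h | h
    · rw [h] at hx
      simp at hx
    · rw [h] at hx
      exact List.mem_of_mem_take hx
  have hFP : ∀ x ∈ F, x ∈ P := by
    intro x hx
    rcases hF with h | h
    · rw [h] at hx
      simp at hx
    · rw [h] at hx
      exact List.mem_reverse.1 (List.mem_of_mem_take hx)
  obtain ⟨τ, hτ⟩ : ∃ τ : Ty, τ = ⟨P.length, Q.length, R.length, !E.isEmpty, !F.isEmpty⟩ := ⟨_, rfl⟩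
  have hs : τ.s = P.length := by rw [hτ]
  have hm : τ.m = Q.length := by rw [hτ]
  have hl : τ.l = R.length := by rw [hτ]
  obtain ⟨tA, tB, tC, tP⟩ := ty_pos P Q R E F u0 hE hF
  rw [← hτ] at tA tB tC tP
  have hUl : (P ++ Q ++ R).length = τ.s + τ.m + τ.l := by
    rw [hs, hm, hl, List.length_append, List.length_append]
  generalize hUd : P ++ Q ++ R = U at *
  generalize hr : E ++ R ++ F ++ Q = r at *
  have hCnd : τ.C.Nodup := by
    rw [← tC] at hnd
    exact List.Nodup.of_map _ hnd
  have hCl : τ.C.length = r.length := by rw [← tC, List.length_map]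
  have hsm : τ.s + τ.m = (P ++ Q).length := by rw [hs, hm, List.length_append]
  have hsl : τ.s + τ.l = (P.reverse ++ R).length := by
    rw [hs, hl, List.length_append, List.length_reverse]
  have hτt : τ ∈ tys w := by
    unfold tys
    simp only [List.mem_flatMap, List.mem_range]
    refine ⟨τ.s, by omega, τ.m, by omega, τ.l, by omega, τ.e, ?_, τ.f, ?_, ?_⟩
    · cases τ.e <;> simp
    · cases τ.f <;> simp
    · have h0 : (⟨τ.s, τ.m, τ.l, τ.e, τ.f⟩ : Ty) = τ := rfl
      rw [h0, if_pos ⟨by omega, by omega, by omega, by omega, hCnd, by omega, by omega⟩]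
      exact List.mem_singleton.2 rfl
  refine ⟨τ, hτt, hsm, hsl, hCl, ?_⟩
  -- the checks
  have hokτ := hok τ hτt
  unfold okAll at hokτ
  simp only [Bool.and_eq_true, List.all_eq_true] at hokτ
  obtain ⟨⟨⟨ok1, ok2⟩, ok3⟩, ok4⟩ := hokτ
  have hgetD : ∀ (L : List (List ℕ)) (i : ℕ), i ∈ range L.length → L.getD i [] ∈ L := by
    intro L i hi
    rw [mem_range] at hi
    rw [List.getD_eq_getElem _ _ hi]
    exact List.getElem_mem hi
  intro k c hc
  set d : ℕ → Fin k := fun i => c (pos U u0 i) with hd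
  have hcC : τ.C.map d = r.map c := by
    rw [← tC, List.map_map]
    rfl
  -- the sets
  set IG : Set V := {x | x ∈ S ∧ x ∉ P ++ Q} with hIG
  set IH : Set V := {x | x ∈ T ∧ x ∉ P.reverse ++ R} with hIH
  have hDC : ∀ z ∈ τ.D, z ∈ τ.P ∧ z ∉ τ.C := by
    intro z hz
    unfold Ty.D at hz
    rw [List.mem_filter] at hz
    refine ⟨hz.1, fun h => ?_⟩
    have h3 := hz.2
    simp only [Bool.not_eq_true', List.contains_eq_mem, decide_eq_false_iff_not] at h3
    exact h3 h
  have hPU : ∀ z ∈ τ.P, z < U.length := fun z hz => by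
    have := mem_tyP hz
    omega
  have hDset : {x | ∃ z ∈ τ.D, x = pos U u0 z} = {x | x ∈ P ∧ x ∉ r} := by
    ext x
    simp only [Set.mem_ofPred_eq]
    constructor
    · rintro ⟨z, hz, rfl⟩
      obtain ⟨z1, z2⟩ := hDC z hz
      refine ⟨?_, ?_⟩
      · rw [← tP]
        exact List.mem_map_of_mem z1
      · rw [← tC]
        intro h
        obtain ⟨z', hz', he⟩ := List.mem_map.1 h
        have h3 := pos_inj hU (by have := mem_tyC hz'; omega) (hPU z z1) he
        subst h3
        exact z2 hz'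
    · rintro ⟨h3, h4⟩
      rw [← tP] at h3
      obtain ⟨z, hz, rfl⟩ := List.mem_map.1 h3
      refine ⟨z, ?_, rfl⟩
      unfold Ty.D
      rw [List.mem_filter]
      refine ⟨hz, ?_⟩
      simp only [Bool.not_eq_true', List.contains_eq_mem, decide_eq_false_iff_not]
      intro h5
      apply h4
      rw [← tC]
      exact List.mem_map_of_mem h5
  have hrmem : ∀ x, x ∈ r ↔ (((x ∈ E ∨ x ∈ R) ∨ x ∈ F) ∨ x ∈ Q) := by
    intro x
    rw [← hr]
    simp only [List.mem_append]
  have hIset : {x | x ∈ S ∪ T ∧ x ∉ r} = (IG ∪ IH) ∪ {x | ∃ z ∈ τ.D, x = pos U u0 z} := by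
    rw [hDset]
    ext x
    simp only [Set.mem_union, Set.mem_ofPred_eq, hIG, hIH, List.mem_append, List.mem_reverse]
    rw [hrmem]
    have k1 := hST x
    have k2 := hPS x
    have k3 := hQS x
    have k4 := hPT x
    have k5 := hRT x
    have k6 := hPQd x
    have k7 := hPRd x
    have k8 := hEP x
    have k9 := hFP x
    exact prop_aux k1 k2 k3 k4 k5 k6 k7 k8 k9
  have hIGH : ∀ x ∈ IG, x ∉ IH := fun x hx hx' => by
    have h3 := hST x hx.1 hx'.1
    exact hx.2 (List.mem_append_left _ h3)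
  have hringI : ∀ x ∈ r, x ∉ {x | x ∈ S ∪ T ∧ x ∉ r} := fun x hx h => h.2 hx
  -- the counting
  have e1 : Nc k (G ⊔ H ⊔ ringG r) {x | x ∈ S ∪ T ∧ x ∉ r} c =
      Nc k (G ⊔ H) ((IG ∪ IH) ∪ {x | ∃ z ∈ τ.D, x = pos U u0 z}) c := by
    rw [Nc_ring k (G ⊔ H) _ r hringI c hc, hIset]
  have e2 := free_D (k := k) (GH := G ⊔ H) hU u0 c τ.D (IG ∪ IH) d
    (by
      unfold Ty.D Ty.P
      exact List.Nodup.filter _ List.nodup_range)
    (fun z hz => hPU z (hDC z hz).1)
    (by
      intro z hz h
      have h3 : pos U u0 z ∈ P := by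
        rw [← tP]
        exact List.mem_map_of_mem (hDC z hz).1
      rcases h with h | h
      · exact h.2 (List.mem_append_left _ h3)
      · exact h.2 (List.mem_append_left _ (List.mem_reverse.2 h3)))
  rw [hd, xt_self, ← hd] at e2
  rw [e1, ← e2]
  have e3 : ∀ d : ℕ → Fin k, (Nc k (G ⊔ H) (IG ∪ IH) (xt U c d) : ℤ) =
      ∑ p ∈ range (PQ (τ.s + τ.m)).length ×ˢ range (PQ (τ.s + τ.l)).length,
        ((X p.1).eval (k : ℤ) * (Y p.2).eval (k : ℤ)) *
        (if Pr (τ.A.map d) ∧ Pr (τ.B.map d) ∧ Rsb ((PQ (τ.s + τ.m)).getD p.1 []) (τ.A.map d) ∧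
          Rsb ((PQ (τ.s + τ.l)).getD p.2 []) (τ.B.map d) then 1 else 0) := by
    intro d
    rw [Nc_prod k G H IG IH]
    · push_cast
      rw [hIG, hIH, Nc_rep hA hX, Nc_rep hB hY, sum_mul_sum, sum_product, ← hsm, ← hsl]
      have m1 : (P ++ Q).map (xt U c d) = τ.A.map d := by
        rw [← tA]
        exact map_xt hU u0 c d fun i hi => by
          have := mem_tyA hi
          omega
      have m2 : (P.reverse ++ R).map (xt U c d) = τ.B.map d := by
        rw [← tB]
        exact map_xt hU u0 c d fun i hi => by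
          have := mem_tyB hi
          omega
      rw [m1, m2]
      refine sum_congr rfl fun i _ => sum_congr rfl fun j _ => ?_
      by_cases q1 : Pr (τ.A.map d) ∧ Rsb ((PQ (τ.s + τ.m)).getD i []) (τ.A.map d)
      · by_cases q2 : Pr (τ.B.map d) ∧ Rsb ((PQ (τ.s + τ.l)).getD j []) (τ.B.map d)
        · rw [if_pos q1, if_pos q2, if_pos ⟨q1.1, q2.1, q1.2, q2.2⟩]
          ring
        · have q3 : ¬ (Pr (τ.A.map d) ∧ Pr (τ.B.map d) ∧
              Rsb ((PQ (τ.s + τ.m)).getD i []) (τ.A.map d) ∧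
              Rsb ((PQ (τ.s + τ.l)).getD j []) (τ.B.map d)) := fun h => q2 ⟨h.2.1, h.2.2.2⟩
          rw [if_neg q2, if_neg q3]
          ring
      · have q3 : ¬ (Pr (τ.A.map d) ∧ Pr (τ.B.map d) ∧
            Rsb ((PQ (τ.s + τ.m)).getD i []) (τ.A.map d) ∧
            Rsb ((PQ (τ.s + τ.l)).getD j []) (τ.B.map d)) := fun h => q1 ⟨h.1, h.2.2.1⟩
        rw [if_neg q1, if_neg q3]
        ring
    · intro x y hxy hx
      have h3 := hST x (a6 x y hxy) hx.1
      exact hx.2 (List.mem_append_left _ (List.mem_reverse.2 h3))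
    · intro x y hxy hx
      have h3 := hST x hx.1 (b6 x y hxy)
      exact hx.2 (List.mem_append_left _ h3)
    · exact Set.disjoint_left.2 hIGH
  rw [sumD_congr τ.D e3, sumD_lin]
  have e4 : ∀ p ∈ range (PQ (τ.s + τ.m)).length ×ˢ range (PQ (τ.s + τ.l)).length,
      ((X p.1).eval (k : ℤ) * (Y p.2).eval (k : ℤ)) * sumD τ.D (fun d => if Pr (τ.A.map d) ∧
        Pr (τ.B.map d) ∧ Rsb ((PQ (τ.s + τ.m)).getD p.1 []) (τ.A.map d) ∧
          Rsb ((PQ (τ.s + τ.l)).getD p.2 []) (τ.B.map d) then 1 else 0) d =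
      ∑ i ∈ Finset.range (PQ τ.C.length).length,
        (evZ (coefT τ.C (tab τ ((PQ (τ.s + τ.m)).getD p.1 []) ((PQ (τ.s + τ.l)).getD p.2 []))
          ((PQ τ.C.length).getD i [])) (k : ℤ) * (X p.1).eval (k : ℤ) * (Y p.2).eval (k : ℤ)) *
        (if Rsb ((PQ τ.C.length).getD i []) (τ.C.map d) then 1 else 0) := by
    intro p hp
    rw [mem_product] at hp
    have g1 := hgetD _ _ hp.1
    have g2 := hgetD _ _ hp.2
    rw [hTS k τ _ _ (ok2 _ g1) (ok3 _ g2) hCnd ok1 (ok4 _ g1 _ g2) d (by rw [hcC]; exact hc), mul_sum]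
    refine sum_congr rfl fun i _ => ?_
    ring
  rw [sum_congr rfl e4, sum_comm, hCl, hcC]
  refine sum_congr rfl fun i _ => ?_
  rw [← sum_mul]
  congr 1
  unfold gX
  rw [sum_product, eval_finsetSum, hCl]
  refine sum_congr rfl fun a _ => ?_
  rw [eval_finsetSum]
  refine sum_congr rfl fun b _ => ?_
  rw [eval_mul, eval_mul, eval_toP]

end Glue

end Pool.Agent.N467.BL.Glue
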