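import Pool.Agent.N467.BL.Tab
import Pool.Agent.N467.BL.RepGlueCore

/-! The vector of two glued discs (subtask BLC/4, helper756). -/

set_option autoImplicit false

namespace Pool.Agent.N467.BL

open Polynomial Finset

lemma tabSound : Glue.TabSound := by
  classical
  intro k τ b b' hb hb' hC hE hok d hd
  have h := tab_sound τ b b' hb hb' hC hE hok d hd
  rw [Fintype.card_fin] at h
  convert h using 2

theorem Rep_glue {V : Type} [Finite V] {w : ℕ} {G H : SimpleGraph V} {S T : Set V}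
    {P Q R E F : List V} (hA : Disc w G S (P ++ Q)) (hB : Disc w H T (P.reverse ++ R))
    (hST : ∀ x, x ∈ S → x ∈ T → x ∈ P) (hE : E = [] ∨ E = P.take 1)
    (hF : F = [] ∨ F = P.reverse.take 1) (hnd : (E ++ R ++ F ++ Q).Nodup)
    (h2 : 2 ≤ (E ++ R ++ F ++ Q).length) (hle : (E ++ R ++ F ++ Q).length ≤ w)
    (hok : ∀ τ ∈ tys w, okAll τ = true) {X Y : ℕ → ℤ[X]}
    (hX : Rep G S (P ++ Q) X) (hY : Rep H T (P.reverse ++ R) Y) :
    ∃ τ ∈ tys w, τ.s + τ.m = (P ++ Q).length ∧ τ.s + τ.l = (P.reverse ++ R).length ∧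
      τ.C.length = (E ++ R ++ F ++ Q).length ∧
      Rep (G ⊔ H ⊔ ringG (E ++ R ++ F ++ Q)) (S ∪ T) (E ++ R ++ F ++ Q) (gX τ X Y) :=
  Glue.Rep_glue_of tabSound hA hB hST hE hF hnd h2 hle hok hX hY

end Pool.Agent.N467.BL
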