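import Pool.Agent.N467.BL.TabProps

/-! Soundness of the tables (subtask BLC/3, helper271). -/

set_option autoImplicit false

namespace Pool.Agent.N467.BL

/-! ### merging -/

theorem mrg_length (θ : List ℕ) (u v : ℕ) : (mrg θ u v).length = θ.length := by
  unfold mrg; simp

theorem mrg_getD (θ : List ℕ) (u v i : ℕ) (hi : i < θ.length) :
    (mrg θ u v).getD i 0 = if θ.getD i 0 = θ.getD v 0 then θ.getD u 0 else θ.getD i 0 := by
  unfold mrg
  rw [List.getD_eq_getElem _ _ (by simpa using hi), List.getElem_map,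
    List.getD_eq_getElem θ 0 hi]

theorem mrg_Rsp {κ : Type} (θ : List ℕ) (u v : ℕ) (hu : u < θ.length) (hv : v < θ.length)
    (d : ℕ → κ) : Rsp (mrg θ u v) d ↔ Rsp θ d ∧ d u = d v := by
  constructor
  · intro h
    unfold Rsp at h
    rw [mrg_length] at h
    refine ⟨fun i j hi hj hij => h i j hi hj ?_, h u v hu hv ?_⟩
    · rw [mrg_getD _ _ _ _ hi, mrg_getD _ _ _ _ hj, hij]
    · rw [mrg_getD _ _ _ _ hu, mrg_getD _ _ _ _ hv]
      simp
  · rintro ⟨h, huv⟩ i j hi hj hij
    rw [mrg_length] at hi hj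
    rw [mrg_getD _ _ _ _ hi, mrg_getD _ _ _ _ hj] at hij
    by_cases h1 : θ.getD i 0 = θ.getD v 0
    · by_cases h2 : θ.getD j 0 = θ.getD v 0
      · exact h i j hi hj (h1.trans h2.symm)
      · rw [if_pos h1, if_neg h2] at hij
        exact ((h i v hi hv h1).trans huv.symm).trans (h u j hu hj hij)
    · by_cases h2 : θ.getD j 0 = θ.getD v 0
      · rw [if_neg h1, if_pos h2] at hij
        exact (h i u hi hu hij).trans (huv.trans (h v j hv hj h2.symm))
      · rw [if_neg h1, if_neg h2] at hij
        exact h i j hi hj hij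

/-! ### values -/

theorem evZ_pneg (p : List ℤ) (k : ℤ) : evZ (pneg p) k = - evZ p k := by
  induction p with
  | nil => rfl
  | cons a p ih =>
    have : pneg (a :: p) = -a :: pneg p := rfl
    rw [this, evZ, evZ, ih]; ring

theorem evZ_padd (p r : List ℤ) (k : ℤ) : evZ (padd p r) k = evZ p k + evZ r k := by
  induction p generalizing r with
  | nil => simp [padd, evZ]
  | cons a p ih =>
    cases r with
    | nil => simp [padd, evZ]
    | cons b r => rw [padd, evZ, evZ, evZ, ih]; ring

theorem evT_nil {κ : Type} (k : ℤ) (d : ℕ → κ) : evT ([] : Terms) k d = 0 := by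
  simp [evT]

open Classical in
theorem evT_cons {κ : Type} (p : List ℤ × List ℕ) (t : Terms) (k : ℤ) (d : ℕ → κ) :
    evT (p :: t) k d = evZ p.1 k * (if Rsp p.2 d then 1 else 0) + evT t k d := by
  simp [evT]

theorem evT_append {κ : Type} (t t' : Terms) (k : ℤ) (d : ℕ → κ) :
    evT (t ++ t') k d = evT t k d + evT t' k d := by
  simp [evT]

theorem stepE_cons (e : ℕ × ℕ) (p : List ℤ × List ℕ) (t : Terms) :
    stepE e (p :: t) =
      (if p.2.getD e.1 0 = p.2.getD e.2 0 then [] else [p, (pneg p.1, mrg p.2 e.1 e.2)]) ++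
        stepE e t := by
  simp [stepE]

theorem evT_stepE {κ : Type} (e : ℕ × ℕ) (t : Terms)
    (h : ∀ p ∈ t, e.1 < p.2.length ∧ e.2 < p.2.length) (k : ℤ) (d : ℕ → κ) [DecidableEq κ] :
    evT (stepE e t) k d = if d e.1 = d e.2 then 0 else evT t k d := by
  classical
  induction t with
  | nil => simp [stepE, evT_nil]
  | cons p t ih =>
    have ih' := ih fun q hq => h q (List.mem_cons_of_mem _ hq)
    obtain ⟨h1, h2⟩ := h p (List.mem_cons_self ..)
    rw [stepE_cons, evT_append, ih', evT_cons]
    by_cases hl : p.2.getD e.1 0 = p.2.getD e.2 0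
    · rw [if_pos hl, evT_nil, zero_add]
      by_cases hd : d e.1 = d e.2
      · rw [if_pos hd, if_pos hd]
      · rw [if_neg hd, if_neg hd, if_neg, mul_zero, zero_add]
        exact fun hR => hd (hR _ _ h1 h2 hl)
    · rw [if_neg hl, evT_cons, evT_cons, evT_nil, add_zero, evZ_pneg]
      by_cases hd : d e.1 = d e.2
      · rw [if_pos hd, if_pos hd]
        by_cases hR : Rsp p.2 d
        · rw [if_pos hR, if_pos ((mrg_Rsp _ _ _ h1 h2 d).2 ⟨hR, hd⟩)]
          ring
        · rw [if_neg hR, if_neg]
          · ring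
          · exact fun h' => hR ((mrg_Rsp _ _ _ h1 h2 d).1 h').1
      · have hm : ¬ Rsp (mrg p.2 e.1 e.2) d := fun h' => hd ((mrg_Rsp _ _ _ h1 h2 d).1 h').2
        rw [if_neg hd, if_neg hd, if_neg hm]
        ring

/-! ### summation -/

theorem set_getD (θ : List ℕ) (z x i : ℕ) (hi : i < θ.length) :
    (θ.set z x).getD i 0 = if z = i then x else θ.getD i 0 := by
  rw [List.getD_eq_getElem _ _ (by simpa using hi), List.getElem_set,
    List.getD_eq_getElem θ 0 hi]

theorem set_Rsp {κ : Type} (θ : List ℕ) (z x : ℕ) (hx : x ∉ θ) (d : ℕ → κ) :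
    Rsp (θ.set z x) d ↔ ∀ i j, i < θ.length → j < θ.length → i ≠ z → j ≠ z →
      θ.getD i 0 = θ.getD j 0 → d i = d j := by
  have hne : ∀ i, i < θ.length → θ.getD i 0 ≠ x := by
    intro i hi h
    apply hx
    rw [← h, List.getD_eq_getElem θ 0 hi]
    exact List.getElem_mem _
  constructor
  · intro h i j hi hj hiz hjz hij
    apply h i j (by simpa using hi) (by simpa using hj)
    rw [set_getD _ _ _ _ hi, set_getD _ _ _ _ hj, if_neg hiz.symm, if_neg hjz.symm, hij]
  · intro h i j hi hj hij
    rw [List.length_set] at hi hj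
    rw [set_getD _ _ _ _ hi, set_getD _ _ _ _ hj] at hij
    by_cases h1 : z = i
    · by_cases h2 : z = j
      · rw [← h1, ← h2]
      · rw [if_pos h1, if_neg h2] at hij
        exact absurd hij.symm (hne j hj)
    · by_cases h2 : z = j
      · rw [if_neg h1, if_pos h2] at hij
        exact absurd hij (hne i hi)
      · rw [if_neg h1, if_neg h2] at hij
        exact h i j hi hj (Ne.symm h1) (Ne.symm h2) hij

theorem upd_Rsp {κ : Type} (θ : List ℕ) (z : ℕ) (hz : z < θ.length) (d : ℕ → κ) (x : κ) :
    Rsp θ (Function.update d z x) ↔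
      (∀ i j, i < θ.length → j < θ.length → i ≠ z → j ≠ z → θ.getD i 0 = θ.getD j 0 → d i = d j) ∧
      ∀ j, j < θ.length → j ≠ z → θ.getD j 0 = θ.getD z 0 → d j = x := by
  constructor
  · intro h
    refine ⟨fun i j hi hj hiz hjz hij => ?_, fun j hj hjz hij => ?_⟩
    · have := h i j hi hj hij
      rwa [Function.update_of_ne hiz, Function.update_of_ne hjz] at this
    · have := h j z hj hz hij
      rwa [Function.update_of_ne hjz, Function.update_self] at this
  · rintro ⟨h1, h2⟩ i j hi hj hij
    by_cases hiz : i = z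
    · by_cases hjz : j = z
      · rw [hiz, hjz]
      · subst hiz
        rw [Function.update_self, Function.update_of_ne hjz]
        exact (h2 j hj hjz hij.symm).symm
    · by_cases hjz : j = z
      · subst hjz
        rw [Function.update_self, Function.update_of_ne hiz]
        exact h2 i hi hiz hij
      · rw [Function.update_of_ne hiz, Function.update_of_ne hjz]
        exact h1 i j hi hj hiz hjz hij

theorem exists_other (θ : List ℕ) (z : ℕ) (hz : z < θ.length)
    (hc : θ.count (θ.getD z 0) ≠ 1) : ∃ j, j < θ.length ∧ j ≠ z ∧ θ.getD j 0 = θ.getD z 0 := by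
  by_contra hcon
  push Not at hcon
  apply hc
  have h1 : θ = θ.take z ++ θ.getD z 0 :: θ.drop (z + 1) := by
    rw [List.getD_eq_getElem θ 0 hz]
    simp
  have h2 : (θ.take z).count (θ.getD z 0) = 0 := by
    rw [List.count_eq_zero]
    intro hm
    obtain ⟨j, hj, he⟩ := List.getElem_of_mem hm
    rw [List.length_take] at hj
    rw [List.getElem_take] at he
    apply hcon j (by omega) (by omega)
    rw [List.getD_eq_getElem θ 0 (by omega), he]
  have h3 : (θ.drop (z + 1)).count (θ.getD z 0) = 0 := by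
    rw [List.count_eq_zero]
    intro hm
    obtain ⟨j, hj, he⟩ := List.getElem_of_mem hm
    rw [List.length_drop] at hj
    rw [List.getElem_drop] at he
    apply hcon (z + 1 + j) (by omega) (by omega)
    rw [List.getD_eq_getElem θ 0 (by omega), he]
  set x := θ.getD z 0 with hx
  rw [h1, List.count_append, List.count_cons_self, h2, h3]

theorem no_other (θ : List ℕ) (z : ℕ) (hz : z < θ.length)
    (hc : θ.count (θ.getD z 0) = 1) (j : ℕ) (hj : j < θ.length) (hjz : j ≠ z) :
    θ.getD j 0 ≠ θ.getD z 0 := by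
  intro he
  have h1 : θ = θ.take z ++ θ.getD z 0 :: θ.drop (z + 1) := by
    rw [List.getD_eq_getElem θ 0 hz]
    simp
  set x := θ.getD z 0 with hx
  have hcc : ((θ.take z ++ x :: θ.drop (z + 1)).count x) = 1 := by rw [← h1]; exact hc
  rw [List.count_append, List.count_cons_self] at hcc
  have h2 : (θ.take z).count x = 0 := by omega
  have h3 : (θ.drop (z + 1)).count x = 0 := by omega
  rw [List.count_eq_zero] at h2 h3
  rcases lt_or_gt_of_ne hjz with h | h
  · apply h2
    rw [← he, List.getD_eq_getElem θ 0 hj]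
    rw [List.mem_take_iff_getElem]
    exact ⟨j, by omega, rfl⟩
  · apply h3
    rw [← he, List.getD_eq_getElem θ 0 hj]
    rw [List.mem_drop_iff_getElem]
    refine ⟨j - (z + 1), by omega, ?_⟩
    congr 1
    omega

open Classical in
theorem term_stepD {κ : Type} [Fintype κ] (z : ℕ) (c : List ℤ) (θ : List ℕ)
    (hz : z < θ.length) (hn : θ.length + z ∉ θ) (d : ℕ → κ) :
    evZ (if θ.count (θ.getD z 0) = 1 then 0 :: c else c) (Fintype.card κ) *
      (if Rsp (θ.set z (θ.length + z)) d then 1 else 0) =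
    ∑ x : κ, evZ c (Fintype.card κ) * (if Rsp θ (Function.update d z x) then 1 else 0) := by
  rw [← Finset.mul_sum]
  by_cases hQ : Rsp (θ.set z (θ.length + z)) d
  · have hQ' := (set_Rsp θ z _ hn d).1 hQ
    rw [if_pos hQ, mul_one]
    by_cases hc : θ.count (θ.getD z 0) = 1
    · rw [if_pos hc, evZ, zero_add]
      have h1 : ∀ x : κ, (if Rsp θ (Function.update d z x) then (1 : ℤ) else 0) = 1 := by
        intro x
        rw [if_pos]
        rw [upd_Rsp θ z hz]
        exact ⟨hQ', fun j hj hjz hij => absurd hij (no_other θ z hz hc j hj hjz)⟩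
      simp only [h1]
      simp
      ring
    · rw [if_neg hc]
      obtain ⟨j, hj, hjz, hjl⟩ := exists_other θ z hz hc
      have h1 : ∀ x : κ, (if Rsp θ (Function.update d z x) then (1 : ℤ) else 0) =
          if d j = x then 1 else 0 := by
        intro x
        by_cases hx : d j = x
        · rw [if_pos hx, if_pos]
          rw [upd_Rsp θ z hz]
          refine ⟨hQ', fun i hi hiz hil => ?_⟩
          rw [← hx]
          exact hQ' i j hi hj hiz hjz (hil.trans hjl.symm)
        · rw [if_neg hx, if_neg]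
          intro h
          exact hx (((upd_Rsp θ z hz d x).1 h).2 j hj hjz hjl)
      simp only [h1]
      rw [Finset.sum_ite_eq]
      simp
  · rw [if_neg hQ, mul_zero]
    have h1 : ∀ x : κ, (if Rsp θ (Function.update d z x) then (1 : ℤ) else 0) = 0 := by
      intro x
      rw [if_neg]
      intro h
      exact hQ ((set_Rsp θ z _ hn d).2 ((upd_Rsp θ z hz d x).1 h).1)
    simp only [h1]
    simp

theorem evT_stepD {κ : Type} [Fintype κ] (z : ℕ) (t : Terms)
    (h : ∀ p ∈ t, z < p.2.length ∧ p.2.length + z ∉ p.2) (d : ℕ → κ) :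
    evT (stepD z t) (Fintype.card κ) d =
      ∑ x : κ, evT t (Fintype.card κ) (Function.update d z x) := by
  classical
  induction t with
  | nil => simp [stepD, evT_nil]
  | cons p t ih =>
    have ih' := ih fun q hq => h q (List.mem_cons_of_mem _ hq)
    obtain ⟨h1, h2⟩ := h p (List.mem_cons_self ..)
    have h3 : stepD z (p :: t) =
        ((if p.2.count (p.2.getD z 0) = 1 then 0 :: p.1 else p.1), p.2.set z (p.2.length + z)) ::
          stepD z t := rfl
    rw [h3, evT_cons, ih']
    simp only [evT_cons]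
    rw [Finset.sum_add_distrib, ← term_stepD z p.1 p.2 h1 h2 d]


/-! ### joining -/

theorem joinFold {κ : Type} (A b : List ℕ) (N : ℕ) (I : List ℕ)
    (hA : ∀ i ∈ I, A.getD (b.getD i 0) 0 < N ∧ A.getD i 0 < N) (θ : List ℕ) (hθ : θ.length = N) :
    (I.foldl (fun θ i => mrg θ (A.getD (b.getD i 0) 0) (A.getD i 0)) θ).length = N ∧
    ∀ d : ℕ → κ, Rsp (I.foldl (fun θ i => mrg θ (A.getD (b.getD i 0) 0) (A.getD i 0)) θ) d ↔
      Rsp θ d ∧ ∀ i ∈ I, d (A.getD (b.getD i 0) 0) = d (A.getD i 0) := by
  induction I generalizing θ with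
  | nil => simp [hθ]
  | cons i I ih =>
    rw [List.foldl_cons]
    obtain ⟨h1, h2⟩ := hA i (List.mem_cons_self ..)
    obtain ⟨h3, h4⟩ := ih (fun j hj => hA j (List.mem_cons_of_mem _ hj))
      (mrg θ (A.getD (b.getD i 0) 0) (A.getD i 0)) (by rw [mrg_length, hθ])
    refine ⟨h3, fun d => ?_⟩
    rw [h4, mrg_Rsp _ _ _ (by rw [hθ]; exact h1) (by rw [hθ]; exact h2)]
    constructor
    · rintro ⟨⟨h5, h6⟩, h7⟩
      refine ⟨h5, fun j hj => ?_⟩
      rcases List.mem_cons.1 hj with rfl | hj
      · exact h6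
      · exact h7 j hj
    · rintro ⟨h5, h6⟩
      exact ⟨⟨h5, h6 i (List.mem_cons_self ..)⟩, fun j hj => h6 j (List.mem_cons_of_mem _ hj)⟩

/-- labels stay in a given set -/
theorem mrg_labels (θ : List ℕ) (u v : ℕ) (hu : u < θ.length) (x : ℕ) (hx : x ∈ mrg θ u v) :
    x ∈ θ := by
  unfold mrg at hx
  obtain ⟨y, hy, rfl⟩ := List.mem_map.1 hx
  split_ifs
  · rw [List.getD_eq_getElem θ 0 hu]
    exact List.getElem_mem _
  · exact hy

theorem joinFold_labels (A b : List ℕ) (N : ℕ) (I : List ℕ)
    (hA : ∀ i ∈ I, A.getD (b.getD i 0) 0 < N ∧ A.getD i 0 < N) (θ : List ℕ) (hθ : θ.length = N)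
    (x : ℕ) (hx : x ∈ I.foldl (fun θ i => mrg θ (A.getD (b.getD i 0) 0) (A.getD i 0)) θ) :
    x ∈ θ := by
  induction I generalizing θ with
  | nil => simpa using hx
  | cons i I ih =>
    rw [List.foldl_cons] at hx
    have h1 := ih (fun j hj => hA j (List.mem_cons_of_mem _ hj)) _
      (by rw [mrg_length, hθ]) hx
    exact mrg_labels _ _ _ (by rw [hθ]; exact (hA i (List.mem_cons_self ..)).1) _ h1

theorem okB_iff {n : ℕ} {b : List ℕ} (h : okB n b = true) :
    b.length = n ∧ ∀ i < n, b.getD i 0 ≤ i := by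
  unfold okB at h
  rw [Bool.and_eq_true, beq_iff_eq, List.all_eq_true] at h
  refine ⟨h.1, fun i hi => ?_⟩
  have := h.2 i (List.mem_range.2 hi)
  simpa using this

theorem Rsb_map {κ : Type} (A b : List ℕ) (hb : okB A.length b = true) (d : ℕ → κ) :
    Rsb b (A.map d) ↔ ∀ i ∈ List.range b.length,
      d (A.getD (b.getD i 0) 0) = d (A.getD i 0) := by
  obtain ⟨h1, h2⟩ := okB_iff hb
  unfold Rsb
  constructor
  · intro h i hi
    rw [List.mem_range] at hi
    have h3 := h i hi
    have h4 := h2 i (by omega)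
    rw [List.getElem?_eq_getElem (by rw [List.length_map]; omega),
      List.getElem?_eq_getElem (by rw [List.length_map]; omega)] at h3
    rw [List.getElem_map, List.getElem_map] at h3
    rw [List.getD_eq_getElem A 0 (by omega), List.getD_eq_getElem A 0 (by omega)]
    exact (Option.some.inj h3).symm
  · intro h i hi
    have h3 := h i (List.mem_range.2 hi)
    have h4 := h2 i (by omega)
    rw [List.getElem?_eq_getElem (by rw [List.length_map]; omega),
      List.getElem?_eq_getElem (by rw [List.length_map]; omega)]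
    rw [List.getElem_map, List.getElem_map]
    rw [List.getD_eq_getElem A 0 (by omega), List.getD_eq_getElem A 0 (by omega)] at h3
    rw [h3]

theorem Rsp_range {κ : Type} (N : ℕ) (d : ℕ → κ) : Rsp (List.range N) d := by
  intro i j hi hj hij
  rw [List.getD_eq_getElem _ _ hi, List.getD_eq_getElem _ _ hj, List.getElem_range,
    List.getElem_range] at hij
  rw [hij]

/-! ### proper colourings -/

theorem Pr_map {κ : Type} (A : List ℕ) (d : ℕ → κ) :
    Pr (A.map d) ↔ ∀ e ∈ A.zip (A.rotate 1), d e.1 ≠ d e.2 := by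
  unfold Pr
  rw [← List.map_rotate, List.zip_map]
  simp only [List.mem_map]
  constructor
  · intro h e he
    exact h _ ⟨e, he, rfl⟩
  · rintro h _ ⟨e, he, rfl⟩
    exact h e he

theorem Pr_okE {κ : Type} (τ : Ty) (hE : okE τ = true) (d : ℕ → κ) (hC : Pr (τ.C.map d)) :
    (Pr (τ.A.map d) ∧ Pr (τ.B.map d)) ↔ ∀ e ∈ τ.E, d e.1 ≠ d e.2 := by
  unfold okE at hE
  rw [Bool.and_eq_true, List.all_eq_true, List.all_eq_true] at hE
  obtain ⟨h1, h2⟩ := hE
  rw [Pr_map] at hC
  rw [Pr_map, Pr_map]
  constructor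
  · rintro ⟨hA, hB⟩ e he
    have h3 := h2 e he
    rw [List.contains_iff_mem, List.mem_append] at h3
    rcases h3 with h3 | h3
    · exact hA e h3
    · exact hB e h3
  · intro h
    have key : ∀ e ∈ τ.A.zip (τ.A.rotate 1) ++ τ.B.zip (τ.B.rotate 1), d e.1 ≠ d e.2 := by
      intro e he
      have h3 := h1 e he
      simp only [Bool.or_eq_true, List.contains_iff_mem] at h3
      rcases h3 with ((h3 | h3) | h3) | h3
      · exact h e h3
      · exact (h _ h3).symm
      · exact hC e h3
      · exact (hC _ h3).symm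
    exact ⟨fun e he => key e (List.mem_append_left _ he),
      fun e he => key e (List.mem_append_right _ he)⟩

/-! ### the edges -/

theorem stepE_inv (e : ℕ × ℕ) (t : Terms) (N : ℕ) (L : List ℕ) (he : e.1 < N)
    (h : ∀ p ∈ t, p.2.length = N ∧ ∀ x ∈ p.2, x ∈ L) :
    ∀ p ∈ stepE e t, p.2.length = N ∧ ∀ x ∈ p.2, x ∈ L := by
  intro p hp
  unfold stepE at hp
  rw [List.mem_flatMap] at hp
  obtain ⟨q, hq, hp⟩ := hp
  obtain ⟨h1, h2⟩ := h q hq
  split_ifs at hp
  · simp at hp
  · rcases List.mem_cons.1 hp with rfl | hp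
    · exact ⟨h1, h2⟩
    · rw [List.mem_singleton] at hp
      subst hp
      refine ⟨by rw [mrg_length, h1], fun x hx => h2 x ?_⟩
      exact mrg_labels _ _ _ (by rw [h1]; exact he) _ hx

theorem foldE {κ : Type} (E : List (ℕ × ℕ)) (N : ℕ) (L : List ℕ) (hE : ∀ e ∈ E, e.1 < N ∧ e.2 < N)
    (t : Terms) (ht : ∀ p ∈ t, p.2.length = N ∧ ∀ x ∈ p.2, x ∈ L) :
    (∀ p ∈ E.foldl (fun t e => stepE e t) t, p.2.length = N ∧ ∀ x ∈ p.2, x ∈ L) ∧
    ∀ (k : ℤ) (d : ℕ → κ), ((∀ e ∈ E, d e.1 ≠ d e.2) →
        evT (E.foldl (fun t e => stepE e t) t) k d = evT t k d) ∧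
      (¬ (∀ e ∈ E, d e.1 ≠ d e.2) → evT (E.foldl (fun t e => stepE e t) t) k d = 0) := by
  classical
  induction E generalizing t with
  | nil =>
    refine ⟨by simpa using ht, fun k d => ⟨fun _ => rfl, fun h => ?_⟩⟩
    exact absurd (by simp) h
  | cons e E ih =>
    rw [List.foldl_cons]
    obtain ⟨h1, h2⟩ := hE e (List.mem_cons_self ..)
    obtain ⟨h3, h4⟩ := ih (fun e' he' => hE e' (List.mem_cons_of_mem _ he')) (stepE e t)
      (stepE_inv e t N L h1 ht)
    refine ⟨h3, fun k d => ?_⟩
    obtain ⟨h5, h6⟩ := h4 k d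
    have h7 := evT_stepE e t (fun p hp => by rw [(ht p hp).1]; exact ⟨h1, h2⟩) k d
    constructor
    · intro h
      rw [h5 fun e' he' => h e' (List.mem_cons_of_mem _ he'), h7,
        if_neg (h e (List.mem_cons_self ..))]
    · intro h
      by_cases h8 : ∀ e' ∈ E, d e'.1 ≠ d e'.2
      · rw [h5 h8, h7, if_pos]
        by_contra h9
        apply h
        intro e' he'
        rcases List.mem_cons.1 he' with rfl | he'
        · exact h9
        · exact h8 e' he'
      · exact h6 h8

/-! ### the dropped positions -/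

/-- invariant: the processed positions have fresh unique labels -/
def Fresh (N : ℕ) (Z : List ℕ) (θ : List ℕ) : Prop :=
  θ.length = N ∧ (∀ z ∈ Z, ∀ i, i < N → (θ.getD i 0 = N + z ↔ i = z)) ∧
    ∀ x, N ≤ x → x ∈ θ → ∃ z ∈ Z, x = N + z

theorem Fresh.step {N : ℕ} {Z θ : List ℕ} (h : Fresh N Z θ) (z : ℕ) (hz : z < N) (hzZ : z ∉ Z) :
    N + z ∉ θ ∧ Fresh N (z :: Z) (θ.set z (N + z)) := by
  obtain ⟨h1, h2, h3⟩ := h
  have hn : N + z ∉ θ := by
    intro hm
    obtain ⟨z', hz', he⟩ := h3 _ (by omega) hm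
    have : z = z' := by omega
    subst this
    exact hzZ hz'
  refine ⟨hn, by rw [List.length_set, h1], ?_, ?_⟩
  · intro z' hz' i hi
    rw [set_getD _ _ _ _ (by rw [h1]; exact hi)]
    rcases List.mem_cons.1 hz' with rfl | hz'
    · by_cases h4 : z' = i
      · simp [h4]
      · rw [if_neg h4]
        constructor
        · intro h5
          exfalso
          apply hn
          rw [← h5, List.getD_eq_getElem θ 0 (by rw [h1]; exact hi)]
          exact List.getElem_mem _
        · intro h5; exact absurd h5.symm h4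
    · by_cases h4 : z = i
      · rw [if_pos h4]
        constructor
        · intro h5
          have : z = z' := by omega
          subst this
          exact absurd hz' hzZ
        · intro h5
          have : z = z' := by omega
          subst this
          exact absurd hz' hzZ
      · rw [if_neg h4]
        exact h2 z' hz' i hi
  · intro x hx hm
    rcases List.mem_or_eq_of_mem_set hm with h4 | h4
    · obtain ⟨z', hz', he⟩ := h3 x hx h4
      exact ⟨z', List.mem_cons_of_mem _ hz', he⟩
    · exact ⟨z, List.mem_cons_self .., h4⟩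

theorem foldD {κ : Type} [Fintype κ] (D : List ℕ) (N : ℕ) (Z : List ℕ) (hD : ∀ z ∈ D, z < N)
    (hnd : D.Nodup) (hdis : ∀ z ∈ D, z ∉ Z) (t : Terms) (ht : ∀ p ∈ t, Fresh N Z p.2) :
    (∀ p ∈ D.foldl (fun t z => stepD z t) t, Fresh N (D.reverse ++ Z) p.2) ∧
    ∀ d : ℕ → κ, evT (D.foldl (fun t z => stepD z t) t) (Fintype.card κ) d =
      sumD D (fun d => evT t (Fintype.card κ) d) d := by
  induction D generalizing Z t with
  | nil => exact ⟨by simpa using ht, fun d => rfl⟩
  | cons z D ih =>
    rw [List.foldl_cons]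
    have hz := hD z (List.mem_cons_self ..)
    have hzZ := hdis z (List.mem_cons_self ..)
    rw [List.nodup_cons] at hnd
    obtain ⟨h3, h4⟩ := ih (z :: Z) (fun z' hz' => hD z' (List.mem_cons_of_mem _ hz')) hnd.2
      (by
        intro z' hz' hm
        rcases List.mem_cons.1 hm with rfl | hm
        · exact hnd.1 hz'
        · exact hdis z' (List.mem_cons_of_mem _ hz') hm)
      (stepD z t) (by
        intro p hp
        unfold stepD at hp
        obtain ⟨q, hq, rfl⟩ := List.mem_map.1 hp
        have := ((ht q hq).step z hz hzZ).2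
        rw [(ht q hq).1]
        exact this)
    refine ⟨?_, fun d => ?_⟩
    · intro p hp
      have := h3 p hp
      rw [List.reverse_cons, List.append_assoc]
      exact this
    · rw [h4, sumD]
      congr 1
      funext d
      refine evT_stepD z t (fun p hp => ?_) d
      rw [(ht p hp).1]
      exact ⟨hz, ((ht p hp).step z hz hzZ).1⟩

theorem sumD_congr {κ : Type} [Fintype κ] (D : List ℕ) (f g : (ℕ → κ) → ℤ) (d : ℕ → κ)
    (h : ∀ d' : ℕ → κ, (∀ i, i ∉ D → d' i = d i) → f d' = g d') : sumD D f d = sumD D g d := by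
  induction D generalizing f g with
  | nil => exact h d fun _ _ => rfl
  | cons z D ih =>
    rw [sumD, sumD]
    apply ih
    intro d' hd'
    refine Finset.sum_congr rfl fun x _ => h _ fun i hi => ?_
    rw [List.mem_cons, not_or] at hi
    rw [Function.update_of_ne hi.1]
    exact hd' i hi.2

/-! ### the restriction to the new ring -/

theorem rst_length (C θ : List ℕ) : (rst C θ).length = C.length := by
  unfold rst; simp

theorem rst_spec {κ : Type} (C θ : List ℕ) (d : ℕ → κ) :
    Rsb (rst C θ) (C.map d) ↔ ∀ a b (ha : a < C.length) (hb : b < C.length),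
      θ.getD C[a] 0 = θ.getD C[b] 0 → d C[a] = d C[b] := by
  set l : List ℕ := C.map fun i => θ.getD i 0 with hl
  have hll : l.length = C.length := by rw [hl]; simp
  have hr : ∀ i (hi : i < C.length), (rst C θ).getD i 0 = l.idxOf (l[i]'(by rw [hll]; exact hi)) := by
    intro i hi
    rw [List.getD_eq_getElem _ _ (by rw [rst_length]; exact hi)]
    unfold rst
    rw [List.getElem_map]
  have hle : ∀ i (hi : i < C.length), l[i]'(by rw [hll]; exact hi) = θ.getD C[i] 0 := by
    intro i hi
    simp only [hl, List.getElem_map]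
  have hidx : ∀ i (hi : i < C.length), l.idxOf (l[i]'(by rw [hll]; exact hi)) < C.length := by
    intro i hi
    exact lt_of_lt_of_eq (List.idxOf_lt_length_iff.2 (List.getElem_mem _)) hll
  have key : Rsb (rst C θ) (C.map d) ↔ ∀ i (hi : i < C.length),
      d C[i] = d (C[l.idxOf (l[i]'(by rw [hll]; exact hi))]'(hidx i hi)) := by
    unfold Rsb
    rw [rst_length]
    constructor
    · intro h i hi
      have h1 := h i hi
      rw [hr i hi, List.getElem?_eq_getElem (by simpa using hi),
        List.getElem?_eq_getElem (by simpa using hidx i hi), List.getElem_map,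
        List.getElem_map] at h1
      exact Option.some.inj h1
    · intro h i hi
      rw [hr i hi, List.getElem?_eq_getElem (by simpa using hi),
        List.getElem?_eq_getElem (by simpa using hidx i hi), List.getElem_map,
        List.getElem_map, h i hi]
  rw [key]
  constructor
  · intro h a b ha hb hab
    rw [h a ha, h b hb]
    have h1 : l[a]'(by rw [hll]; exact ha) = l[b]'(by rw [hll]; exact hb) := by
      rw [hle a ha, hle b hb, hab]
    simp only [h1]
  · intro h i hi
    apply h i _ hi (hidx i hi)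
    rw [← hle i hi, ← hle _ (hidx i hi)]
    exact (List.getElem_idxOf (lt_of_lt_of_eq (hidx i hi) hll.symm)).symm

theorem adj_false {κ : Type} (C θ : List ℕ) (d : ℕ → κ) (hd : Pr (C.map d))
    (ha : adjEq (rst C θ) = true) : ¬ Rsb (rst C θ) (C.map d) := by
  intro hR
  unfold adjEq at ha
  rw [List.any_eq_true] at ha
  obtain ⟨e, he, hee⟩ := ha
  rw [beq_iff_eq] at hee
  obtain ⟨i, hi, hie⟩ := List.getElem_of_mem he
  have hlen : ((rst C θ).zip ((rst C θ).rotate 1)).length = C.length := by
    simp [rst_length]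
  rw [hlen] at hi
  have hn : 0 < C.length := by omega
  have hi1 : (i + 1) % C.length < C.length := Nat.mod_lt _ hn
  rw [List.getElem_zip, List.getElem_rotate] at hie
  have h1 : (rst C θ)[i]'(by rw [rst_length]; exact hi) =
      (rst C θ)[(i + 1) % C.length]'(by rw [rst_length]; exact hi1) := by
    have h2 := hee
    rw [← hie] at h2
    simp only [rst_length] at h2
    exact h2
  -- the values agree
  have h3 : d C[i] = d C[(i + 1) % C.length] := by
    unfold Rsb at hR
    have h4 := hR i (by rw [rst_length]; exact hi)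
    have h5 := hR ((i + 1) % C.length) (by rw [rst_length]; exact hi1)
    have h6 : (rst C θ).getD i 0 = (rst C θ).getD ((i + 1) % C.length) 0 := by
      rw [List.getD_eq_getElem _ _ (by rw [rst_length]; exact hi),
        List.getD_eq_getElem _ _ (by rw [rst_length]; exact hi1), h1]
    have h7 := h4.trans ((congrArg (fun j => (C.map d)[j]?) h6).trans h5.symm)
    rw [List.getElem?_eq_getElem (by simpa using hi),
      List.getElem?_eq_getElem (by simpa using hi1), List.getElem_map, List.getElem_map] at h7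
    exact Option.some.inj h7
  rw [Pr_map] at hd
  refine hd (C[i], C[(i + 1) % C.length]) ?_ h3
  rw [List.mem_iff_getElem]
  refine ⟨i, by simpa using hi, ?_⟩
  rw [List.getElem_zip, List.getElem_rotate]

/-! ### collecting the terms -/

theorem coef_sum (C : List ℕ) (T : Terms) (c : List ℕ) (k : ℤ) :
    evZ (coefT C T c) k = (T.map fun p => if rst C p.2 = c then evZ p.1 k else 0).sum := by
  induction T with
  | nil => simp [coefT, evZ]
  | cons p T ih =>
    have h1 : coefT C (p :: T) c =
        if rst C p.2 = c then padd p.1 (coefT C T c) else coefT C T c := rfl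
    rw [h1, List.map_cons, List.sum_cons, ← ih]
    by_cases h : rst C p.2 = c
    · rw [if_pos h, if_pos h, evZ_padd]
    · rw [if_neg h, if_neg h, zero_add]

theorem PQ_nodup (n : ℕ) : (PQ n).Nodup := by
  rcases n with _ | _ | _ | _ | _ | _ | _ | n
  · simp [PQ]
  · simp [PQ]
  · decide
  · decide
  · decide
  · decide
  · decide
  · simp [PQ]

theorem pos_cases (τ : Ty) (i : ℕ) (hi : i < τ.N) : i ∈ τ.C ∨ i ∈ τ.D := by
  by_cases hC : i ∈ τ.C
  · exact Or.inl hC
  · right
    unfold Ty.D
    rw [List.mem_filter]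
    refine ⟨?_, by simpa using hC⟩
    unfold Ty.P
    rw [List.mem_range]
    by_contra hs
    apply hC
    unfold Ty.C
    unfold Ty.N at hi
    rw [List.mem_append, List.mem_append, List.mem_append]
    by_cases h1 : i < τ.s + τ.m
    · right
      unfold Ty.Q
      rw [List.mem_range'_1]
      omega
    · left; left; right
      unfold Ty.R
      rw [List.mem_range'_1]
      omega

theorem C_lt (τ : Ty) (i : ℕ) (hi : i ∈ τ.C) : i < τ.N := by
  unfold Ty.C at hi
  unfold Ty.N
  rw [List.mem_append, List.mem_append, List.mem_append] at hi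
  have hP : ∀ x ∈ τ.P, x < τ.s := fun x hx => by
    unfold Ty.P at hx; exact List.mem_range.1 hx
  rcases hi with ((hi | hi) | hi) | hi
  · split_ifs at hi
    · have := hP i (List.mem_of_mem_take hi); omega
    · simp at hi
  · unfold Ty.R at hi
    rw [List.mem_range'_1] at hi; omega
  · split_ifs at hi
    · have := hP i (List.mem_reverse.1 (List.mem_of_mem_take hi)); omega
    · simp at hi
  · unfold Ty.Q at hi
    rw [List.mem_range'_1] at hi; omega

theorem A_lt (τ : Ty) (i : ℕ) (hi : i ∈ τ.A) : i < τ.N := by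
  unfold Ty.A at hi
  unfold Ty.N
  rw [List.mem_range] at hi; omega

theorem B_lt (τ : Ty) (i : ℕ) (hi : i ∈ τ.B) : i < τ.N := by
  unfold Ty.B at hi
  unfold Ty.N
  rw [List.mem_append, List.mem_reverse, List.mem_range, List.mem_range'_1] at hi; omega

theorem A_getD (τ : Ty) (j : ℕ) (hj : j < τ.A.length) : τ.A.getD j 0 < τ.N := by
  rw [List.getD_eq_getElem _ _ hj]
  exact A_lt τ _ (List.getElem_mem _)

theorem B_getD (τ : Ty) (j : ℕ) (hj : j < τ.B.length) : τ.B.getD j 0 < τ.N := by
  rw [List.getD_eq_getElem _ _ hj]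
  exact B_lt τ _ (List.getElem_mem _)

theorem list_sum_comm {α : Type} (T : List α) (I : Finset ℕ) (f : α → ℕ → ℤ) :
    (T.map fun p => ∑ i ∈ I, f p i).sum = ∑ i ∈ I, (T.map fun p => f p i).sum := by
  induction T with
  | nil => simp
  | cons p T ih =>
    simp only [List.map_cons, List.sum_cons]
    rw [ih, Finset.sum_add_distrib]

theorem A_len (τ : Ty) : τ.A.length = τ.s + τ.m := by unfold Ty.A; simp
theorem B_len (τ : Ty) : τ.B.length = τ.s + τ.l := by unfold Ty.B; simp

theorem D_lt (τ : Ty) (i : ℕ) (hi : i ∈ τ.D) : i < τ.N := by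
  unfold Ty.D Ty.P at hi
  rw [List.mem_filter, List.mem_range] at hi
  unfold Ty.N; omega

theorem D_nodup (τ : Ty) : τ.D.Nodup := by
  unfold Ty.D Ty.P
  exact List.nodup_range.filter _

theorem D_not_C (τ : Ty) (i : ℕ) (hi : i ∈ τ.D) : i ∉ τ.C := by
  unfold Ty.D at hi
  rw [List.mem_filter] at hi
  simpa using hi.2

theorem E_lt (τ : Ty) (hE : okE τ = true) (e : ℕ × ℕ) (he : e ∈ τ.E) : e.1 < τ.N ∧ e.2 < τ.N := by
  unfold okE at hE
  rw [Bool.and_eq_true, List.all_eq_true, List.all_eq_true] at hE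
  have h3 := hE.2 e he
  rw [List.contains_iff_mem, List.mem_append] at h3
  rcases h3 with h3 | h3
  · have h4 := List.of_mem_zip h3
    exact ⟨A_lt τ _ h4.1, A_lt τ _ (List.mem_rotate.1 h4.2)⟩
  · have h4 := List.of_mem_zip h3
    exact ⟨B_lt τ _ h4.1, B_lt τ _ (List.mem_rotate.1 h4.2)⟩

/-- for a term with fresh labels at the dropped positions -/
theorem Rsp_rst {κ : Type} (τ : Ty) (θ : List ℕ) (hθ : Fresh τ.N (τ.D.reverse ++ []) θ)
    (d : ℕ → κ) : Rsp θ d ↔ Rsb (rst τ.C θ) (τ.C.map d) := by
  rw [rst_spec]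
  obtain ⟨h1, h2, -⟩ := hθ
  constructor
  · intro h a b ha hb hab
    exact h _ _ (by rw [h1]; exact C_lt τ _ (List.getElem_mem _))
      (by rw [h1]; exact C_lt τ _ (List.getElem_mem _)) hab
  · intro h i j hi hj hij
    rw [h1] at hi hj
    rcases pos_cases τ i hi with hiC | hiD
    · rcases pos_cases τ j hj with hjC | hjD
      · obtain ⟨a, ha, rfl⟩ := List.getElem_of_mem hiC
        obtain ⟨b, hb, rfl⟩ := List.getElem_of_mem hjC
        exact h a b ha hb hij
      · have hm : j ∈ τ.D.reverse ++ [] := by simpa using hjD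
        have h3 := (h2 j hm j hj).2 rfl
        have h4 := (h2 j hm i hi).1 (hij.trans h3)
        rw [h4]
    · have hm : i ∈ τ.D.reverse ++ [] := by simpa using hiD
      have h3 := (h2 i hm i hi).2 rfl
      have h4 := (h2 i hm j hj).1 (hij.symm.trans h3)
      rw [h4]

open Classical in
/-- the value of the gluing at the partitions `b` of the first and `b'` of the second ring, for
colours `d` of the positions which are proper on the new ring: the sum over the colours of the
dropped positions -/
theorem tab_sound {κ : Type} [Fintype κ] (τ : Ty) (b b' : List ℕ)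
    (hb : okB (τ.s + τ.m) b = true) (hb' : okB (τ.s + τ.l) b' = true)
    (hC : τ.C.Nodup) (hE : okE τ = true)
    (hok : okT τ.C (PQ τ.C.length) (tab τ b b') = true)
    (d : ℕ → κ) (hd : Pr (τ.C.map d)) :
    sumD τ.D (fun d => if Pr (τ.A.map d) ∧ Pr (τ.B.map d) ∧ Rsb b (τ.A.map d) ∧
      Rsb b' (τ.B.map d) then 1 else 0) d =
    ∑ i ∈ Finset.range (PQ τ.C.length).length,
      evZ (coefT τ.C (tab τ b b') ((PQ τ.C.length).getD i [])) (Fintype.card κ) *
        (if Rsb ((PQ τ.C.length).getD i []) (τ.C.map d) then 1 else 0) := by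
  rw [← A_len] at hb
  rw [← B_len] at hb'
  obtain ⟨hbl, hbi⟩ := okB_iff hb
  obtain ⟨hbl', hbi'⟩ := okB_iff hb'
  -- the joined partition
  set θ₁ := joinL τ.A b (List.range τ.N) with hθ₁
  set θ := joinL τ.B b' θ₁ with hθ
  have hA : ∀ i ∈ List.range b.length, τ.A.getD (b.getD i 0) 0 < τ.N ∧ τ.A.getD i 0 < τ.N := by
    intro i hi
    rw [List.mem_range] at hi
    have := hbi i (by omega)
    exact ⟨A_getD τ _ (by omega), A_getD τ _ (by omega)⟩
  have hB : ∀ i ∈ List.range b'.length, τ.B.getD (b'.getD i 0) 0 < τ.N ∧ τ.B.getD i 0 < τ.N := by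
    intro i hi
    rw [List.mem_range] at hi
    have := hbi' i (by omega)
    exact ⟨B_getD τ _ (by omega), B_getD τ _ (by omega)⟩
  obtain ⟨l1, r1⟩ := joinFold (κ := κ) τ.A b τ.N _ hA (List.range τ.N) (by simp)
  obtain ⟨l2, r2⟩ := joinFold (κ := κ) τ.B b' τ.N _ hB θ₁ l1
  have hlab : ∀ x ∈ θ, x < τ.N := by
    intro x hx
    have h1 := joinFold_labels τ.B b' τ.N _ hB θ₁ l1 x hx
    have h2 := joinFold_labels τ.A b τ.N _ hA (List.range τ.N) (by simp) x h1
    exact List.mem_range.1 h2
  have hθR : ∀ d : ℕ → κ, Rsp θ d ↔ Rsb b (τ.A.map d) ∧ Rsb b' (τ.B.map d) := by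
    intro d
    rw [Rsb_map _ _ hb, Rsb_map _ _ hb']
    have h1 := r2 d
    have h2 := r1 d
    have h3 : Rsp θ d ↔ Rsp θ₁ d ∧ ∀ i ∈ List.range b'.length,
      d (τ.B.getD (b'.getD i 0) 0) = d (τ.B.getD i 0) := h1
    have h4 : Rsp θ₁ d ↔ Rsp (List.range τ.N) d ∧ ∀ i ∈ List.range b.length,
      d (τ.A.getD (b.getD i 0) 0) = d (τ.A.getD i 0) := h2
    rw [h3, h4]
    simp only [Rsp_range, true_and]
  -- the edges
  obtain ⟨h5, h6⟩ := foldE (κ := κ) τ.E τ.N (List.range τ.N) (E_lt τ hE) [([1], θ)] (by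
    intro p hp
    rw [List.mem_singleton] at hp
    subst hp
    exact ⟨l2, fun x hx => List.mem_range.2 (hlab x hx)⟩)
  set t := (τ.E).foldl (fun t e => stepE e t) [([1], θ)] with ht
  -- the dropped positions
  obtain ⟨h7, h8⟩ := foldD (κ := κ) τ.D τ.N [] (D_lt τ) (D_nodup τ) (by simp) t (by
    intro p hp
    obtain ⟨h9, h10⟩ := h5 p hp
    refine ⟨h9, by simp, fun x hx hm => ?_⟩
    have := List.mem_range.1 (h10 x hm)
    omega)
  have hT : tab τ b b' = (τ.D).foldl (fun t z => stepD z t) t := rfl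
  rw [← hT] at h7 h8
  have hL : sumD τ.D (fun d => if Pr (τ.A.map d) ∧ Pr (τ.B.map d) ∧ Rsb b (τ.A.map d) ∧
      Rsb b' (τ.B.map d) then 1 else 0) d = evT (tab τ b b') (Fintype.card κ) d := by
    rw [h8]
    apply sumD_congr
    intro d' hd'
    have hCd : τ.C.map d' = τ.C.map d := by
      apply List.map_congr_left
      intro i hi
      exact hd' i fun h => D_not_C τ i h hi
    have hd2 : Pr (τ.C.map d') := by rw [hCd]; exact hd
    have h9 := Pr_okE τ hE d' hd2
    obtain ⟨h10, h11⟩ := h6 (Fintype.card κ) d'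
    by_cases h12 : ∀ e ∈ τ.E, d' e.1 ≠ d' e.2
    · rw [h10 h12, evT_cons, evT_nil]
      have h13 := h9.2 h12
      by_cases h14 : Rsp θ d'
      · rw [if_pos ⟨h13.1, h13.2, ((hθR d').1 h14).1, ((hθR d').1 h14).2⟩]
        rw [if_pos h14]
        simp [evZ]
      · rw [if_neg, if_neg h14]
        · simp
        · rintro ⟨-, -, h15, h16⟩
          exact h14 ((hθR d').2 ⟨h15, h16⟩)
    · rw [h11 h12, if_neg]
      rintro ⟨h15, h16, -, -⟩
      exact h12 (h9.1 ⟨h15, h16⟩)
  rw [hL]
  -- collecting
  set T := tab τ b b' with hTdef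
  set L := PQ τ.C.length with hLdef
  have hnd : L.Nodup := PQ_nodup _
  unfold okT at hok
  rw [List.all_eq_true] at hok
  have key : ∀ p ∈ T, evZ p.1 (Fintype.card κ) * (if Rsp p.2 d then 1 else 0) =
      ∑ i ∈ Finset.range L.length, (if rst τ.C p.2 = L.getD i [] then
        evZ p.1 (Fintype.card κ) else 0) * (if Rsb (L.getD i []) (τ.C.map d) then 1 else 0) := by
    intro p hp
    have hR := Rsp_rst τ p.2 (h7 p hp) d
    have h9 := hok p hp
    rw [Bool.or_eq_true, List.contains_iff_mem] at h9
    by_cases h10 : rst τ.C p.2 ∈ L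
    · obtain ⟨i, hi, hie⟩ := List.getElem_of_mem h10
      rw [Finset.sum_eq_single i]
      · rw [List.getD_eq_getElem _ _ hi, hie, if_pos rfl]
        by_cases h11 : Rsp p.2 d
        · rw [if_pos h11, if_pos (hR.1 h11)]
        · rw [if_neg h11, if_neg (fun h => h11 (hR.2 h))]
      · intro j hj hji
        rw [Finset.mem_range] at hj
        rw [if_neg, zero_mul]
        rw [List.getD_eq_getElem _ _ hj, ← hie]
        intro h
        exact hji ((hnd.getElem_inj_iff.1 h).symm)
      · intro h
        exact absurd (Finset.mem_range.2 hi) h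
    · have h11 : adjEq (rst τ.C p.2) = true := by
        rcases h9 with h9 | h9
        · exact h9
        · exact absurd h9 h10
      have h12 := adj_false τ.C p.2 d hd h11
      rw [if_neg (fun h => h12 (hR.1 h)), mul_zero]
      symm
      apply Finset.sum_eq_zero
      intro i hi
      rw [Finset.mem_range] at hi
      rw [if_neg, zero_mul]
      intro h
      apply h10
      rw [h, List.getD_eq_getElem _ _ hi]
      exact List.getElem_mem _
  have h9 : evT T (Fintype.card κ) d = (T.map fun p =>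
      ∑ i ∈ Finset.range L.length, (if rst τ.C p.2 = L.getD i [] then
        evZ p.1 (Fintype.card κ) else 0) *
          (if Rsb (L.getD i []) (τ.C.map d) then 1 else 0)).sum := by
    unfold evT
    congr 1
    exact List.map_congr_left key
  rw [h9, list_sum_comm]
  refine Finset.sum_congr rfl fun i _ => ?_
  rw [List.sum_map_mul_right, coef_sum]

end Pool.Agent.N467.BL
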