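import Pool.Agent.N467.BL.RepDefs
import Pool.Agent.N467.BL.Tab

/-! Representation of discs by vectors: face, rotation, mirror image, closing (subtask BLC/5,
helper296). -/

set_option autoImplicit false

namespace Pool.Agent.N467.BL

open Polynomial Finset
open Pool.Agent.TH389.BL (toP)

theorem Rsb_iff {κ : Type} (b : List ℕ) (x : List κ)
    (h : ∀ i < b.length, b.getD i 0 < b.length ∧ b.getD (b.getD i 0) 0 = b.getD i 0) :
    Rsb b x ↔ ∀ i j, i < b.length → j < b.length → b.getD i 0 = b.getD j 0 → x[i]? = x[j]? := by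
  constructor
  · intro hR i j hi hj e
    rw [hR i hi, hR j hj, e]
  · intro h' i hi
    exact h' i (b.getD i 0) hi (h i hi).1 (h i hi).2.symm

theorem can_length (l : List ℕ) : (can l).length = l.length := by simp [can]

theorem getD_mem {l : List ℕ} {i : ℕ} (hi : i < l.length) : l.getD i 0 ∈ l := by
  rw [List.getD_eq_getElem _ _ hi]
  exact List.getElem_mem hi

theorem can_getD (l : List ℕ) {i : ℕ} (hi : i < l.length) :
    (can l).getD i 0 = l.idxOf (l.getD i 0) := by
  rw [List.getD_eq_getElem _ _ (by rw [can_length]; exact hi), List.getD_eq_getElem _ _ hi]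
  simp [can]

theorem getD_idxOf {l : List ℕ} {a : ℕ} (ha : a ∈ l) : l.getD (l.idxOf a) 0 = a := by
  have h := List.idxOf_lt_length_iff.2 ha
  rw [List.getD_eq_getElem _ _ h]
  exact List.getElem_idxOf h

theorem can_prop (l : List ℕ) : ∀ i < (can l).length, (can l).getD i 0 < (can l).length ∧
    (can l).getD ((can l).getD i 0) 0 = (can l).getD i 0 := by
  intro i hi
  rw [can_length] at hi ⊢
  have h1 := getD_mem hi
  have h2 := List.idxOf_lt_length_iff.2 h1
  rw [can_getD l hi]
  refine ⟨h2, ?_⟩
  rw [can_getD l h2, getD_idxOf h1]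

theorem Rsb_can {κ : Type} (l : List ℕ) (x : List κ) :
    Rsb (can l) x ↔ ∀ i j, i < l.length → j < l.length → l.getD i 0 = l.getD j 0 →
      x[i]? = x[j]? := by
  rw [Rsb_iff _ _ (can_prop l), can_length]
  constructor
  · intro h i j hi hj e
    apply h i j hi hj
    rw [can_getD l hi, can_getD l hj, e]
  · intro h i j hi hj e
    apply h i j hi hj
    rw [can_getD l hi, can_getD l hj] at e
    exact (List.idxOf_inj (getD_mem hi)).1 e

/-- the number of a partition in the list -/
def rotOK (n : ℕ) (f : List ℕ → List ℕ) : Bool :=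
  (List.range (PQ n).length).all fun i =>
    decide (idxPQ n (can (f ((PQ n).getD i []))) < (PQ n).length) &&
    decide ((PQ n).getD (idxPQ n (can (f ((PQ n).getD i [])))) [] = can (f ((PQ n).getD i []))) &&
    decide (((PQ n).getD i []).length = n) &&
    ((List.range n).all fun a => decide (((PQ n).getD i []).getD a 0 < n) &&
      decide (((PQ n).getD i []).getD (((PQ n).getD i []).getD a 0) 0 =
        ((PQ n).getD i []).getD a 0)) &&
    (List.range (PQ n).length).all fun j =>
      decide (idxPQ n (can (f ((PQ n).getD i []))) = idxPQ n (can (f ((PQ n).getD j []))) → i = j)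

theorem rotOK_rot : ∀ n ≤ 6, rotOK n (fun b => b.rotate (n - 1)) = true := by decide +kernel

theorem rotOK_rev : ∀ n ≤ 6, rotOK n (fun b => b.reverse) = true := by decide +kernel

theorem Rep_perm {V : Type} {G : SimpleGraph V} {S : Set V} {r r' : List V} {X : ℕ → ℤ[X]}
    (n : ℕ) (f : List ℕ → List ℕ) (hn : r.length = n) (hn' : r'.length = n)
    (hmem : ∀ x, x ∈ r' ↔ x ∈ r) (hok : rotOK n f = true)
    (hPr : ∀ (k : ℕ) (c : V → Fin k), Pr (r'.map c) → Pr (r.map c))
    (hR : ∀ (k : ℕ) (c : V → Fin k) (b : List ℕ), b.length = n →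
      (∀ i < b.length, b.getD i 0 < b.length ∧ b.getD (b.getD i 0) 0 = b.getD i 0) →
      (Rsb b (r'.map c) ↔ Rsb (can (f b)) (r.map c)))
    (hX : Rep G S r X) : Rep G S r' (fun i => X (idxPQ n (can (f ((PQ n).getD i []))))) := by
  classical
  intro k c hc
  have h1 := hX k c (hPr k c hc)
  have h2 : {x | x ∈ S ∧ x ∉ r'} = {x | x ∈ S ∧ x ∉ r} := by
    ext x
    simp only [Set.mem_setOf_eq, hmem]
  rw [h2, h1, hn, hn']
  unfold rotOK at hok
  rw [List.all_eq_true] at hok
  have hok' : ∀ i < (PQ n).length, idxPQ n (can (f ((PQ n).getD i []))) < (PQ n).length ∧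
      (PQ n).getD (idxPQ n (can (f ((PQ n).getD i [])))) [] = can (f ((PQ n).getD i [])) ∧
      ((PQ n).getD i []).length = n ∧
      (∀ a < n, ((PQ n).getD i []).getD a 0 < n ∧
        ((PQ n).getD i []).getD (((PQ n).getD i []).getD a 0) 0 = ((PQ n).getD i []).getD a 0) ∧
      (∀ j < (PQ n).length, idxPQ n (can (f ((PQ n).getD i []))) =
        idxPQ n (can (f ((PQ n).getD j []))) → i = j) := by
    intro i hi
    have h3 := hok i (List.mem_range.2 hi)
    simp only [Bool.and_eq_true, decide_eq_true_eq, List.all_eq_true, List.mem_range] at h3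
    exact ⟨h3.1.1.1.1, h3.1.1.1.2, h3.1.1.2, h3.1.2, h3.2⟩
  symm
  refine Finset.sum_nbij (fun i => idxPQ n (can (f ((PQ n).getD i [])))) ?_ ?_ ?_ ?_
  · intro i hi
    rw [Finset.mem_range] at hi ⊢
    exact (hok' i hi).1
  · intro i hi j hj e
    rw [Finset.mem_coe, Finset.mem_range] at hi hj
    exact (hok' i hi).2.2.2.2 j hj e
  · apply Finset.surjOn_of_injOn_of_card_le
    · intro i hi
      rw [Finset.mem_coe, Finset.mem_range] at hi ⊢
      exact (hok' i hi).1
    · intro i hi j hj e
      rw [Finset.mem_coe, Finset.mem_range] at hi hj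
      exact (hok' i hi).2.2.2.2 j hj e
    · exact le_rfl
  · intro i hi
    rw [Finset.mem_range] at hi
    obtain ⟨-, e1, e2, e3, -⟩ := hok' i hi
    rw [e1]
    have h4 := hR k c ((PQ n).getD i []) e2 (by rw [e2]; exact e3)
    simp only [h4]

theorem Pr_rotate {κ : Type} {x : List κ} (h : Pr (x.rotate 1)) : Pr x := by
  intro e he
  exact h e (cyc_rotate.2 he)

theorem Pr_reverse {κ : Type} {x : List κ} (h : Pr x) : Pr x.reverse := by
  intro e he
  exact (h (e.2, e.1) (cyc_reverse he)).symm

theorem Rsb_rotate {κ : Type} (b : List ℕ) (x : List κ) (hx : x.length = b.length)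
    (h : ∀ i < b.length, b.getD i 0 < b.length ∧ b.getD (b.getD i 0) 0 = b.getD i 0) :
    Rsb b (x.rotate 1) ↔ Rsb (can (b.rotate (b.length - 1))) x := by
  rw [Rsb_iff b _ h, Rsb_can, List.length_rotate]
  obtain ⟨n, hn⟩ : ∃ n, n = b.length := ⟨_, rfl⟩
  rw [← hn] at hx ⊢
  have e1 : ∀ i < n, (x.rotate 1)[i]? = x[if i + 1 = n then 0 else i + 1]? := by
    intro i hi
    rw [List.getElem?_rotate (by omega), hx]
    congr 1
    split_ifs with h1
    · rw [h1, Nat.mod_self]
    · rw [Nat.mod_eq_of_lt (by omega)]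
  have e2 : ∀ i < n, (b.rotate (n - 1)).getD i 0 = b.getD (if i = 0 then n - 1 else i - 1) 0 := by
    intro i hi
    rw [List.getD_eq_getElem?_getD, List.getD_eq_getElem?_getD, List.getElem?_rotate (by omega), ← hn]
    congr 2
    split_ifs with h1
    · rw [h1, zero_add, Nat.mod_eq_of_lt (by omega)]
    · have h2 : i + (n - 1) = (i - 1) + n := by omega
      rw [h2, Nat.add_mod_right, Nat.mod_eq_of_lt (by omega)]
  constructor
  · intro h1 i j hi hj e
    rw [e2 i hi, e2 j hj] at e
    have h2 := h1 (if i = 0 then n - 1 else i - 1) (if j = 0 then n - 1 else j - 1)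
      (by split_ifs <;> omega) (by split_ifs <;> omega) e
    rw [e1 _ (by split_ifs <;> omega), e1 _ (by split_ifs <;> omega)] at h2
    have h3 : ∀ i < n, (if (if i = 0 then n - 1 else i - 1) + 1 = n then 0 else
        (if i = 0 then n - 1 else i - 1) + 1) = i := by
      intro i hi
      split_ifs <;> omega
    rwa [h3 i hi, h3 j hj] at h2
  · intro h1 i j hi hj e
    rw [e1 i hi, e1 j hj]
    apply h1 (if i + 1 = n then 0 else i + 1) (if j + 1 = n then 0 else j + 1)
      (by split_ifs <;> omega) (by split_ifs <;> omega)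
    rw [e2 (if i + 1 = n then 0 else i + 1) (by split_ifs <;> omega),
      e2 (if j + 1 = n then 0 else j + 1) (by split_ifs <;> omega)]
    have h3 : ∀ i < n, (if (if i + 1 = n then 0 else i + 1) = 0 then n - 1 else
        (if i + 1 = n then 0 else i + 1) - 1) = i := by
      intro i hi
      by_cases h4 : i + 1 = n
      · rw [if_pos h4, if_pos rfl]
        omega
      · rw [if_neg h4, if_neg (by omega)]
        omega
    rwa [h3 i hi, h3 j hj]

theorem Rsb_reverse {κ : Type} (b : List ℕ) (x : List κ) (hx : x.length = b.length)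
    (h : ∀ i < b.length, b.getD i 0 < b.length ∧ b.getD (b.getD i 0) 0 = b.getD i 0) :
    Rsb b x.reverse ↔ Rsb (can b.reverse) x := by
  rw [Rsb_iff b _ h, Rsb_can, List.length_reverse]
  obtain ⟨n, hn⟩ : ∃ n, n = b.length := ⟨_, rfl⟩
  rw [← hn] at hx ⊢
  have e1 : ∀ i < n, x.reverse[i]? = x[n - 1 - i]? := by
    intro i hi
    rw [List.getElem?_reverse (by omega), hx]
  have e2 : ∀ i < n, b.reverse.getD i 0 = b.getD (n - 1 - i) 0 := by
    intro i hi
    rw [List.getD_eq_getElem?_getD, List.getD_eq_getElem?_getD, List.getElem?_reverse (by omega), ← hn]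
  constructor
  · intro h1 i j hi hj e
    rw [e2 i hi, e2 j hj] at e
    have h2 := h1 (n - 1 - i) (n - 1 - j) (by omega) (by omega) e
    rw [e1 _ (by omega), e1 _ (by omega)] at h2
    rwa [show n - 1 - (n - 1 - i) = i by omega, show n - 1 - (n - 1 - j) = j by omega] at h2
  · intro h1 i j hi hj e
    rw [e1 i hi, e1 j hj]
    apply h1 _ _ (by omega) (by omega)
    rw [e2 _ (by omega), e2 _ (by omega)]
    rwa [show n - 1 - (n - 1 - i) = i by omega, show n - 1 - (n - 1 - j) = j by omega]

/-- BLC/5 -/
theorem Rep_rotate {V : Type} (G : SimpleGraph V) (S : Set V) (u : V) (r : List V)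
    (h6 : (u :: r).length ≤ 6) {X : ℕ → ℤ[X]} (hX : Rep G S (u :: r) X) :
    Rep G S (r ++ [u]) (fun i => X (idxPQ (r.length + 1)
      (can (((PQ (r.length + 1)).getD i []).rotate r.length)))) := by
  have e : r ++ [u] = (u :: r).rotate 1 := by simp
  rw [e]
  have hl : (u :: r).length = r.length + 1 := rfl
  refine Rep_perm (r.length + 1) (fun b => b.rotate r.length) hl
    (by rw [List.length_rotate]; rfl) (fun x => List.mem_rotate) (rotOK_rot _ (by rw [← hl]; exact h6))
    ?_ ?_ hX
  · intro k c hc
    rw [List.map_rotate] at hc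
    exact Pr_rotate hc
  · intro k c b hb hb'
    rw [List.map_rotate]
    have h1 := Rsb_rotate b ((u :: r).map c) (by rw [List.length_map, hl, hb]) hb'
    rw [h1, hb]
    rfl

/-- BLC/5 -/
theorem Rep_mirror {V : Type} (G : SimpleGraph V) (S : Set V) (r : List V)
    (h6 : r.length ≤ 6) {X : ℕ → ℤ[X]} (hX : Rep G S r X) :
    Rep G S r.reverse (fun i => X (idxPQ r.length (can ((PQ r.length).getD i []).reverse))) := by
  refine Rep_perm r.length (fun b => b.reverse) rfl (List.length_reverse)
    (fun x => List.mem_reverse) (rotOK_rev _ h6) ?_ ?_ hX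
  · intro k c hc
    rw [List.map_reverse] at hc
    have := Pr_reverse hc
    rwa [List.reverse_reverse] at this
  · intro k c b hb hb'
    rw [List.map_reverse]
    exact Rsb_reverse b (r.map c) (by rw [List.length_map, hb]) hb'

theorem face_count : ∀ n, 2 ≤ n → n ≤ 6 →
    ((range (PQ n).length).filter fun i => (PQ n).getD i [] = List.range n).card = 1 := by
  intro n h2 h6
  interval_cases n <;> decide +kernel

/-- BLC/5 -/
theorem Rep_face {V : Type} (r : List V) (hnd : r.Nodup) (h2 : 2 ≤ r.length) (h6 : r.length ≤ 6) :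
    Rep (ringG r) {x | x ∈ r} r
      (fun i => if (PQ r.length).getD i [] = List.range r.length then 1 else 0) := by
  classical
  intro k c hc
  have h1 : Nc k (ringG r) {x | x ∈ {x | x ∈ r} ∧ x ∉ r} c = 1 := by
    unfold Nc
    rw [Nat.card_eq_one_iff_unique]
    constructor
    · refine ⟨fun a b => Subtype.ext (funext fun x => ?_)⟩
      rw [a.2.1 x (fun h => h.2 h.1), b.2.1 x (fun h => h.2 h.1)]
    · refine ⟨c, fun x _ => rfl, fun x y hxy => ?_⟩
      obtain ⟨-, h | h⟩ := ringG_adj hxy
      · exact hc _ (map_zip_mem c h)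
      · exact (hc _ (map_zip_mem c h)).symm
  rw [h1]
  have h3 : ∀ i ∈ range (PQ r.length).length,
      (if (PQ r.length).getD i [] = List.range r.length then (1 : ℤ[X]) else 0).eval (k : ℤ) *
        (if Rsb ((PQ r.length).getD i []) (r.map c) then 1 else 0) =
      if (PQ r.length).getD i [] = List.range r.length then 1 else 0 := by
    intro i _
    by_cases h : (PQ r.length).getD i [] = List.range r.length
    · have h4 : Rsb (List.range r.length) (r.map c) := by
        intro a ha
        rw [List.length_range] at ha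
        rw [List.getD_eq_getElem _ _ (by rw [List.length_range]; exact ha), List.getElem_range]
      rw [h, if_pos rfl, if_pos rfl, if_pos h4]
      simp
    · rw [if_neg h, if_neg h]
      simp
  rw [Finset.sum_congr rfl h3, Finset.sum_ite, Finset.sum_const_zero, add_zero, Finset.sum_const,
    face_count _ h2 h6]
  simp

/-! ### closing -/

theorem eval_toP (p : List ℤ) (k : ℤ) : (toP p).eval k = evZ p k := by
  induction p with
  | nil => simp [toP, evZ]
  | cons a p ih => simp [toP, evZ, ih]

theorem sumD_sum {κ : Type} [Fintype κ] {ι : Type} (s : Finset ι) (D : List ℕ) (a : ι → ℤ)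
    (g : ι → (ℕ → κ) → ℤ) (d : ℕ → κ) :
    sumD D (fun d => ∑ i ∈ s, a i * g i d) d = ∑ i ∈ s, a i * sumD D (g i) d := by
  induction D generalizing g with
  | nil => rfl
  | cons z D ih =>
    simp only [sumD]
    rw [← ih]
    congr 1
    funext d
    rw [Finset.sum_comm]
    refine Finset.sum_congr rfl fun i _ => ?_
    rw [Finset.mul_sum]

open Classical in
/-- the colours of the vertices of `r` given by their positions -/
noncomputable def cd {V κ : Type} (r : List V) (d : ℕ → κ) : V → κ := fun v => d (r.idxOf v)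

open Classical in
theorem cd_update {V κ : Type} (r : List V) (hr : r.Nodup) (d : ℕ → κ) (z : ℕ)
    (hz : z < r.length) (x : κ) :
    cd r (Function.update d z x) = Function.update (cd r d) r[z] x := by
  funext v
  unfold cd
  by_cases h : v = r[z]
  · subst h
    have h1 : r.idxOf r[z] = z := hr.idxOf_getElem z hz
    rw [h1, Function.update_self, Function.update_self]
  · rw [Function.update_of_ne h, Function.update_of_ne]
    intro h1
    apply h
    have h2 : r.idxOf v < r.length := by omega
    have h3 := List.getElem_idxOf h2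
    rw [← h3]
    simp only [h1]

theorem cd_map {V κ : Type} (r : List V) (hr : r.Nodup) (d : ℕ → κ) :
    r.map (cd r d) = (List.range r.length).map d := by
  classical
  apply List.ext_getElem
  · simp
  · intro i h1 h2
    rw [List.getElem_map, List.getElem_map, List.getElem_range]
    unfold cd
    congr 1
    have := hr.idxOf_getElem i (by simpa using h1)
    convert this

theorem Nc_sumD {V : Type} [Finite V] (k : ℕ) (G : SimpleGraph V) (r : List V) (hr : r.Nodup)
    (D : List ℕ) (hD : ∀ z ∈ D, z < r.length) (hnd : D.Nodup) (I : Set V)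
    (hI : ∀ z ∈ D, ∀ v, r[z]? = some v → v ∉ I) (d : ℕ → Fin k) :
    (Nc k G (I ∪ {v | ∃ z ∈ D, r[z]? = some v}) (cd r d) : ℤ) =
      sumD D (fun d => (Nc k G I (cd r d) : ℤ)) d := by
  classical
  induction D generalizing I with
  | nil =>
    have : (I ∪ {v | ∃ z ∈ ([] : List ℕ), r[z]? = some v}) = I := by
      ext v; simp
    rw [this]
    rfl
  | cons z D ih =>
    have hz := hD z (List.mem_cons_self ..)
    rw [List.nodup_cons] at hnd
    have hzv : r[z]? = some r[z] := List.getElem?_eq_getElem hz
    have h1 : (I ∪ {v | ∃ z' ∈ z :: D, r[z']? = some v}) =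
        insert r[z] I ∪ {v | ∃ z' ∈ D, r[z']? = some v} := by
      ext v
      simp only [Set.mem_union, Set.mem_setOf_eq, List.mem_cons, Set.mem_insert_iff]
      constructor
      · rintro (h | ⟨z', rfl | h, h2⟩)
        · exact Or.inl (Or.inr h)
        · rw [hzv] at h2
          exact Or.inl (Or.inl (Option.some.inj h2).symm)
        · exact Or.inr ⟨z', h, h2⟩
      · rintro ((h | h) | ⟨z', h, h2⟩)
        · exact Or.inr ⟨z, Or.inl rfl, by rw [hzv, h]⟩
        · exact Or.inl h
        · exact Or.inr ⟨z', Or.inr h, h2⟩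
    rw [h1, sumD]
    rw [ih (fun z' hz' => hD z' (List.mem_cons_of_mem _ hz')) hnd.2]
    · congr 1
      funext d
      rw [Nc_insert k G I r[z] (hI z (List.mem_cons_self ..) _ hzv) (cd r d)]
      push_cast
      refine Finset.sum_congr rfl fun x _ => ?_
      rw [cd_update r hr d z hz x]
    · intro z' hz' v hv hm
      rw [Set.mem_insert_iff] at hm
      rcases hm with rfl | hm
      · have hz'l := hD z' (List.mem_cons_of_mem _ hz')
        rw [List.getElem?_eq_getElem hz'l] at hv
        have := (hr.getElem_inj_iff).1 (Option.some.inj hv)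
        subst this
        exact hnd.1 hz'
      · exact hI z' (List.mem_cons_of_mem _ hz') v hv hm

theorem Nc_univ {V : Type} (k : ℕ) (G : SimpleGraph V) (c : V → Fin k) :
    Nc k G Set.univ c = Nat.card (G.Coloring (Fin k)) := by
  unfold Nc
  refine Nat.card_congr
    { toFun := fun ψ => SimpleGraph.Coloring.mk ψ.1 (fun {x y} h => ψ.2.2 x y h)
      invFun := fun ψ => ⟨ψ, fun x hx => absurd (Set.mem_univ x) hx, fun x y h => ψ.valid h⟩
      left_inv := fun ψ => rfl
      right_inv := fun ψ => rfl }

theorem evZ_foldr (T : Terms) (k : ℤ) :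
    evZ (T.foldr (fun p acc => padd p.1 acc) []) k = (T.map fun p => evZ p.1 k).sum := by
  induction T with
  | nil => simp [evZ]
  | cons p T ih => rw [List.foldr_cons, evZ_padd, ih, List.map_cons, List.sum_cons]

open Classical in
theorem clos_sound (n k : ℕ) (b : List ℕ) (hn : 2 ≤ n) (hb : b.length = n)
    (hb' : ∀ i < b.length, b.getD i 0 < b.length ∧ b.getD (b.getD i 0) 0 = b.getD i 0)
    (d : ℕ → Fin k) :
    sumD (List.range n) (fun d => if Pr ((List.range n).map d) ∧ Rsb b ((List.range n).map d)
      then 1 else 0) d = evZ (clos n b) k := by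
  have hE : ∀ e ∈ (List.range n).zip ((List.range n).rotate 1), e.1 < n ∧ e.2 < n := by
    intro e he
    have h1 := List.of_mem_zip (a := e.1) (b := e.2) he
    exact ⟨List.mem_range.1 h1.1, List.mem_range.1 (List.mem_rotate.1 h1.2)⟩
  obtain ⟨h1, h2⟩ := foldE (κ := Fin k) _ n (List.range n) hE [([1], b)] (by
    intro p hp
    rw [List.mem_singleton] at hp
    subst hp
    refine ⟨hb, fun x hx => ?_⟩
    obtain ⟨i, hi, rfl⟩ := List.getElem_of_mem hx
    have := (hb' i hi).1
    rw [List.getD_eq_getElem _ _ hi, hb] at this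
    exact List.mem_range.2 this)
  obtain ⟨t, ht⟩ : ∃ t, t = ((List.range n).zip ((List.range n).rotate 1)).foldl
    (fun t e => stepE e t) [([1], b)] := ⟨_, rfl⟩
  rw [← ht] at h1 h2
  obtain ⟨h3, h4⟩ := foldD (κ := Fin k) (List.range n) n [] (fun z hz => List.mem_range.1 hz)
    List.nodup_range (by simp) t (by
      intro p hp
      obtain ⟨h9, h10⟩ := h1 p hp
      refine ⟨h9, by simp, fun x hx hm => ?_⟩
      have := List.mem_range.1 (h10 x hm)
      omega)
  obtain ⟨T, hT⟩ : ∃ T, T = (List.range n).foldl (fun t z => stepD z t) t := ⟨_, rfl⟩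
  rw [← hT] at h3 h4
  have h5 : clos n b = T.foldr (fun p acc => padd p.1 acc) [] := by
    rw [hT, ht]
    rfl
  have h6 := h4 d
  rw [Fintype.card_fin] at h6
  have h7 : evT T (k : ℤ) d = evZ (clos n b) k := by
    rw [h5, evZ_foldr]
    unfold evT
    congr 1
    apply List.map_congr_left
    intro p hp
    obtain ⟨h8, h9, -⟩ := h3 p hp
    rw [if_pos, mul_one]
    intro i j hi hj hij
    rw [h8] at hi hj
    have hm : i ∈ (List.range n).reverse ++ [] := by simpa using hi
    have h10 := (h9 i hm i hi).2 rfl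
    have h11 := (h9 i hm j hj).1 (hij.symm.trans h10)
    rw [h11]
  rw [← h7, h6]
  congr 1
  funext d'
  have hRsp : Rsp b d' ↔ Rsb b ((List.range n).map d') := by
    rw [Rsb_iff _ _ hb']
    unfold Rsp
    have h11 : ∀ i < b.length, ((List.range n).map d')[i]? = some (d' i) := by
      intro i hi
      rw [List.getElem?_map, List.getElem?_range (by omega)]
      rfl
    constructor
    · intro h i j hi hj e
      rw [h11 i hi, h11 j hj, h i j hi hj e]
    · intro h i j hi hj e
      have := h i j hi hj e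
      rw [h11 i hi, h11 j hj] at this
      exact Option.some.inj this
  obtain ⟨h8, h9⟩ := h2 k d'
  rw [← Pr_map] at h8 h9
  by_cases h12 : Pr ((List.range n).map d')
  · rw [h8 h12, evT_cons, evT_nil]
    by_cases h13 : Rsp b d'
    · rw [if_pos ⟨h12, hRsp.1 h13⟩, if_pos h13]
      simp [evZ]
    · rw [if_neg (fun h => h13 (hRsp.2 h.2)), if_neg h13]
      simp
  · rw [h9 h12, if_neg (fun h => h12 h.1)]

/-- BLC/5 -/
theorem Rep_close {V : Type} [Finite V] {w : ℕ} {G : SimpleGraph V} {r : List V}
    (hD : Disc w G Set.univ r) (h6 : r.length ≤ 6) {X : ℕ → ℤ[X]} (hX : Rep G Set.univ r X)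
    (p : ℝ[X]) (hp : ∀ k : ℕ, p.eval (k : ℝ) = (Nat.card (G.Coloring (Fin k)) : ℝ)) :
    p = ∑ i ∈ range (PQ r.length).length,
      (toP (clos r.length ((PQ r.length).getD i [])) * X i).map (Int.castRingHom ℝ) := by
  classical
  obtain ⟨hnd, h2, -, hring, -, -⟩ := hD.inv
  have hok := rotOK_rev r.length h6
  unfold rotOK at hok
  rw [List.all_eq_true] at hok
  have hok' : ∀ i < (PQ r.length).length, ((PQ r.length).getD i []).length = r.length ∧
      (∀ a < r.length, ((PQ r.length).getD i []).getD a 0 < r.length ∧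
        ((PQ r.length).getD i []).getD (((PQ r.length).getD i []).getD a 0) 0 =
          ((PQ r.length).getD i []).getD a 0) := by
    intro i hi
    have h3 := hok i (List.mem_range.2 hi)
    simp only [Bool.and_eq_true, decide_eq_true_eq, List.all_eq_true, List.mem_range] at h3
    exact ⟨h3.1.1.2, h3.1.2⟩
  have key : ∀ k : ℕ, (Nat.card (G.Coloring (Fin (k + 1))) : ℤ) =
      ∑ i ∈ range (PQ r.length).length,
        (X i).eval ((k + 1 : ℕ) : ℤ) *
          evZ (clos r.length ((PQ r.length).getD i [])) ((k + 1 : ℕ) : ℤ) := by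
    intro k
    set d : ℕ → Fin (k + 1) := fun _ => 0 with hd
    have e1 := Nc_sumD (k + 1) G r hnd (List.range r.length) (fun z hz => List.mem_range.1 hz)
      List.nodup_range {x | x ∈ Set.univ ∧ x ∉ r} (by
        intro z hz v hv hm
        exact hm.2 (List.mem_of_getElem? hv)) d
    have e2 : ({x | x ∈ Set.univ ∧ x ∉ r} ∪
        {v | ∃ z ∈ List.range r.length, r[z]? = some v} : Set V) = Set.univ := by
      ext v
      simp only [Set.mem_union, Set.mem_setOf_eq, Set.mem_univ, true_and, iff_true, List.mem_range]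
      by_cases hv : v ∈ r
      · right
        obtain ⟨z, hz, rfl⟩ := List.getElem_of_mem hv
        exact ⟨z, hz, List.getElem?_eq_getElem hz⟩
      · exact Or.inl hv
    rw [e2, Nc_univ] at e1
    rw [e1]
    have e3 : ∀ d : ℕ → Fin (k + 1), (Nc (k + 1) G {x | x ∈ Set.univ ∧ x ∉ r} (cd r d) : ℤ) =
        ∑ i ∈ range (PQ r.length).length, (X i).eval ((k + 1 : ℕ) : ℤ) *
          (if Pr ((List.range r.length).map d) ∧
            Rsb ((PQ r.length).getD i []) ((List.range r.length).map d) then 1 else 0) := by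
      intro d
      by_cases hPr : Pr ((List.range r.length).map d)
      · have e4 := hX (k + 1) (cd r d) (by rw [cd_map r hnd]; exact hPr)
        rw [cd_map r hnd] at e4
        rw [e4]
        refine Finset.sum_congr rfl fun i _ => ?_
        by_cases hR : Rsb ((PQ r.length).getD i []) ((List.range r.length).map d)
        · rw [if_pos hR, if_pos ⟨hPr, hR⟩]
        · rw [if_neg hR, if_neg (fun h => hR h.2)]
      · have e4 := Nc_zero (k + 1) G {x | x ∈ Set.univ ∧ x ∉ r} r hnd h2 hring
          (fun x hx h => h.2 hx) (cd r d) (by rw [cd_map r hnd]; exact hPr)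
        rw [e4]
        symm
        push_cast
        apply Finset.sum_eq_zero
        intro i _
        rw [if_neg (fun h => hPr h.1), mul_zero]
    simp only [e3]
    rw [sumD_sum]
    refine Finset.sum_congr rfl fun i hi => ?_
    rw [Finset.mem_range] at hi
    obtain ⟨o1, o2⟩ := hok' i hi
    rw [clos_sound r.length (k + 1) _ h2 o1 (by rw [o1]; exact o2) d]
  apply Polynomial.eq_of_infinite_eval_eq
  apply Set.Infinite.mono (s := Set.range fun k : ℕ => ((k + 1 : ℕ) : ℝ))
  · rintro _ ⟨k, rfl⟩
    rw [Set.mem_setOf_eq]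
    have h3 := key k
    show p.eval ((k + 1 : ℕ) : ℝ) = _
    rw [hp (k + 1)]
    have h4 : ((Nat.card (G.Coloring (Fin (k + 1))) : ℤ) : ℝ) =
        ((∑ i ∈ range (PQ r.length).length,
        (X i).eval ((k + 1 : ℕ) : ℤ) *
          evZ (clos r.length ((PQ r.length).getD i [])) ((k + 1 : ℕ) : ℤ) : ℤ) : ℝ) := by
      rw [h3]
    rw [Int.cast_natCast] at h4
    rw [h4, Int.cast_sum, Polynomial.eval_finset_sum]
    refine Finset.sum_congr rfl fun i _ => ?_
    have h5 : ∀ q : ℤ[X], (q.map (Int.castRingHom ℝ)).eval ((k + 1 : ℕ) : ℝ) =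
        ((q.eval ((k + 1 : ℕ) : ℤ) : ℤ) : ℝ) := by
      intro q
      have h6 : (((k + 1 : ℕ) : ℤ) : ℝ) = ((k + 1 : ℕ) : ℝ) := by norm_cast
      rw [← h6]
      exact Polynomial.eval_intCast_map (Int.castRingHom ℝ) q _
    rw [h5, Polynomial.eval_mul, eval_toP, mul_comm]
  · apply Set.infinite_range_of_injective
    intro a b hab
    have : ((a + 1 : ℕ) : ℝ) = ((b + 1 : ℕ) : ℝ) := hab
    have := Nat.cast_injective this
    omega

end Pool.Agent.N467.BL
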