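import Pool.Agent.N467.BL.GR
import Pool.Agent.N467.BL.RepGlue
import Pool.Agent.N467.BL.RepMore

/-! The induction over glued discs (subtask BLC/7). -/

set_option autoImplicit false

namespace Pool.Agent.N467.BL

open Finset Polynomial
open Pool.Agent.TH389.BL (ev evv toP K aeval_toP)

/-- the invariant: a representing vector in the cone -/
theorem disc_inv {q : ℝ} {Gs : ℕ → List (List (List ℤ))} {ws : ℕ → ℕ}
    (hok : ∀ τ ∈ tys 6, okAll τ = true)
    (hface : ∀ n, 2 ≤ n → n ≤ 6 → K q (Gs n) (ws n) true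
      (fun i => if (PQ n).getD i [] = List.range n then 1 else 0))
    (hrot : ∀ n, 2 ≤ n → n ≤ 6 → ∀ b x, K q (Gs n) (ws n) b x →
      K q (Gs n) (ws n) b (fun i => x (idxPQ n (can (((PQ n).getD i []).rotate (n - 1))))))
    (hmir : ∀ n, 2 ≤ n → n ≤ 6 → ∀ b x, K q (Gs n) (ws n) b x →
      K q (Gs n) (ws n) b (fun i => x (idxPQ n (can ((PQ n).getD i []).reverse))))
    (hglue : ∀ τ ∈ tys 6, ∀ b b' x y, K q (Gs (τ.s + τ.m)) (ws (τ.s + τ.m)) b x →
      K q (Gs (τ.s + τ.l)) (ws (τ.s + τ.l)) b' y →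
      K q (Gs τ.C.length) (ws τ.C.length) (b && b') (gR τ q x y))
    {V : Type} [Finite V] {G : SimpleGraph V} {S : Set V} {r : List V} (h : Disc 6 G S r) :
    ∃ X : ℕ → ℤ[X], Rep G S r X ∧
      K q (Gs r.length) (ws r.length) true (fun i => aeval q (X i)) := by
  classical
  induction h with
  | face r h1 h2 h3 =>
    refine ⟨_, Rep_face r h1 h2 h3, ?_⟩
    have e : (fun i => aeval q (if (PQ r.length).getD i [] = List.range r.length then (1 : ℤ[X])
        else 0)) = fun i => if (PQ r.length).getD i [] = List.range r.length then (1 : ℝ) else 0 := by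
      funext i
      split_ifs
      · exact map_one _
      · exact map_zero _
    rw [e]
    exact hface r.length h2 h3
  | rotate G S u r h ih =>
    obtain ⟨X, hX, hK⟩ := ih
    obtain ⟨-, h2, h3, -⟩ := h.inv
    refine ⟨_, Rep_rotate G S u r h3 hX, ?_⟩
    have e : (r ++ [u]).length = r.length + 1 := by simp
    rw [e]
    exact hrot (r.length + 1) h2 h3 true _ hK
  | mirror G S r h ih =>
    obtain ⟨X, hX, hK⟩ := ih
    obtain ⟨-, h2, h3, -⟩ := h.inv
    refine ⟨_, Rep_mirror G S r h3 hX, ?_⟩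
    rw [List.length_reverse]
    exact hmir r.length h2 h3 true _ hK
  | glue G H S T P Q R E F hA hB hST hE hF hnd h2 h3 ihA ihB =>
    obtain ⟨X, hX, hKX⟩ := ihA
    obtain ⟨Y, hY, hKY⟩ := ihB
    obtain ⟨τ, hτ, e1, e2, e3, hR⟩ := Rep_glue hA hB hST hE hF hnd h2 h3 hok hX hY
    refine ⟨_, hR, ?_⟩
    rw [← e1] at hKX
    rw [← e2] at hKY
    have h4 := hglue τ hτ true true _ _ hKX hKY
    rw [e3] at h4
    have e : (fun i => aeval q (gX τ X Y i)) =
        gR τ q (fun i => aeval q (X i)) (fun i => aeval q (Y i)) := by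
      funext c
      unfold gX gR
      simp only [map_sum, map_mul, aeval_toP]
    rw [e]
    exact h4

/-- BLC/7: positivity of the chromatic polynomial from the closure of the cones -/
theorem disc_pos {q : ℝ} {Gs : ℕ → List (List (List ℤ))} {ws : ℕ → ℕ}
    (hok : ∀ τ ∈ tys 6, okAll τ = true)
    (hface : ∀ n, 2 ≤ n → n ≤ 6 → K q (Gs n) (ws n) true
      (fun i => if (PQ n).getD i [] = List.range n then 1 else 0))
    (hrot : ∀ n, 2 ≤ n → n ≤ 6 → ∀ b x, K q (Gs n) (ws n) b x →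
      K q (Gs n) (ws n) b (fun i => x (idxPQ n (can (((PQ n).getD i []).rotate (n - 1))))))
    (hmir : ∀ n, 2 ≤ n → n ≤ 6 → ∀ b x, K q (Gs n) (ws n) b x →
      K q (Gs n) (ws n) b (fun i => x (idxPQ n (can ((PQ n).getD i []).reverse))))
    (hglue : ∀ τ ∈ tys 6, ∀ b b' x y, K q (Gs (τ.s + τ.m)) (ws (τ.s + τ.m)) b x →
      K q (Gs (τ.s + τ.l)) (ws (τ.s + τ.l)) b' y →
      K q (Gs τ.C.length) (ws τ.C.length) (b && b') (gR τ q x y))
    (hpos : ∀ n, 2 ≤ n → n ≤ 6 → ∀ x, K q (Gs n) (ws n) true x →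
      0 < ∑ i ∈ range (PQ n).length, ev (clos n ((PQ n).getD i [])) q * x i)
    {V : Type} [Finite V] {G : SimpleGraph V} {r : List V} (h : Disc 6 G Set.univ r)
    (p : ℝ[X]) (hp : ∀ k : ℕ, p.eval (k : ℝ) = (Nat.card (G.Coloring (Fin k)) : ℝ)) :
    0 < p.eval q := by
  obtain ⟨X, hX, hK⟩ := disc_inv hok hface hrot hmir hglue h
  obtain ⟨-, h2, h3, -⟩ := h.inv
  rw [Rep_close h h3 hX p hp, eval_finsetSum]
  have h4 := hpos r.length h2 h3 _ hK
  refine lt_of_lt_of_eq h4 (Finset.sum_congr rfl fun i _ => ?_)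
  rw [← eval₂_eq_eval_map]
  show _ = aeval q (toP (clos r.length ((PQ r.length).getD i [])) * X i)
  rw [map_mul, aeval_toP]

end Pool.Agent.N467.BL
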