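import Pool.Agent.N467.BL.Cfg
import Pool.Agent.N467.BL.Main

/-! Data for the faces, the rotations, the mirror images and the positivity. -/

set_option autoImplicit false
set_option maxRecDepth 1000000

namespace Pool.Agent.N467.BL

def fc2 : ℕ × List ℕ × List (ℕ × List ℕ) := (1, [], [(0, [1])])

def ro2 : List ℕ := [0]

def mi2 : List ℕ := [0]

def po2 : List (List ℕ) := [[12, 7, 1]]

def fc3 : ℕ × List ℕ × List (ℕ × List ℕ) := (1, [], [(0, [1])])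

def ro3 : List ℕ := [0]

def mi3 : List ℕ := [0]

def po3 : List (List ℕ) := [[24, 26, 9, 1]]

def fc4 : ℕ × List ℕ × List (ℕ × List ℕ) := (1, [], [(0, [1]), (2, [1])])

def ro4 : List ℕ := [1, 0, 3, 2]

def mi4 : List ℕ := [1, 0, 3, 2]

def po4 : List (List ℕ) := [[48, 76, 44, 11, 1], [48, 76, 44, 11, 1], [36, 33, 10, 1], [36, 33, 10, 1]]

def fc5 : ℕ × List ℕ × List (ℕ × List ℕ) := (1, [], [(0, [1]), (6, [1]), (7, [1])])

def ro5 : List ℕ := [4, 3, 1, 0, 2, 5, 9, 10, 6, 7, 8]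

def mi5 : List ℕ := [4, 1, 3, 2, 0, 5, 10, 9, 8, 7, 6]

def po5 : List (List ℕ) := [[96, 200, 164, 66, 13, 1], [96, 200, 164, 66, 13, 1], [96, 200, 164, 66, 13, 1], [96, 200, 164, 66, 13, 1], [96, 200, 164, 66, 13, 1], [120, 346, 399, 240, 80, 14, 1], [72, 102, 53, 12, 1], [72, 102, 53, 12, 1], [72, 102, 53, 12, 1], [72, 102, 53, 12, 1], [72, 102, 53, 12, 1]]

def fc6 : ℕ × List ℕ × List (ℕ × List ℕ) := (1, [], [(0, [1]), (26, [1]), (28, [1]), (30, [1]), (35, [1])])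

def ro6 : List ℕ := [13, 12, 10, 9, 11, 4, 3, 1, 6, 0, 2, 5, 7, 8, 15, 16, 19, 14, 17, 18, 20, 22, 23, 21, 25, 24, 32, 38, 41, 42, 43, 27, 26, 29, 28, 45, 44, 30, 31, 34, 33, 35, 36, 37, 40, 39]

def mi6 : List ℕ := [13, 4, 10, 6, 1, 12, 3, 11, 9, 8, 2, 7, 5, 0, 19, 16, 15, 18, 17, 14, 20, 23, 22, 21, 25, 24, 32, 27, 45, 44, 43, 38, 26, 40, 39, 41, 42, 37, 31, 34, 33, 35, 36, 30, 29, 28]

def po6 : List (List ℕ) := [[192, 496, 528, 296, 92, 15, 1], [192, 496, 528, 296, 92, 15, 1], [192, 496, 528, 296, 92, 15, 1], [192, 496, 528, 296, 92, 15, 1], [192, 496, 528, 296, 92, 15, 1], [192, 496, 528, 296, 92, 15, 1], [192, 496, 528, 296, 92, 15, 1], [192, 496, 528, 296, 92, 15, 1], [192, 496, 528, 296, 92, 15, 1], [192, 496, 528, 296, 92, 15, 1], [192, 496, 528, 296, 92, 15, 1], [192, 496, 528, 296, 92, 15, 1], [192, 496, 528, 296, 92, 15, 1], [192, 496, 528, 296, 92, 15, 1], [240, 812, 1144,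 879, 400, 108, 16, 1], [240, 812, 1144, 879, 400, 108, 16, 1], [240, 812, 1144, 879, 400, 108, 16, 1], [240, 812, 1144, 879, 400, 108, 16, 1], [240, 812, 1144, 879, 400, 108, 16, 1], [240, 812, 1144, 879, 400, 108, 16, 1], [264, 838, 1153, 880, 400, 108, 16, 1], [312, 1274, 2235, 2208, 1347, 521, 125, 17, 1], [312, 1274, 2235, 2208, 1347, 521, 125, 17, 1], [312, 1274, 2235, 2208, 1347, 521, 125, 17, 1], [432, 2004, 4130, 4962, 3820, 1950, 660, 143, 18, 1], [432, 2004, 4130, 4962, 3820, 1950, 660, 143, 18, 1], [108, 135, 63, 13, 1], [108, 135, 63, 13, 1], [144, 276, 208, 77, 14, 1], [144, 276, 208, 77, 14, 1], [144, 276, 208, 77, 14, 1], [108, 135, 63, 13, 1], [108, 135, 63, 13, 1], [144, 276, 208, 77, 14, 1], [144, 276, 208, 77, 14, 1], [144, 276, 208, 77, 14, 1], [144, 276, 208, 77, 14, 1], [144, 276, 208, 77, 14, 1], [108, 135, 63, 13, 1], [144, 276, 208, 77, 14, 1], [144, 276, 208, 77,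 14, 1], [144, 276, 208, 77, 14, 1], [144, 276, 208, 77, 14, 1], [144, 276, 208, 77, 14, 1], [144, 276, 208, 77, 14, 1], [144, 276, 208, 77, 14, 1]]

def fcs : ℕ → ℕ × List ℕ × List (ℕ × List ℕ)
  | 2 => fc2 | 3 => fc3 | 4 => fc4 | 5 => fc5 | _ => fc6

def ros : ℕ → List ℕ
  | 2 => ro2 | 3 => ro3 | 4 => ro4 | 5 => ro5 | _ => ro6

def mis : ℕ → List ℕ
  | 2 => mi2 | 3 => mi3 | 4 => mi4 | 5 => mi5 | _ => mi6

def pos : ℕ → List (List ℕ)
  | 2 => po2 | 3 => po3 | 4 => po4 | 5 => po5 | _ => po6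

end Pool.Agent.N467.BL
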