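import Pool.Agent.H413R2.RP.Glue
import Pool.Agent.N467.BL.Defs

/-! Graphs obtained from glued discs by addition and contraction. -/

set_option autoImplicit false

namespace Pool.Agent.N467.BL

open Polynomial

open Finset Pool.Agent.H413R2.RP in
/-- Every finite graph has a chromatic polynomial (as in `Pool.Agent.H413R2.RP.Half`). -/
theorem exists_chrom {V : Type} [Fintype V] (G : SimpleGraph V) : ∃ p : Polynomial ℝ, IsChrom G p := by
  classical
  let b : Fin 0 → V := fun i => i.elim0
  refine ⟨∑ A ∈ G.edgeFinset.powerset, C ((-1) ^ A.card) * X ^ (c0 (conn A) b), ?_⟩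
  intro m
  let φ : Fin 0 → Fin m := fun i => i.elim0
  have h1 : (Nat.card (G.Coloring (Fin m)) : ℝ) = (Nb G b m φ : ℝ) := by
    unfold Nb
    congr 1
    apply Nat.card_congr
    refine ⟨fun c => ⟨fun v => c v, fun u v huv => c.valid huv, fun i => i.elim0⟩,
      fun x => SimpleGraph.Coloring.mk x.1 (fun {u v} huv => x.2.1 u v huv), ?_, ?_⟩
    · intro c; rfl
    · intro x; rfl
  rw [h1, Nb_eq, Polynomial.eval_finsetSum]
  refine Finset.sum_congr rfl (fun A _ => ?_)
  have : Setoid.comap b (conn A) ≤ Setoid.ker φ := fun i => i.elim0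
  rw [ind_pos this]
  simp only [eval_mul, eval_C, eval_pow, eval_X, mul_one]

open Pool.Agent.H413R2.RP in
theorem chrom_unique {V : Type} {G : SimpleGraph V} {p p' : Polynomial ℝ} (h : IsChrom G p)
    (h' : IsChrom G p') : p = p' := by
  apply Polynomial.eq_of_infinite_eval_eq
  apply Set.Infinite.mono (s := Set.range (fun m : ℕ => (m : ℝ)))
  · rintro _ ⟨m, rfl⟩
    change eval (m : ℝ) p = eval (m : ℝ) p'
    rw [h m, h' m]
  · exact Set.infinite_range_of_injective Nat.cast_injective

/-- the graph `G` with the vertex `v` identified with the vertex `u` -/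
def idG {V : Type} (G : SimpleGraph V) (u v : V) : SimpleGraph {x : V // x ≠ v} where
  Adj x y := x ≠ y ∧ (G.Adj x y ∨ (x.1 = u ∧ G.Adj v y) ∨ (y.1 = u ∧ G.Adj v x))
  symm := ⟨by
    intro x y h
    refine ⟨h.1.symm, ?_⟩
    rcases h.2 with h | h | h
    · exact Or.inl h.symm
    · exact Or.inr (Or.inr h)
    · exact Or.inr (Or.inl h)⟩
  loopless := ⟨by
    intro x h
    exact h.1 rfl⟩

/-- The least family of graphs which contains the graphs with at most one vertex and the graphs glued
from polygons with perimeters at most `w`, and contains a graph `G` whenever it contains the graph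
`G + uv` and the graph `G / uv` in which `u` and `v` are identified, for two vertices `u`, `v` which
are not adjacent. -/
inductive Fam (w : ℕ) : (V : Type) → SimpleGraph V → Prop
  | point (V : Type) (G : SimpleGraph V) : Subsingleton V → Fam w V G
  | disc (V : Type) (G : SimpleGraph V) (r : List V) : Disc w G Set.univ r → Fam w V G
  | split (V : Type) (G : SimpleGraph V) (u v : V) : u ≠ v → ¬ G.Adj u v →
      Fam w V (G ⊔ SimpleGraph.edge u v) → Fam w {x : V // x ≠ v} (idG G u v) → Fam w V G

theorem card_split {V : Type} [Finite V] (G : SimpleGraph V) {u v : V} (huv : u ≠ v)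
    (hn : ¬ G.Adj u v) (k : ℕ) :
    Nat.card (G.Coloring (Fin k)) = Nat.card ((G ⊔ SimpleGraph.edge u v).Coloring (Fin k)) +
      Nat.card ((idG G u v).Coloring (Fin k)) := by
  classical
  have e1 : G.Coloring (Fin k) ≃ {c : G.Coloring (Fin k) // c u ≠ c v} ⊕
      {c : G.Coloring (Fin k) // ¬ c u ≠ c v} := (Equiv.sumCompl _).symm
  have e2 : {c : G.Coloring (Fin k) // c u ≠ c v} ≃ (G ⊔ SimpleGraph.edge u v).Coloring (Fin k) :=
    { toFun := fun c => SimpleGraph.Coloring.mk (fun x => c.1 x) (by
        intro x y h
        rw [SimpleGraph.sup_adj, SimpleGraph.edge_adj] at h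
        rcases h with h | ⟨⟨rfl, rfl⟩ | ⟨rfl, rfl⟩, _⟩
        · exact c.1.valid h
        · exact c.2
        · exact c.2.symm)
      invFun := fun c => ⟨SimpleGraph.Coloring.mk (fun x => c x) (by
        intro x y h
        exact c.valid (Or.inl h)), by
        refine c.valid ?_
        rw [SimpleGraph.sup_adj, SimpleGraph.edge_adj]
        exact Or.inr ⟨Or.inl ⟨rfl, rfl⟩, huv⟩⟩
      left_inv := fun c => by
        apply Subtype.ext
        ext x
        rfl
      right_inv := fun c => by
        ext x
        rfl }
  have e3 : {c : G.Coloring (Fin k) // ¬ c u ≠ c v} ≃ (idG G u v).Coloring (Fin k) :=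
    { toFun := fun c => SimpleGraph.Coloring.mk (fun x => c.1 x.1) (by
        intro x y h
        have h0 : c.1 u = c.1 v := not_not.1 c.2
        rcases h.2 with h | ⟨h, h'⟩ | ⟨h, h'⟩
        · exact c.1.valid h
        · rw [h, h0]; exact c.1.valid h'
        · rw [h, h0]; exact (c.1.valid h').symm)
      invFun := fun c => ⟨SimpleGraph.Coloring.mk
          (fun x => if h : x = v then c ⟨u, huv⟩ else c ⟨x, h⟩) (by
        intro x y h
        by_cases hx : x = v
        · have hy : y ≠ v := fun h' => h.ne (hx.trans h'.symm)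
          rw [dif_pos hx, dif_neg hy]
          have h3 : G.Adj v y := by rw [hx] at h; exact h
          refine c.valid ⟨?_, Or.inr (Or.inl ⟨rfl, h3⟩)⟩
          intro h'
          have : u = y := congrArg Subtype.val h'
          exact hn (by rw [this]; exact h3.symm)
        · by_cases hy : y = v
          · rw [dif_neg hx, dif_pos hy]
            have h3 : G.Adj v x := by rw [hy] at h; exact h.symm
            refine c.valid ⟨?_, Or.inr (Or.inr ⟨rfl, h3⟩)⟩
            intro h'
            have : x = u := congrArg Subtype.val h'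
            exact hn (by rw [← this]; exact h3.symm)
          · rw [dif_neg hx, dif_neg hy]
            exact c.valid ⟨fun h' => h.ne (congrArg Subtype.val h'), Or.inl h⟩), by
        rw [not_not]
        show (if h : u = v then c ⟨u, huv⟩ else c ⟨u, h⟩) =
          (if h : v = v then c ⟨u, huv⟩ else c ⟨v, h⟩)
        rw [dif_neg huv, dif_pos rfl]⟩
      left_inv := fun c => by
        apply Subtype.ext
        ext x
        have h0 : c.1 u = c.1 v := not_not.1 c.2
        show ((if h : x = v then c.1 u else c.1 x : Fin k) : ℕ) = _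
        split_ifs with h
        · rw [h0, h]
        · rfl
      right_inv := fun c => by
        ext x
        show ((if h : x.1 = v then c ⟨u, huv⟩ else c ⟨x.1, h⟩ : Fin k) : ℕ) = _
        rw [dif_neg x.2] }
  have : Finite (G.Coloring (Fin k)) := Finite.of_injective (fun c => (fun x => c x : V → Fin k))
    (fun a b h => by ext x; exact congrArg Fin.val (congrFun h x))
  rw [Nat.card_congr e1, Nat.card_sum, Nat.card_congr e2, Nat.card_congr e3]

theorem point_pos {q : ℝ} (hq : 0 < q) {V : Type} [Subsingleton V] (G : SimpleGraph V)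
    (p : ℝ[X]) (hp : ∀ k : ℕ, p.eval (k : ℝ) = (Nat.card (G.Coloring (Fin k)) : ℝ)) :
    0 < p.eval q := by
  classical
  have hc : ∀ k : ℕ, Nat.card (G.Coloring (Fin k)) = Nat.card (V → Fin k) := fun k =>
    Nat.card_congr
      { toFun := fun c x => c x
        invFun := fun f => SimpleGraph.Coloring.mk f (fun {x y} h =>
          absurd (Subsingleton.elim x y) h.ne)
        left_inv := fun c => by ext x; rfl
        right_inv := fun f => rfl }
  rcases isEmpty_or_nonempty V with hV | hV
  · have e : p = 1 := by
      refine chrom_unique (G := G) hp fun m => ?_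
      rw [hc m, Nat.card_eq_one_iff_unique.2 ⟨inferInstance, inferInstance⟩]
      simp
    rw [e, eval_one]
    exact one_pos
  · obtain ⟨v⟩ := hV
    have : Unique V := ⟨⟨v⟩, fun a => Subsingleton.elim _ _⟩
    have e : p = X := by
      refine chrom_unique (G := G) hp fun m => ?_
      rw [hc m, Nat.card_congr (Equiv.funUnique V (Fin m)), Nat.card_eq_fintype_card,
        Fintype.card_fin, eval_X]
    rw [e, eval_X]
    exact hq

/-- positivity passes from glued discs to the whole family -/
theorem fam_pos {w : ℕ} {q : ℝ} (hq : 0 < q)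
    (hd : ∀ (V : Type) (_ : Finite V) (G : SimpleGraph V) (r : List V), Disc w G Set.univ r →
      ∀ p : ℝ[X], (∀ k : ℕ, p.eval (k : ℝ) = (Nat.card (G.Coloring (Fin k)) : ℝ)) → 0 < p.eval q)
    {V : Type} {G : SimpleGraph V} (h : Fam w V G) : ∀ [Finite V],
    ∀ p : ℝ[X], (∀ k : ℕ, p.eval (k : ℝ) = (Nat.card (G.Coloring (Fin k)) : ℝ)) → 0 < p.eval q := by
  induction h with
  | point V G h => intro hV p hp; exact point_pos hq G p hp
  | disc V G r h => intro hV p hp; exact hd V hV G r h p hp
  | split V G u v huv hn h1 h2 ih1 ih2 =>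
    intro hV p hp
    have := Fintype.ofFinite V
    have := Fintype.ofFinite {x : V // x ≠ v}
    obtain ⟨p1, hp1⟩ := exists_chrom (G ⊔ SimpleGraph.edge u v)
    obtain ⟨p2, hp2⟩ := exists_chrom (idG G u v)
    have e : p = p1 + p2 := by
      refine chrom_unique (G := G) hp ?_
      intro m
      rw [eval_add, hp1 m, hp2 m, card_split G huv hn m]
      push_cast
      rfl
    rw [e, eval_add]
    exact add_pos (ih1 p1 hp1) (ih2 p2 hp2)

end Pool.Agent.N467.BL
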