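import Pool.Agent.N467.BL.Cfg
import Pool.Agent.N467.BL.Chk

/-! The sizes and the packed values for the five ring lengths. -/

set_option autoImplicit false
set_option maxRecDepth 1000000

namespace Pool.Agent.N467.BL

def dds : ℕ → ℕ
  | 2 => 24 | 3 => 22 | 4 => 22 | 5 => 20 | _ => 19

def dls : ℕ → ℕ
  | 2 => 12 | 3 => 11 | 4 => 11 | 5 => 10 | _ => 10

def nls : ℕ → ℕ
  | 2 => 6480312 | 3 => 2160104 | 4 => 3063440 | 5 => 884410 | _ => 1214156

/-- sizes for the target ring length `n` -/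
def par (n : ℕ) : Par := ⟨72, dds n, 4, 150, dls n, nls n, 8, 4096, dcs n, mcs n⟩

/-- checks of the data for ring length `n` -/
def lvA (n : ℕ) : Bool :=
  okPar (par n) && Nat.beq (Ms n) (Nat.pow 2 (72 * (dds n + 1) * 16)) &&
    decide (Wns n = (List.range 15).map fun i => Nat.pow 2 (72 * (dds n + 1) * i)) &&
    ((Gs n).all fun g => okVec (PQ n).length 4 150 g) &&
    ((Ls n).all fun g => okVec (PQ n).length (dls n) (nls n) g) &&
    Nat.beq (Ls n).length (nLs n) && Nat.beq (Gs n).length (nGs n) &&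
    Nat.ble (PQ n).length 15 && Nat.blt 0 (PQ n).length

def lvB (n : ℕ) : Bool :=
  decide (hzs n = (Gs n).map fun g => g.map fun c => evZ c (Int.ofNat Bn))

def lvC (n : ℕ) : Bool :=
  decide (Lps n = (Ls n).map fun g =>
    res (Ms n) (pkv (Int.ofNat Bn) (Int.ofNat ((Wns n).getD 1 0)) g))

theorem lvA_ok : ∀ n ∈ [2, 3, 4, 5, 6], lvA n = true := by decide +kernel

theorem lvB_ok : ∀ n ∈ [2, 3, 4, 5, 6], lvB n = true := by decide +kernel

theorem lvC_ok : ∀ n ∈ [2, 3, 4, 5, 6], lvC n = true := by decide +kernel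

theorem Bn_eq : Bn = 2 ^ 72 := by decide +kernel

theorem Bx_eq : Bx = 2 ^ 72 - 4 := by decide +kernel

end Pool.Agent.N467.BL
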