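import Pool.Agent.N467.BL.TabProps
import Pool.Agent.N467.BL.Count
import Pool.Agent.TH389.BL.Poly

/-! Representation of discs by vectors: definitions (from StmRep.lean, helper467). -/

set_option autoImplicit false

namespace Pool.Agent.N467.BL

open Polynomial Finset
open Pool.Agent.TH389.BL (toP)

open Classical in
/-- the vector `X` of polynomials gives the numbers of extensions of the colourings of the ring `r`
to the disc with graph `G` and vertex set `S` -/
def Rep {V : Type} (G : SimpleGraph V) (S : Set V) (r : List V) (X : ℕ → ℤ[X]) : Prop :=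
  ∀ (k : ℕ) (c : V → Fin k), Pr (r.map c) →
    (Nc k G {x | x ∈ S ∧ x ∉ r} c : ℤ) =
      ∑ i ∈ range (PQ r.length).length, (X i).eval (k : ℤ) *
        (if Rsb ((PQ r.length).getD i []) (r.map c) then 1 else 0)

/-- the vector of two glued discs -/
noncomputable def gX (τ : Ty) (X Y : ℕ → ℤ[X]) : ℕ → ℤ[X] := fun c =>
  ∑ i ∈ range (PQ (τ.s + τ.m)).length, ∑ j ∈ range (PQ (τ.s + τ.l)).length,
    toP (coefT τ.C (tab τ ((PQ (τ.s + τ.m)).getD i []) ((PQ (τ.s + τ.l)).getD j []))
      ((PQ τ.C.length).getD c [])) * X i * Y j

/-- label = index of first occurrence -/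
def can (l : List ℕ) : List ℕ := l.map fun x => l.idxOf x

/-- index in `PQ n` of the partition `b` -/
def idxPQ (n : ℕ) (b : List ℕ) : ℕ := (PQ n).idxOf b

/-- polynomial coefficients of the number of proper colourings of the cycle of length `n` which
respect the partition `b` -/
def clos (n : ℕ) (b : List ℕ) : List ℤ :=
  let t := ((List.range n).zip ((List.range n).rotate 1)).foldl (fun t e => stepE e t) [([1], b)]
  let t := (List.range n).foldl (fun t z => stepD z t) t
  t.foldr (fun p acc => padd p.1 acc) []

end Pool.Agent.N467.BL
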