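import Pool.Agent.TH389.BL.Cone

/-! Redundant generators (subtask BLC/8, helper849). -/

set_option autoImplicit false

namespace Pool.Agent.N467.BL

open Pool.Agent.TH389.BL

/-- check of one vector of the list `L`: the datum is a flag, and either an index of a generator
(flag `true`) or a certificate with vectors of `L` of smaller rank -/
def stOne (u v : List ℤ) (G L : List (List (List ℤ))) (wG wL : ℕ) (rk : List ℕ) (i : ℕ)
    (y : List (List ℤ)) (d : Bool × ℕ × List ℕ × List (ℕ × List ℕ)) : Bool :=
  if d.1 then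
    decide (d.2.1 < G.length) && veq y (G.getD d.2.1 []) && (!decide (i < wL) || decide (d.2.1 < wG))
  else
    certOK u v L y d.2 && (d.2.2.2.all fun e => decide (rk.getD e.1 0 < rk.getD i 0)) &&
      (!decide (i < wL) || d.2.2.2.any fun e => decide (e.1 < wL))

/-- check of the vectors with the indices `i, i + 1, …` -/
def stAll (u v : List ℤ) (G L : List (List (List ℤ))) (wG wL : ℕ) (rk : List ℕ) :
    ℕ → List (List (List ℤ)) → List (Bool × ℕ × List ℕ × List (ℕ × List ℕ)) → Bool
  | _, [], [] => true
  | i, y :: ys, d :: ds => stOne u v G L wG wL rk i y d && stAll u v G L wG wL rk (i + 1) ys ds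
  | _, _, _ => false

theorem stAll_get {u v : List ℤ} {G L : List (List (List ℤ))} {wG wL : ℕ} {rk : List ℕ}
    (ys : List (List (List ℤ))) : ∀ (i : ℕ) (ds : List (Bool × ℕ × List ℕ × List (ℕ × List ℕ))),
    stAll u v G L wG wL rk i ys ds = true → ∀ j, j < ys.length →
      ∃ d, stOne u v G L wG wL rk (i + j) (ys.getD j []) d = true := by
  induction ys with
  | nil => intro i ds _ j hj; simp at hj
  | cons y ys ih =>
    intro i ds h j hj
    cases ds with
    | nil => simp [stAll] at h
    | cons d ds =>
      simp only [stAll, Bool.and_eq_true] at h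
      cases j with
      | zero => exact ⟨d, by simpa using h.1⟩
      | succ j =>
        obtain ⟨d', hd'⟩ := ih (i + 1) ds h.2 j (by simpa using hj)
        refine ⟨d', ?_⟩
        rw [show i + (j + 1) = i + 1 + j by ring]
        simpa using hd'

theorem K_weaken {q : ℝ} {G : List (List (List ℤ))} {w : ℕ} {b b' : Bool} {x : ℕ → ℝ}
    (hx : K q G w b x) (h : b' = true → b = true) : K q G w b' x := by
  cases b' with
  | true => rw [h rfl] at hx; exact hx
  | false =>
    cases b with
    | true => exact K.weak _ hx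
    | false => exact hx

theorem K_combo' {q : ℝ} {u v : List ℤ} (hu : 0 < ev u q) (hv : 0 < ev v q)
    {G L : List (List (List ℤ))} {wG wL : ℕ} (t : List (ℕ × List ℕ))
    (h : t.all (fun e => decide (e.1 < L.length) && e.2.any (fun c => c != 0)) = true)
    (hK : ∀ e ∈ t, K q G wG (decide (e.1 < wL)) (evv (L.getD e.1 []) q)) :
    K q G wG (t.any fun e => decide (e.1 < wL)) (evv (combo u v L t) q) := by
  induction t with
  | nil =>
    have : evv (combo u v L []) q = fun _ => 0 := by
      funext i; exact evv_nil q i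
    rw [this]
    exact K.zero
  | cons e t ih =>
    simp only [List.all_cons, Bool.and_eq_true, decide_eq_true_eq] at h
    obtain ⟨⟨h1, h2⟩, h3⟩ := h
    have hK1 : K q G wG (decide (e.1 < wL)) (evv (vscal (bern u v e.2) (L.getD e.1 [])) q) := by
      have : evv (vscal (bern u v e.2) (L.getD e.1 [])) q =
          fun i => ev (bern u v e.2) q * evv (L.getD e.1 []) q i := by
        funext i; exact evv_vscal _ _ _ _
      rw [this]
      exact K.smul _ _ _ (ev_bern_pos hu hv _ h2) (hK e (List.mem_cons_self))
    have : evv (combo u v L (e :: t)) q = fun i =>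
        evv (vscal (bern u v e.2) (L.getD e.1 [])) q i + evv (combo u v L t) q i := by
      funext i
      simp only [combo, List.foldr_cons, evv_vadd]
    rw [this, List.any_cons]
    exact K.add _ _ _ _ hK1 (ih h3 fun e he => hK e (List.mem_cons_of_mem _ he))

theorem K_cert' {q : ℝ} {u v : List ℤ} (hu : 0 < ev u q) (hv : 0 < ev v q) (hq : 3 < q)
    {G L : List (List (List ℤ))} {wG wL : ℕ} {y : List (List ℤ)}
    (D : ℕ × List ℕ × List (ℕ × List ℕ)) (h : certOK u v L y D = true)
    (hK : ∀ e ∈ D.2.2, K q G wG (decide (e.1 < wL)) (evv (L.getD e.1 []) q)) :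
    K q G wG (D.2.2.any fun e => decide (e.1 < wL)) (evv y q) := by
  simp only [certOK, Bool.and_eq_true, decide_eq_true_eq] at h
  obtain ⟨⟨h1, h2⟩, h3⟩ := h
  have hK := K_combo' (q := q) (G := G) (wG := wG) (wL := wL) hu hv D.2.2 h2 hK
  have he := evv_veq h3 q
  have hD : 0 < ev (scP D.1 D.2.1) q := scP_pos hq h1 _
  have : evv y q = fun i => (ev (scP D.1 D.2.1) q)⁻¹ * evv (combo u v L D.2.2) q i := by
    funext i
    rw [← he, evv_vscal, ← mul_assoc, inv_mul_cancel₀ hD.ne', one_mul]
  rw [this]
  exact K.smul _ _ _ (inv_pos.2 hD) hK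

theorem st_gen {q : ℝ} {u v : List ℤ} (hu : 0 < ev u q) (hv : 0 < ev v q) (hq : 3 < q)
    (G L : List (List (List ℤ))) (wG wL : ℕ) (rk : List ℕ)
    (D : List (Bool × ℕ × List ℕ × List (ℕ × List ℕ)))
    (h : stAll u v G L wG wL rk 0 L D = true) (N : ℕ) :
    ∀ i, i < L.length → rk.getD i 0 < N → K q G wG (decide (i < wL)) (evv (L.getD i []) q) := by
  induction N with
  | zero => intro i _ hN; omega
  | succ N ih =>
    intro i hi hN
    obtain ⟨d, hd⟩ := stAll_get L 0 D h i hi
    rw [zero_add] at hd
    unfold stOne at hd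
    by_cases hf : d.1 = true
    · rw [if_pos hf] at hd
      simp only [Bool.and_eq_true, decide_eq_true_eq, Bool.or_eq_true, Bool.not_eq_true',
        decide_eq_false_iff_not] at hd
      obtain ⟨⟨h1, h2⟩, h3⟩ := hd
      rw [evv_veq h2 q]
      refine K_weaken (K_gen (w := wG) _ h1) fun hb => ?_
      rw [decide_eq_true_eq] at hb ⊢
      exact h3.resolve_left fun h4 => h4 hb
    · rw [if_neg hf] at hd
      simp only [Bool.and_eq_true, Bool.or_eq_true, Bool.not_eq_true',
        decide_eq_false_iff_not, List.all_eq_true, decide_eq_true_eq] at hd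
      obtain ⟨⟨h1, h2⟩, h3⟩ := hd
      have h4 : ∀ e ∈ d.2.2.2, e.1 < L.length := by
        intro e he
        have h5 := h1
        simp only [certOK, Bool.and_eq_true, decide_eq_true_eq, List.all_eq_true] at h5
        exact (h5.1.2 e he).1
      refine K_weaken (K_cert' hu hv hq d.2 h1 fun e he => ih e.1 (h4 e he) ?_) fun hb => ?_
      · have := h2 e he
        omega
      · rw [decide_eq_true_eq] at hb
        exact h3.resolve_left fun h4 => h4 hb

/-- BLC/8 -/
theorem st_sound {q : ℝ} {u v : List ℤ} (hu : 0 < ev u q) (hv : 0 < ev v q) (hq : 3 < q)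
    (G L : List (List (List ℤ))) (wG wL : ℕ) (rk : List ℕ)
    (D : List (Bool × ℕ × List ℕ × List (ℕ × List ℕ)))
    (h : stAll u v G L wG wL rk 0 L D = true) {b : Bool} {x : ℕ → ℝ} (hx : K q L wL b x) :
    K q G wG b x := by
  have hg : ∀ i (hi : i < L.length), K q G wG (decide (i < wL)) (evv L[i] q) := by
    intro i hi
    have h1 := st_gen hu hv hq G L wG wL rk D h (rk.getD i 0 + 1) i hi (Nat.lt_succ_self _)
    have h0 : L.getD i [] = L[i] := by simp [List.getD, List.getElem?_eq_getElem hi]
    rwa [h0] at h1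
  refine K_map (f := fun x => x) Lin.id ?_ ?_ hx
  · intro g hgm
    rw [List.mem_take_iff_getElem] at hgm
    obtain ⟨i, hi, rfl⟩ := hgm
    exact K_weaken (hg i (by omega)) fun _ => decide_eq_true (by omega)
  · intro g hgm
    obtain ⟨i, hi, rfl⟩ := List.mem_iff_getElem.1 hgm
    exact K_weaken (hg i hi) fun hb => absurd hb (by simp)

end Pool.Agent.N467.BL
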