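import Pool.Agent.N467.BL.StageData
import Pool.Agent.N467.BL.StageS

/-! Check of the certificates for the redundant vectors (ring lengths at most five). -/

set_option autoImplicit false
set_option maxRecDepth 1000000

namespace Pool.Agent.N467.BL

theorem st2_0 : stAll [-113, 25] [5, -1] G2 L2 1 4 rk2 0 ((L2.drop 0).take 4)
    ((sd2.drop 0).take 4) = true := by decide +kernel

theorem st3_0 : stAll [-113, 25] [5, -1] G3 L3 1 8 rk3 0 ((L3.drop 0).take 8)
    ((sd3.drop 0).take 8) = true := by decide +kernel

theorem st4_0 : stAll [-113, 25] [5, -1] G4 L4 2 16 rk4 0 ((L4.drop 0).take 10)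
    ((sd4.drop 0).take 10) = true := by decide +kernel

theorem st4_10 : stAll [-113, 25] [5, -1] G4 L4 2 16 rk4 10 ((L4.drop 10).take 8)
    ((sd4.drop 10).take 8) = true := by decide +kernel

theorem st5_0 : stAll [-113, 25] [5, -1] G5 L5 6 32 rk5 0 ((L5.drop 0).take 10)
    ((sd5.drop 0).take 10) = true := by decide +kernel

theorem st5_10 : stAll [-113, 25] [5, -1] G5 L5 6 32 rk5 10 ((L5.drop 10).take 10)
    ((sd5.drop 10).take 10) = true := by decide +kernel

theorem st5_20 : stAll [-113, 25] [5, -1] G5 L5 6 32 rk5 20 ((L5.drop 20).take 10)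
    ((sd5.drop 20).take 10) = true := by decide +kernel

theorem st5_30 : stAll [-113, 25] [5, -1] G5 L5 6 32 rk5 30 ((L5.drop 30).take 7)
    ((sd5.drop 30).take 7) = true := by decide +kernel

end Pool.Agent.N467.BL
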