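import Mathlib

/-! Tables of the gluing operations: computable definitions. -/

set_option autoImplicit false

namespace Pool.Agent.N467.BL

/-- sum of coefficient lists -/
def padd : List ℤ → List ℤ → List ℤ
  | [], p => p
  | a :: p, [] => a :: p
  | a :: p, b :: r => (a + b) :: padd p r

def pneg (p : List ℤ) : List ℤ := p.map (fun x => -x)

/-- value of a coefficient list at an integer -/
def evZ : List ℤ → ℤ → ℤ
  | [], _ => 0
  | a :: p, x => a + x * evZ p x

/-- sum of the absolute values -/
def nrm : List ℤ → ℕ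
  | [] => 0
  | a :: p => a.natAbs + nrm p

/-- merge the blocks of `u` and `v` -/
def mrg (θ : List ℕ) (u v : ℕ) : List ℕ :=
  θ.map fun x => if x = θ.getD v 0 then θ.getD u 0 else x

/-- formal combinations of partitions (given by labels) -/
abbrev Terms := List (List ℤ × List ℕ)

/-- the colours of `u` and `v` are different -/
def stepE (e : ℕ × ℕ) (t : Terms) : Terms :=
  t.flatMap fun p =>
    if p.2.getD e.1 0 = p.2.getD e.2 0 then [] else [p, (pneg p.1, mrg p.2 e.1 e.2)]

/-- sum over the colour of `z` -/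
def stepD (z : ℕ) (t : Terms) : Terms :=
  t.map fun p =>
    (if p.2.count (p.2.getD z 0) = 1 then 0 :: p.1 else p.1, p.2.set z (p.2.length + z))

/-- impose the partition `b` of the positions `A` -/
def joinL (A b : List ℕ) (θ : List ℕ) : List ℕ :=
  (List.range b.length).foldl (fun θ i => mrg θ (A.getD (b.getD i 0) 0) (A.getD i 0)) θ

/-- the labels of the positions `C`, replaced by the index of their first occurrence -/
def rst (C θ : List ℕ) : List ℕ :=
  let l := C.map fun i => θ.getD i 0
  l.map fun x => l.idxOf x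

/-- two neighbours have the same label -/
def adjEq (l : List ℕ) : Bool := (l.zip (l.rotate 1)).any fun e => e.1 == e.2

/-- a type of gluing: `s` shared vertices, `m` other vertices of the first ring, `l` other vertices
of the second ring, the two flags tell whether the two ends of the shared path stay -/
structure Ty where
  s : ℕ
  m : ℕ
  l : ℕ
  e : Bool
  f : Bool

namespace Ty
def N (τ : Ty) : ℕ := τ.s + τ.m + τ.l
def A (τ : Ty) : List ℕ := List.range (τ.s + τ.m)
def B (τ : Ty) : List ℕ := (List.range τ.s).reverse ++ List.range' (τ.s + τ.m) τ.l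
def P (τ : Ty) : List ℕ := List.range τ.s
def Q (τ : Ty) : List ℕ := List.range' τ.s τ.m
def R (τ : Ty) : List ℕ := List.range' (τ.s + τ.m) τ.l
def C (τ : Ty) : List ℕ :=
  (if τ.e then τ.P.take 1 else []) ++ τ.R ++ (if τ.f then τ.P.reverse.take 1 else []) ++ τ.Q
/-- the dropped positions -/
def D (τ : Ty) : List ℕ := τ.P.filter fun i => !τ.C.contains i
/-- pairs of neighbours in one of the two rings which are not neighbours in the new ring -/
def E (τ : Ty) : List (ℕ × ℕ) :=
  let c := τ.C.zip (τ.C.rotate 1)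
  let ab := τ.A.zip (τ.A.rotate 1) ++ τ.B.zip (τ.B.rotate 1)
  (ab.filter fun e => !c.contains e && !c.contains (e.2, e.1)).pwFilter
    fun e e' => e ≠ (e'.2, e'.1) ∧ e ≠ e'
end Ty

/-- the value of the gluing at two partitions -/
def tab (τ : Ty) (b b' : List ℕ) : Terms :=
  let θ := joinL τ.B b' (joinL τ.A b (List.range τ.N))
  let t := (τ.E).foldl (fun t e => stepE e t) [([1], θ)]
  (τ.D).foldl (fun t z => stepD z t) t

/-- coefficient of the partition `c` of the new ring -/
def coefT (C : List ℕ) (t : Terms) (c : List ℕ) : List ℤ :=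
  t.foldr (fun p acc => if rst C p.2 = c then padd p.1 acc else acc) []

/-- all terms are multiples of partitions in the list `PQ`, or have two equal neighbours -/
def okT (C : List ℕ) (PQ : List (List ℕ)) (t : Terms) : Bool :=
  t.all fun p => adjEq (rst C p.2) || PQ.contains (rst C p.2)

/-- noncrossing partitions without equal neighbours, label = first index -/
def PQ : ℕ → List (List ℕ)
  | 2 => [[0, 1]]
  | 3 => [[0, 1, 2]]
  | 4 => [[0, 1, 0, 3], [0, 1, 2, 1], [0, 1, 2, 3]]
  | 5 => [[0, 1, 0, 3, 4], [0, 1, 2, 0, 4], [0, 1, 2, 1, 4], [0, 1, 2, 3, 1], [0, 1, 2, 3, 2],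
      [0, 1, 2, 3, 4]]
  | 6 => [[0, 1, 0, 3, 0, 5], [0, 1, 0, 3, 4, 3], [0, 1, 0, 3, 4, 5], [0, 1, 2, 0, 4, 5],
      [0, 1, 2, 1, 0, 5], [0, 1, 2, 1, 4, 1], [0, 1, 2, 1, 4, 5], [0, 1, 2, 3, 0, 5],
      [0, 1, 2, 3, 1, 5], [0, 1, 2, 3, 2, 1], [0, 1, 2, 3, 2, 5], [0, 1, 2, 3, 4, 1],
      [0, 1, 2, 3, 4, 2], [0, 1, 2, 3, 4, 3], [0, 1, 2, 3, 4, 5]]
  | _ => []

/-- the types of gluing for perimeters at most `w` -/
def tys (w : ℕ) : List Ty :=
  (List.range (w + 1)).flatMap fun s => (List.range (w + 1)).flatMap fun m =>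
    (List.range (w + 1)).flatMap fun l => [true, false].flatMap fun e => [true, false].flatMap fun f =>
      let τ : Ty := ⟨s, m, l, e, f⟩
      if 2 ≤ s + m ∧ s + m ≤ w ∧ 2 ≤ s + l ∧ s + l ≤ w ∧ τ.C.Nodup ∧ 2 ≤ τ.C.length ∧
        τ.C.length ≤ w then [τ] else []

end Pool.Agent.N467.BL
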