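import Pool.Agent.N467.BL.Defs
import Pool.Agent.N467.BL.TabDefs

/-! Soundness of the tables: definitions (from StmTab.lean, helper467). -/

set_option autoImplicit false

namespace Pool.Agent.N467.BL

open Classical in
/-- the function `d` is constant on the blocks of the partition with labels `θ` -/
def Rsp {κ : Type} (θ : List ℕ) (d : ℕ → κ) : Prop :=
  ∀ i j, i < θ.length → j < θ.length → θ.getD i 0 = θ.getD j 0 → d i = d j

/-- the list `x` is constant on the blocks of the partition `b` (label = first index) -/
def Rsb {κ : Type} (b : List ℕ) (x : List κ) : Prop :=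
  ∀ i, i < b.length → x[i]? = x[b.getD i 0]?

open Classical in
/-- value of a formal combination -/
noncomputable def evT {κ : Type} (t : Terms) (k : ℤ) (d : ℕ → κ) : ℤ :=
  (t.map fun p => evZ p.1 k * (if Rsp p.2 d then 1 else 0)).sum

/-- iterated sum over the values at the positions `D` -/
def sumD {κ : Type} [Fintype κ] : List ℕ → ((ℕ → κ) → ℤ) → (ℕ → κ) → ℤ
  | [], f, d => f d
  | z :: D, f, d => sumD D (fun d => ∑ x : κ, f (Function.update d z x)) d

/-- check of the list `E` of a type -/
def okE (τ : Ty) : Bool :=
  let c := τ.C.zip (τ.C.rotate 1)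
  let ab := τ.A.zip (τ.A.rotate 1) ++ τ.B.zip (τ.B.rotate 1)
  (ab.all fun e => τ.E.contains e || τ.E.contains (e.2, e.1) || c.contains e ||
    c.contains (e.2, e.1)) && (τ.E.all fun e => ab.contains e)

/-- a list of labels equal to the index of the first occurrence -/
def okB (n : ℕ) (b : List ℕ) : Bool :=
  b.length == n && (List.range n).all fun i => decide (b.getD i 0 ≤ i)

/-- all checks of a type -/
def okAll (τ : Ty) : Bool :=
  okE τ && ((PQ (τ.s + τ.m)).all fun b => okB (τ.s + τ.m) b) &&
    ((PQ (τ.s + τ.l)).all fun b => okB (τ.s + τ.l) b) &&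
    (PQ (τ.s + τ.m)).all fun b => (PQ (τ.s + τ.l)).all fun b' =>
      okT τ.C (PQ τ.C.length) (tab τ b b')

end Pool.Agent.N467.BL
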