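import Pool.Agent.N467.BL.GlueL
import Pool.Agent.N467.BL.Face
import Pool.Agent.N467.BL.Main
import Pool.Agent.N467.BL.W5Data

/-! The Birkhoff-Lewis inequality for graphs which are glued from polygons with perimeters at most
five. -/

set_option autoImplicit false
set_option maxRecDepth 1000000

namespace Pool.Agent.N467.BL

open Finset Polynomial
open Pool.Agent.TH389.BL (ev evv toP K aeval_toP)

theorem lvC5_ok : ∀ n ∈ [2, 3, 4, 5], decide (Lpg n = (Gs n).map fun g =>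
    res (Ms n) (pkv (Int.ofNat Bn) (Int.ofNat ((Wns n).getD 1 0)) g)) = true := by decide +kernel

theorem lvL5_ok : ∀ n ∈ [2, 3, 4, 5],
    ((Gs n).all fun g => okVec (PQ n).length (dls n) (nls n) g) = true := by decide +kernel

theorem mem4 {n : ℕ} (h2 : 2 ≤ n) (h5 : n ≤ 5) : n ∈ [2, 3, 4, 5] := by
  interval_cases n <;> simp

theorem glue_G {τ : Ty} {ds : List (ℕ × ℕ)} (h : chkOne5 τ ds = true)
    (hA2 : 2 ≤ τ.s + τ.m) (hA5 : τ.s + τ.m ≤ 5) (hB2 : 2 ≤ τ.s + τ.l) (hB5 : τ.s + τ.l ≤ 5)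
    (hC2 : 2 ≤ τ.C.length) (hC5 : τ.C.length ≤ 5) {q : ℝ} (hq : 4 < q) (b b' : Bool) (X Y : ℕ → ℝ)
    (hX : K q (Gs (τ.s + τ.m)) (wGs (τ.s + τ.m)) b X)
    (hY : K q (Gs (τ.s + τ.l)) (wGs (τ.s + τ.l)) b' Y) :
    K q (Gs τ.C.length) (wGs τ.C.length) (b && b') (gR τ q X Y) := by
  simp only [chkOne5, Bool.and_eq_true] at h
  obtain ⟨⟨⟨⟨h1, h2⟩, h3⟩, h4⟩, h5⟩ := h
  have a1 := lvA_ok _ (mem5 hA2 (by omega))
  have a2 := lvA_ok _ (mem5 hB2 (by omega))
  have a3 := lvA_ok _ (mem5 hC2 (by omega))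
  have b1 := lvB_ok _ (mem5 hA2 (by omega))
  have b2 := lvB_ok _ (mem5 hB2 (by omega))
  have c3 := lvC5_ok _ (mem4 hC2 hC5)
  have a35 := lvL5_ok _ (mem4 hC2 hC5)
  simp only [lvA, Bool.and_eq_true, decide_eq_true_eq] at a1 a2 a3
  simp only [lvB, decide_eq_true_eq] at b1 b2 c3
  obtain ⟨⟨⟨⟨⟨⟨⟨⟨_, _⟩, _⟩, a14⟩, _⟩, _⟩, a17⟩, a18⟩, _⟩ := a1
  obtain ⟨⟨⟨⟨⟨⟨⟨⟨_, _⟩, _⟩, a24⟩, _⟩, _⟩, a27⟩, a28⟩, _⟩ := a2
  obtain ⟨⟨⟨⟨⟨⟨⟨⟨a31, a32⟩, a33⟩, _⟩, _⟩, _⟩, a37⟩, a38⟩, a39⟩ := a3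
  have hM0 : 0 < Ms τ.C.length := by
    rw [Nat.eq_of_beq_eq_true a32]
    exact Nat.pow_pos (by norm_num)
  have hlL := Nat.eq_of_beq_eq_true a37
  have hlG := Nat.eq_of_beq_eq_true a27
  have hB : ((Bn : ℕ) : ℤ) = 2 ^ (par τ.C.length).kb := by
    rw [Bn_eq]
    simp [par]
  have hW : (List.map (fun w : ℕ => (w : ℤ)) (Wns τ.C.length)) =
      (List.range 15).map fun i => (2 : ℤ) ^ ((par τ.C.length).kb * ((par τ.C.length).d + 1) * i) := by
    rw [a33, List.map_map]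
    refine List.map_congr_left fun i _ => ?_
    simp only [Function.comp_apply, Nat.pow_eq]
    push_cast
    rfl
  have hW1 : (List.map (fun w : ℕ => (w : ℤ)) (Wns τ.C.length)).getD 1 0 =
      Int.ofNat ((Wns τ.C.length).getD 1 0) := by
    simp only [List.getD_eq_getElem?_getD, List.getElem?_map]
    cases (Wns τ.C.length)[1]? <;> simp
  have hsz : okTab τ (par τ.C.length).dt (par τ.C.length).nt = true := by
    refine okTab_of_size τ 8 4096 ?_ ?_
    · have := Nat.le_of_ble_eq_true h2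
      omega
    · have := Nat.le_of_ble_eq_true h3
      calc 2 ^ τ.E.length ≤ 2 ^ 12 := Nat.pow_le_pow_right (by norm_num) this
        _ = 4096 := by norm_num
  refine chk_sound (par τ.C.length) a31 τ ((Bn : ℕ) : ℤ) Bx (Ms τ.C.length)
    (List.map (fun w : ℕ => (w : ℤ)) (Wns τ.C.length)) hB ?_ (Nat.eq_of_beq_eq_true a32) hW
    (okAllF_sound h1) hsz (Nat.le_of_ble_eq_true a38) ?_
    (Nat.le_of_ble_eq_true a18) (Nat.le_of_ble_eq_true a28) (Gs (τ.s + τ.m)) (Gs (τ.s + τ.l))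
    (Gs τ.C.length) (Lpg τ.C.length) (hzs (τ.s + τ.m)) (hzs (τ.s + τ.l)) ds
    (tpkF (Ms τ.C.length) Bn τ (Wns τ.C.length)) ?_ ?_ ?_ a14 a24 a35 b1 b2 ?_
    (wGs (τ.s + τ.m)) (wGs (τ.s + τ.l)) (wGs τ.C.length) ?_ h5 q hq b b' X Y hX hY
  · rw [Bn_eq, Bx_eq]; norm_num
  · have := Nat.le_of_ble_eq_true a39
    omega
  · simp [tpkF]
  · intro t ht b hb
    rw [tpkF, List.mem_map] at ht
    obtain ⟨b1, _, rfl⟩ := ht
    rw [List.mem_map] at hb
    obtain ⟨b2, _, rfl⟩ := hb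
    exact (tpkF_entry hM0 Bn τ (Wns τ.C.length) b1 b2).1
  · intro i hi j hj
    have e : ((tpkF (Ms τ.C.length) Bn τ (Wns τ.C.length)).getD i []).getD j 0 =
        (jn τ ((PQ (τ.s + τ.m)).getD i []) ((PQ (τ.s + τ.l)).getD j []) fun θ =>
          gN (Ms τ.C.length) (lfN (Ms τ.C.length) Bn (Wns τ.C.length) τ.C τ.D (PQ τ.C.length)) τ.E θ) := by
      simp only [tpkF, List.getD_eq_getElem?_getD, List.getElem?_map, List.getElem?_eq_getElem hi,
        List.getElem?_eq_getElem hj, Option.map_some, Option.getD_some]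
    rw [e]
    exact (tpkF_entry hM0 Bn τ (Wns τ.C.length) _ _).2
  · rw [hW1]; exact c3
  · rw [hlL, hlG]; exact h4

def eqTy5 (σ τ : Ty) : Bool :=
  Nat.beq σ.s τ.s && Nat.beq σ.m τ.m && Nat.beq σ.l τ.l && (σ.e == τ.e) && (σ.f == τ.f)

theorem eqTy5_eq {σ τ : Ty} (h : eqTy5 σ τ = true) : σ = τ := by
  simp only [eqTy5, Bool.and_eq_true, beq_iff_eq] at h
  obtain ⟨⟨⟨⟨h1, h2⟩, h3⟩, h4⟩, h5⟩ := h
  have e1 := Nat.eq_of_beq_eq_true h1
  have e2 := Nat.eq_of_beq_eq_true h2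
  have e3 := Nat.eq_of_beq_eq_true h3
  cases σ; cases τ
  simp_all

/-- all types are treated -/
theorem tys5_parts : ((tys 5).all fun τ => parts5.any fun e => eqTy5 e.1 τ) = true := by
  decide +kernel

theorem tys5_bounds : ((tys 5).all fun τ => Nat.ble 2 (τ.s + τ.m) && Nat.ble (τ.s + τ.m) 5 &&
    (Nat.ble 2 (τ.s + τ.l) && Nat.ble (τ.s + τ.l) 5) &&
    (Nat.ble 2 τ.C.length && Nat.ble τ.C.length 5)) = true := by
  decide +kernel

theorem tys5_chk {τ : Ty} (h : τ ∈ tys 5) : ∃ ds, chkOne5 τ ds = true := by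
  have h1 := List.all_eq_true.1 tys5_parts τ h
  obtain ⟨e, he, h2⟩ := List.any_eq_true.1 h1
  exact ⟨e.2, by rw [← eqTy5_eq h2]; exact parts5_ok e he⟩

theorem hok5 : ∀ τ ∈ tys 5, okAll τ = true := by
  intro τ h
  obtain ⟨ds, h1⟩ := tys5_chk h
  simp only [chkOne5, Bool.and_eq_true] at h1
  exact okAllF_sound h1.1.1.1.1

theorem hglue5 {q : ℝ} (hq : 4 < q) : ∀ τ ∈ tys 5, ∀ b b' x y,
    K q (Gs (τ.s + τ.m)) (wGs (τ.s + τ.m)) b x → K q (Gs (τ.s + τ.l)) (wGs (τ.s + τ.l)) b' y →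
      K q (Gs τ.C.length) (wGs τ.C.length) (b && b') (gR τ q x y) := by
  intro τ h b b' x y hx hy
  obtain ⟨ds, h1⟩ := tys5_chk h
  have h2 := List.all_eq_true.1 tys5_bounds τ h
  simp only [Bool.and_eq_true] at h2
  obtain ⟨⟨⟨a1, a2⟩, ⟨a3, a4⟩⟩, ⟨a5, a6⟩⟩ := h2
  exact glue_G h1 (Nat.le_of_ble_eq_true a1) (Nat.le_of_ble_eq_true a2)
    (Nat.le_of_ble_eq_true a3) (Nat.le_of_ble_eq_true a4) (Nat.le_of_ble_eq_true a5)
    (Nat.le_of_ble_eq_true a6) hq b b' x y hx hy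

theorem Gs5_length {n : ℕ} (h2 : 2 ≤ n) (h6 : n ≤ 6) : ∀ g ∈ Gs n, g.length = (PQ n).length := by
  have h := lvA_ok n (mem5 h2 h6)
  simp only [lvA, Bool.and_eq_true] at h
  exact Gs_len h.1.1.1.1.1.2

theorem sR5_big {n : ℕ} (h2 : 2 ≤ n) (h6 : n ≤ 6) : ∀ i, (PQ n).length ≤ i → (PQ n).length ≤ sR n i := by
  intro i hi
  have h1 : (PQ n).getD i [] = [] := List.getD_eq_default _ _ hi
  unfold sR
  rw [h1]
  interval_cases n <;> decide

theorem sM5_big {n : ℕ} (h2 : 2 ≤ n) (h6 : n ≤ 6) : ∀ i, (PQ n).length ≤ i → (PQ n).length ≤ sM n i := by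
  intro i hi
  have h1 : (PQ n).getD i [] = [] := List.getD_eq_default _ _ hi
  unfold sM
  rw [h1]
  interval_cases n <;> decide

/-- the invariant: a representing vector in the cone -/
theorem disc_inv5 {q : ℝ} (hq : 4 < q) {V : Type} [Finite V] {G : SimpleGraph V} {S : Set V}
    {r : List V} (h : Disc 5 G S r) :
    ∃ X : ℕ → ℤ[X], Rep G S r X ∧
      K q (Gs r.length) (wGs r.length) true (fun i => aeval q (X i)) := by
  classical
  induction h with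
  | face r h1 h2 h3 =>
    refine ⟨_, Rep_face r h1 h2 (by omega), ?_⟩
    have e : (fun i => aeval q (if (PQ r.length).getD i [] = List.range r.length then (1 : ℤ[X])
        else 0)) = fun i => if (PQ r.length).getD i [] = List.range r.length then (1 : ℝ) else 0 := by
      funext i
      split_ifs
      · exact map_one _
      · exact map_zero _
    rw [e]
    exact face_K h2 (by omega) hq
  | rotate G S u r h ih =>
    obtain ⟨X, hX, hK⟩ := ih
    obtain ⟨-, h2, h3, -⟩ := h.inv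
    refine ⟨_, Rep_rotate G S u r (by omega) hX, ?_⟩
    have e : (r ++ [u]).length = r.length + 1 := by simp
    rw [e]
    simp only [List.length_cons] at h2 h3 hK
    exact perm_K (Gs5_length h2 (by omega)) (sR (r.length + 1)) (ros (r.length + 1))
      (sR5_big h2 (by omega)) (okR_all _ (mem5 h2 (by omega))) hK
  | mirror G S r h ih =>
    obtain ⟨X, hX, hK⟩ := ih
    obtain ⟨-, h2, h3, -⟩ := h.inv
    refine ⟨_, Rep_mirror G S r (by omega) hX, ?_⟩
    rw [List.length_reverse]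
    exact perm_K (Gs5_length h2 (by omega)) (sM r.length) (mis r.length)
      (sM5_big h2 (by omega)) (okM_all _ (mem5 h2 (by omega))) hK
  | glue G H S T P Q R E F hA hB hST hE hF hnd h2 h3 ihA ihB =>
    obtain ⟨X, hX, hKX⟩ := ihA
    obtain ⟨Y, hY, hKY⟩ := ihB
    obtain ⟨τ, hτ, e1, e2, e3, hR⟩ := Rep_glue hA hB hST hE hF hnd h2 h3 hok5 hX hY
    refine ⟨_, hR, ?_⟩
    rw [← e1] at hKX
    rw [← e2] at hKY
    have h4 := hglue5 hq τ hτ true true _ _ hKX hKY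
    rw [e3] at h4
    have e : (fun i => aeval q (gX τ X Y i)) =
        gR τ q (fun i => aeval q (X i)) (fun i => aeval q (Y i)) := by
      funext c
      unfold gX gR
      simp only [map_sum, map_mul, aeval_toP]
    rw [e]
    exact h4

/-- **The Birkhoff-Lewis inequality** for the graphs with a disc decomposition of width five. -/
theorem disc5_pos {V : Type} [Finite V] {G : SimpleGraph V} {r : List V} (h : Disc 5 G Set.univ r)
    (p : ℝ[X]) (hp : ∀ k : ℕ, p.eval (k : ℝ) = (Nat.card (G.Coloring (Fin k)) : ℝ))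
    {q : ℝ} (hq : 4 < q) : 0 < p.eval q := by
  obtain ⟨X, hX, hK⟩ := disc_inv5 hq h
  obtain ⟨-, h2, h3, -⟩ := h.inv
  rw [Rep_close h (by omega) hX p hp, eval_finsetSum]
  have h4 := close_pos h2 (by omega) hq _ hK
  refine lt_of_lt_of_eq h4 (Finset.sum_congr rfl fun i _ => ?_)
  rw [← eval₂_eq_eval_map]
  show _ = aeval q (toP (clos r.length ((PQ r.length).getD i [])) * X i)
  rw [map_mul, aeval_toP]

end Pool.Agent.N467.BL
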