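import Pool.Agent.N467.BL.Cfg

/-! Rings of length at most five: the check of one type of gluing against the generators alone. -/

set_option autoImplicit false

namespace Pool.Agent.N467.BL

/-- packed values of the generators -/
def Lpg (n : ℕ) : List ℕ := ((Lps n).take (wGs n)) ++ (((Lps n).drop (wLs n)).take (nGs n - wGs n))

/-- shape of the certificates of the pairs of generators -/
def chkS5 (τ : Ty) (ds : List (ℕ × ℕ)) : Bool :=
  okTy (mcs τ.C.length) (nGs τ.C.length) (dcs τ.C.length) (wGs τ.C.length) (wGs (τ.s + τ.m))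
    (wGs (τ.s + τ.l)) (nGs (τ.s + τ.l)) ds

/-- values of the certificates of the pairs of generators -/
def chkV5 (τ : Ty) (ds : List (ℕ × ℕ)) : Bool :=
  chkTy (Ms τ.C.length) Bx (tpkF (Ms τ.C.length) Bn τ (Wns τ.C.length)) (hzs (τ.s + τ.l))
    (Lpg τ.C.length) (hzs (τ.s + τ.m)) ds

/-- all checks of a type of gluing, with the certificates of the pairs of generators -/
def chkOne5 (τ : Ty) (ds : List (ℕ × ℕ)) : Bool :=
  okAllF τ && Nat.ble (Nat.succ τ.D.length) 8 && Nat.ble τ.E.length 12 && chkS5 τ ds && chkV5 τ ds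

end Pool.Agent.N467.BL
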